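import Pool.Agent.Lib.MP_26a019_lc.Eps.Spec

set_option autoImplicit false

/-!
# The a priori inequality: the vertex `x` is adjacent to the removed vertex `v`
-/

open Finset Classical

namespace Pool.Agent.Eps26

open Pool.Agent.Kempe Pool.Agent.KempeMix

variable {V C : Type} [Fintype V] [Fintype C]

namespace AprAdjAux

/-- Availability at `x` in the graph without `v`. -/
theorem av_erase_eq (G : SimpleGraph V) (U : Finset V) (L : V → Finset C) (f : V → C) (v x : V) :
    av G (U.erase v) L f x = avX G U L {v} f x := by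
  ext c
  rw [mem_av, mem_avX]
  refine and_congr_right fun _ => ?_
  constructor
  · intro h u hu huv
    refine h u ?_
    rw [mem_nb] at hu ⊢
    exact ⟨Finset.mem_erase.2 ⟨by simpa using huv, hu.1⟩, hu.2⟩
  · intro h u hu
    rw [mem_nb] at hu
    refine h u (mem_nb.2 ⟨Finset.mem_of_mem_erase hu.1, hu.2⟩) ?_
    simpa using Finset.ne_of_mem_erase hu.1

/-- Availability at `v` when the neighbour `x` has been coloured by `a`. -/
theorem av_upd {G : SimpleGraph V} {U : Finset V} {L : V → Finset C} {f : V → C} {v x : V}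
    (hx : x ∈ nb G U v) (a : C) :
    av G U L (Function.update f x a) v = (avX G U L {x} f v).erase a := by
  rw [av_eq_erase hx, avX_update_of_mem G U L f v (Finset.mem_singleton_self x) a,
    Function.update_self]

theorem av_upd2 {G : SimpleGraph V} {U : Finset V} {L : V → Finset C} {f : V → C} {v x : V}
    (hx : x ∈ nb G U v) (a b : C) :
    av G U L (Function.update (Function.update f x a) v b) v = (avX G U L {x} f v).erase a := by
  rw [av_update_self, av_upd hx]

/-- Sum over the colourings of `G[U \ v]` through those of `G[U \ v \ x]`. -/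
theorem sum_one (G : SimpleGraph V) (U : Finset V) (L : V → Finset C) (p : V → C) {v x : V}
    (hxU : x ∈ U.erase v) (F : (V → C) → ℝ) :
    ∑ f ∈ Col G (U.erase v) L p, F f =
      ∑ f ∈ Col G ((U.erase v).erase x) L p, ∑ a ∈ avX G U L {v} f x,
        F (Function.update f x a) := by
  rw [sum_Col_erase G (U.erase v) L p hxU F]
  refine Finset.sum_congr rfl fun f _ => ?_
  rw [av_erase_eq]

/-- Sum over the colourings of `G[U]` through those of `G[U \ v \ x]`. -/
theorem sum_two (G : SimpleGraph V) (U : Finset V) (L : V → Finset C) (p : V → C) {v x : V}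
    (hv : v ∈ U) (hx : x ∈ nb G U v) (F : (V → C) → ℝ) :
    ∑ f ∈ Col G U L p, F f =
      ∑ f ∈ Col G ((U.erase v).erase x) L p, ∑ a ∈ avX G U L {v} f x,
        ∑ b ∈ (avX G U L {x} f v).erase a,
          F (Function.update (Function.update f x a) v b) := by
  have hxv : x ≠ v := fun h => self_notMem_nb G U v (h ▸ hx)
  have hxU : x ∈ U.erase v := Finset.mem_erase.2 ⟨hxv, (mem_nb.1 hx).1⟩
  rw [sum_Col_erase G U L p hv F, sum_one G U L p hxU]
  refine Finset.sum_congr rfl fun f _ => Finset.sum_congr rfl fun a _ => ?_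
  rw [av_upd hx]

/-- Sum over the colourings of `G[U]` through those of `G[U \ v \ x]`, in the other order. -/
theorem sum_two' (G : SimpleGraph V) (U : Finset V) (L : V → Finset C) (p : V → C) {v x : V}
    (hv : v ∈ U) (hx : x ∈ nb G U v) (F : (V → C) → ℝ) :
    ∑ f ∈ Col G U L p, F f =
      ∑ f ∈ Col G ((U.erase v).erase x) L p, ∑ b ∈ avX G U L {x} f v,
        ∑ a ∈ (avX G U L {v} f x).erase b,
          F (Function.update (Function.update f x a) v b) := by
  have hxv : x ≠ v := fun h => self_notMem_nb G U v (h ▸ hx)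
  have hvx : v ∈ nb G U x := mem_nb_comm hv hx
  rw [sum_two G U L p (mem_nb.1 hx).1 hvx F, Finset.erase_right_comm]
  refine Finset.sum_congr rfl fun f _ => Finset.sum_congr rfl fun b _ =>
    Finset.sum_congr rfl fun a _ => ?_
  rw [Function.update_comm hxv]

/-- The main inequality between the sums. -/
theorem main_sum (h2 : TwoSite C) (G : SimpleGraph V) (U : Finset V) (L : V → Finset C)
    (p : V → C) (s : ℕ) (v x : V) (g : (V → C) → ℝ) (hG : Good G U L s) (hv : v ∈ U)
    (hx : x ∈ nb G U v) :
    ∑ f ∈ Col G (U.erase v) L p,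
      (hb G U L v g f - hb G (U.erase v) L x (hb G U L v g) f) ^ 2 ≤
    12 / (s : ℝ) ^ 3 * ∑ f ∈ Col G U L p, (g f - hb G U L v g f) ^ 2 +
    6 / (s : ℝ) * ∑ f ∈ Col G U L p, (g f - hb G U L x g f) ^ 2 := by
  have hxv : x ≠ v := fun h => self_notMem_nb G U v (h ▸ hx)
  have hxU : x ∈ U := (mem_nb.1 hx).1
  have hxU' : x ∈ U.erase v := Finset.mem_erase.2 ⟨hxv, hxU⟩
  have hvx : v ∈ nb G U x := mem_nb_comm hv hx
  rw [sum_one G U L p hxU', sum_two G U L p hv hx (fun f => (g f - hb G U L v g f) ^ 2),
    sum_two' G U L p hv hx (fun f => (g f - hb G U L x g f) ^ 2), Finset.mul_sum, Finset.mul_sum,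
    ← Finset.sum_add_distrib]
  refine Finset.sum_le_sum fun f _ => ?_
  have hD : s + 1 ≤ (avX G U L {v} f x).card := card_avX_nb hG hxU hvx f
  have hB : s + 1 ≤ (avX G U L {x} f v).card := card_avX_nb hG hv hx f
  have key := h2 (avX G U L {v} f x) (avX G U L {x} f v)
    (fun a b => g (Function.update (Function.update f x a) v b)) s hG.1 hD hB
  have e1 : ∀ a, hb G U L v g (Function.update f x a) =
      (∑ b ∈ (avX G U L {x} f v).erase a, g (Function.update (Function.update f x a) v b)) /
        (((avX G U L {x} f v).erase a).card : ℝ) := by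
    intro a
    unfold hb
    rw [av_upd hx]
  have e2 : ∀ a, hb G (U.erase v) L x (hb G U L v g) (Function.update f x a) =
      (∑ a' ∈ avX G U L {v} f x, (∑ b ∈ (avX G U L {x} f v).erase a',
          g (Function.update (Function.update f x a') v b)) /
        (((avX G U L {x} f v).erase a').card : ℝ)) / ((avX G U L {v} f x).card : ℝ) := by
    intro a
    have : hb G (U.erase v) L x (hb G U L v g) (Function.update f x a) =
        (∑ a' ∈ avX G U L {v} f x, hb G U L v g (Function.update f x a')) /
          ((avX G U L {v} f x).card : ℝ) := by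
      conv_lhs => unfold hb
      rw [av_update_self, av_erase_eq]
      simp only [Function.update_idem]
      rfl
    rw [this]
    simp only [e1]
  have e3 : ∀ a b, hb G U L v g (Function.update (Function.update f x a) v b) =
      (∑ b' ∈ (avX G U L {x} f v).erase a, g (Function.update (Function.update f x a) v b')) /
        (((avX G U L {x} f v).erase a).card : ℝ) := by
    intro a b
    unfold hb
    rw [av_upd2 hx]
    simp only [Function.update_idem]
  have e4 : ∀ a b, hb G U L x g (Function.update (Function.update f x a) v b) =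
      (∑ a' ∈ (avX G U L {v} f x).erase b, g (Function.update (Function.update f x a') v b)) /
        (((avX G U L {v} f x).erase b).card : ℝ) := by
    intro a b
    rw [Function.update_comm hxv]
    unfold hb
    rw [av_upd2 hvx]
    simp only [Function.update_idem]
    congr 1
    refine Finset.sum_congr rfl fun a' _ => ?_
    rw [Function.update_comm hxv]
  simp only [e1, e2, e3, e4]
  exact key

end AprAdjAux

open AprAdjAux in
theorem aprAdj_proof (V C : Type) [Fintype V] [Fintype C] : AprAdj V C := by
  intro h2 G U L p s v x g hG hv hx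
  have hs : (0 : ℝ) < s := by
    have := hG.1
    exact_mod_cast (by omega : 0 < s)
  have hsum := main_sum h2 G U L p s v x g hG hv hx
  have hG1 : Good G (U.erase v) L s := good_mono (Finset.erase_subset v U) hG
  have hN1 : (0 : ℝ) < ((Col G (U.erase v) L p).card : ℝ) := by
    exact_mod_cast Finset.card_pos.2 (Col_nonempty hG1 p)
  have hN : (0 : ℝ) < ((Col G U L p).card : ℝ) := by
    exact_mod_cast Finset.card_pos.2 (Col_nonempty hG p)
  have hcard : ((Col G U L p).card : ℝ) ≤
      (Fintype.card C : ℝ) * ((Col G (U.erase v) L p).card : ℝ) := by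
    have h1 := sum_Col_erase G U L p hv (fun _ => (1 : ℝ))
    simp only [Finset.sum_const, nsmul_eq_mul, mul_one] at h1
    rw [h1]
    calc ∑ f ∈ Col G (U.erase v) L p, ((av G U L f v).card : ℝ) ≤
          ∑ f ∈ Col G (U.erase v) L p, (Fintype.card C : ℝ) :=
          Finset.sum_le_sum fun f _ => by exact_mod_cast Finset.card_le_univ _
      _ = _ := by rw [Finset.sum_const, nsmul_eq_mul, mul_comm]
  unfold ev
  set S1 := ∑ f ∈ Col G (U.erase v) L p,
    (hb G U L v g f - hb G (U.erase v) L x (hb G U L v g) f) ^ 2 with hS1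
  set S2 := ∑ f ∈ Col G U L p, (g f - hb G U L v g f) ^ 2 with hS2
  set S3 := ∑ f ∈ Col G U L p, (g f - hb G U L x g f) ^ 2 with hS3
  have h20 : 0 ≤ S2 := Finset.sum_nonneg fun _ _ => sq_nonneg _
  have h30 : 0 ≤ S3 := Finset.sum_nonneg fun _ _ => sq_nonneg _
  have hR : 0 ≤ 12 / (s : ℝ) ^ 3 * S2 + 6 / (s : ℝ) * S3 := by positivity
  rw [div_le_iff₀ hN1]
  have e : (6 * (Fintype.card C : ℝ) / s * (S3 / ((Col G U L p).card : ℝ)) +
      12 * (Fintype.card C : ℝ) / (s : ℝ) ^ 3 * (S2 / ((Col G U L p).card : ℝ))) *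
        ((Col G (U.erase v) L p).card : ℝ) =
      (12 / (s : ℝ) ^ 3 * S2 + 6 / (s : ℝ) * S3) *
        ((Fintype.card C : ℝ) * ((Col G (U.erase v) L p).card : ℝ)) /
          ((Col G U L p).card : ℝ) := by
    field_simp
    ring
  rw [e, le_div_iff₀ hN]
  calc S1 * ((Col G U L p).card : ℝ) ≤
        (12 / (s : ℝ) ^ 3 * S2 + 6 / (s : ℝ) * S3) * ((Col G U L p).card : ℝ) :=
        mul_le_mul_of_nonneg_right hsum hN.le
    _ ≤ _ := mul_le_mul_of_nonneg_left hcard hR

end Pool.Agent.Eps26
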