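import Pool.Agent.Lib.MP_26a019_lc.Eps.Spec

set_option autoImplicit false

/-!
# Comparison of the laws with and without one vertex (`AprCmp` of `Eps/Spec.lean`)
-/

open Finset Classical

namespace Pool.Agent.Eps26

open Pool.Agent.Kempe Pool.Agent.KempeMix

theorem aprCmp_proof (V C : Type) [Fintype V] [Fintype C] : AprCmp V C := by
  intro G U L p s v φ hG hv hφ hφ0
  set A := Col G U L p with hA
  set A' := Col G (U.erase v) L p with hA'
  have hs0 : (0 : ℝ) < s := by exact_mod_cast (by have := hG.1; omega : 0 < s)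
  have h1 : ∑ f ∈ A, φ f = ∑ f ∈ A', ((av G U L f v).card : ℝ) * φ f := by
    rw [hA, sum_Col_erase G U L p hv]
    refine Finset.sum_congr rfl fun f _ => ?_
    rw [Finset.sum_congr rfl fun c _ => hφ f c, Finset.sum_const, nsmul_eq_mul]
  have h2 : (A.card : ℝ) = ∑ f ∈ A', ((av G U L f v).card : ℝ) := by
    have h := sum_Col_erase G U L p hv (fun _ => (1 : ℝ))
    simp only [Finset.sum_const, nsmul_eq_mul, mul_one] at h
    exact h
  have hlo : ∀ f, (s : ℝ) ≤ ((av G U L f v).card : ℝ) := fun f => by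
    exact_mod_cast card_av hG hv f
  have hhi : ∀ f, ((av G U L f v).card : ℝ) ≤ (Fintype.card C : ℝ) := fun f => by
    exact_mod_cast Finset.card_le_univ _
  have hq0 : (0 : ℝ) < (Fintype.card C : ℝ) := by
    obtain ⟨f, _⟩ := Col_nonempty hG p
    exact lt_of_lt_of_le hs0 ((hlo f).trans (hhi f))
  have hApos : (0 : ℝ) < (A.card : ℝ) := by
    exact_mod_cast Finset.card_pos.2 (Col_nonempty hG p)
  have hA'pos : (0 : ℝ) < (A'.card : ℝ) := by
    exact_mod_cast Finset.card_pos.2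
      (Col_nonempty (good_mono (Finset.erase_subset v U) hG) p)
  have h3 : (s : ℝ) * ∑ f ∈ A', φ f ≤ ∑ f ∈ A, φ f := by
    rw [h1, Finset.mul_sum]
    exact Finset.sum_le_sum fun f _ => mul_le_mul_of_nonneg_right (hlo f) (hφ0 f)
  have h4 : ∑ f ∈ A, φ f ≤ (Fintype.card C : ℝ) * ∑ f ∈ A', φ f := by
    rw [h1, Finset.mul_sum]
    exact Finset.sum_le_sum fun f _ => mul_le_mul_of_nonneg_right (hhi f) (hφ0 f)
  have h5 : (s : ℝ) * (A'.card : ℝ) ≤ (A.card : ℝ) := by
    rw [h2]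
    calc (s : ℝ) * (A'.card : ℝ) = ∑ f ∈ A', (s : ℝ) := by
          rw [Finset.sum_const, nsmul_eq_mul]; ring
      _ ≤ _ := Finset.sum_le_sum fun f _ => hlo f
  have h6 : (A.card : ℝ) ≤ (Fintype.card C : ℝ) * (A'.card : ℝ) := by
    rw [h2]
    calc _ ≤ ∑ f ∈ A', (Fintype.card C : ℝ) := Finset.sum_le_sum fun f _ => hhi f
      _ = _ := by rw [Finset.sum_const, nsmul_eq_mul]; ring
  have hS : 0 ≤ ∑ f ∈ A', φ f := Finset.sum_nonneg fun f _ => hφ0 f
  have hSA : 0 ≤ ∑ f ∈ A, φ f := Finset.sum_nonneg fun f _ => hφ0 f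
  unfold ev
  constructor
  · rw [div_mul_div_comm, div_le_div_iff₀ hApos (mul_pos hs0 hA'pos)]
    calc (∑ f ∈ A, φ f) * ((s : ℝ) * (A'.card : ℝ))
        ≤ ((Fintype.card C : ℝ) * ∑ f ∈ A', φ f) * (A.card : ℝ) :=
          mul_le_mul h4 h5 (by positivity) (by positivity)
      _ = _ := by ring
  · rw [div_mul_div_comm, div_le_div_iff₀ hA'pos (mul_pos hs0 hApos)]
    calc (∑ f ∈ A', φ f) * ((s : ℝ) * (A.card : ℝ))
        = ((s : ℝ) * ∑ f ∈ A', φ f) * (A.card : ℝ) := by ring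
      _ ≤ (∑ f ∈ A, φ f) * ((Fintype.card C : ℝ) * (A'.card : ℝ)) :=
          mul_le_mul h3 h6 (by positivity) (by positivity)
      _ = _ := by ring

end Pool.Agent.Eps26
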