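import Pool.Agent.Lib.MP_26a019_lc.Eps.Spec

set_option autoImplicit false
set_option linter.unusedVariables false
set_option linter.unusedSectionVars false

open Finset Classical

namespace Pool.Agent.Eps26

open Pool.Agent.Kempe Pool.Agent.KempeMix

namespace AprNonAux

variable {V C : Type} [Fintype V] [Fintype C]

theorem notMem_symm {G : SimpleGraph V} {U : Finset V} {v x : V} (hx : x ∈ U)
    (h : x ∉ nb G U v) : v ∉ nb G U x := fun h' =>
  h (mem_nb.2 ⟨hx, (mem_nb.1 h').2.symm⟩)

theorem nb_erase {G : SimpleGraph V} {U : Finset V} {v x : V} (h : v ∉ nb G U x) :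
    nb G (U.erase v) x = nb G U x := by
  ext u
  rw [mem_nb, mem_nb, Finset.mem_erase]
  constructor
  · rintro ⟨⟨_, h1⟩, h2⟩
    exact ⟨h1, h2⟩
  · rintro ⟨h1, h2⟩
    exact ⟨⟨fun huv => h (mem_nb.2 ⟨huv ▸ h1, huv ▸ h2⟩), h1⟩, h2⟩

theorem av_erase {G : SimpleGraph V} {U : Finset V} (L : V → Finset C) {v x : V}
    (h : v ∉ nb G U x) (f : V → C) : av G (U.erase v) L f x = av G U L f x := by
  unfold av
  rw [nb_erase h]

theorem hb_erase {G : SimpleGraph V} {U : Finset V} (L : V → Finset C) {v x : V}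
    (h : v ∉ nb G U x) (g : (V → C) → ℝ) (f : V → C) :
    hb G (U.erase v) L x g f = hb G U L x g f := by
  unfold hb
  rw [av_erase L h]

theorem hb_comm {G : SimpleGraph V} {U : Finset V} (L : V → Finset C) {v x : V} (hne : x ≠ v)
    (h1 : v ∉ nb G U x) (h2 : x ∉ nb G U v) (g : (V → C) → ℝ) (f : V → C) :
    hb G U L x (hb G U L v g) f = hb G U L v (hb G U L x g) f := by
  unfold hb
  have e1 : ∀ a, av G U L (Function.update f x a) v = av G U L f v := fun a =>
    av_update_of_notMem G U L f v h2 a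
  have e2 : ∀ a, av G U L (Function.update f v a) x = av G U L f x := fun a =>
    av_update_of_notMem G U L f x h1 a
  simp only [e1, e2]
  rw [← Finset.sum_div, ← Finset.sum_div, Finset.sum_comm, div_div, div_div, mul_comm]
  refine congrArg (fun t => t / _) ?_
  refine Finset.sum_congr rfl fun c _ => Finset.sum_congr rfl fun a _ => ?_
  rw [Function.update_comm hne]

theorem hb_sub (G : SimpleGraph V) (U : Finset V) (L : V → Finset C) (v : V)
    (g h : (V → C) → ℝ) (f : V → C) :
    hb G U L v (fun f' => g f' - h f') f = hb G U L v g f - hb G U L v h f := by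
  unfold hb; rw [Finset.sum_sub_distrib, sub_div]

theorem hb_sq_le {G : SimpleGraph V} {U : Finset V} {L : V → Finset C} {s : ℕ}
    (hG : Good G U L s) {v : V} (hv : v ∈ U) (g : (V → C) → ℝ) (f : V → C) :
    (hb G U L v g f) ^ 2 ≤ hb G U L v (fun f' => (g f') ^ 2) f := by
  have hp := av_pos hG hv f
  unfold hb
  rw [div_pow, div_le_div_iff₀ (by positivity) hp]
  have h2 := sq_sum_le_card_mul_sum_sq (s := av G U L f v)
    (f := fun c => g (Function.update f v c))
  nlinarith [h2, hp]

theorem hb_nonneg (G : SimpleGraph V) (U : Finset V) (L : V → Finset C) (v : V)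
    {g : (V → C) → ℝ} (hg : ∀ f, 0 ≤ g f) (f : V → C) : 0 ≤ hb G U L v g f := by
  unfold hb
  exact div_nonneg (Finset.sum_nonneg fun c _ => hg _) (Nat.cast_nonneg _)

end AprNonAux

open AprNonAux in
theorem aprNon_proof (V C : Type) [Fintype V] [Fintype C] : AprNon V C := by
  intro hcmp G U L p s v x g hG hv hx hxv
  have hxU : x ∈ U := Finset.mem_of_mem_erase hx
  have hne : x ≠ v := Finset.ne_of_mem_erase hx
  have hvx : v ∉ nb G U x := notMem_symm hxU hxv
  have hi : Ind v (hb G U L v (fun f' => (g f' - hb G U L x g f') ^ 2)) := ind_hb G U L v _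
  have h2 := (hcmp G U L p s v _ hG hv hi (hb_nonneg G U L v fun f => sq_nonneg _)).2
  rw [ev_hb hG p hv] at h2
  refine le_trans (ev_mono _ fun f _ => ?_) h2
  rw [hb_erase L hvx, hb_comm L hne hvx hxv, ← hb_sub]
  exact hb_sq_le hG hv _ f

end Pool.Agent.Eps26
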