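import Pool.Agent.Lib.MP_26a019_lc.Eps.Spec

set_option autoImplicit false

/-!
# The a priori Poincaré inequality when one vertex is added
-/

open Finset Classical

namespace Pool.Agent.Eps26

open Pool.Agent.Kempe Pool.Agent.KempeMix

namespace AprioriAux

variable {V C : Type} [Fintype V] [Fintype C]

theorem dir_eq {G : SimpleGraph V} {U : Finset V} (L : V → Finset C) (p : V → C) {v : V}
    (hv : v ∈ U) (g : (V → C) → ℝ) : dir G U L p g =
      ev (Col G U L p) (fun f => (g f - hb G U L v g f) ^ 2) +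
        ∑ x ∈ U.erase v, ev (Col G U L p) (fun f => (g f - hb G U L x g f) ^ 2) := by
  unfold dir
  exact (Finset.add_sum_erase U
    (fun x => ev (Col G U L p) (fun f => (g f - hb G U L x g f) ^ 2)) hv).symm

/-- The final inequality between real numbers. -/
theorem num {t P D S W : ℝ} (ht : 1 ≤ t) (hP : 1 ≤ P) (hD : 0 ≤ D) (hS : 0 ≤ S)
    (hW : W ≤ 6 * t * S + 6 * t ^ 2 * D) : D + t * (P * W) ≤ 7 * t ^ 3 * P * (D + S) := by
  have ht0 : 0 ≤ t := by linarith
  have hP0 : 0 ≤ P := by linarith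
  have h1 : t * (P * W) ≤ t * (P * (6 * t * S + 6 * t ^ 2 * D)) :=
    mul_le_mul_of_nonneg_left (mul_le_mul_of_nonneg_left hW hP0) ht0
  have h2 : 1 ≤ t ^ 3 * P := by
    have h3 : 1 ≤ t ^ 3 := one_le_pow₀ ht
    nlinarith
  have h4 : t ^ 2 ≤ t ^ 3 := pow_le_pow_right₀ ht (by norm_num)
  have h5 : 0 ≤ P * S := mul_nonneg hP0 hS
  have h6 : t ^ 2 * (P * S) ≤ t ^ 3 * (P * S) := mul_le_mul_of_nonneg_right h4 h5
  have h7 : D ≤ t ^ 3 * P * D := by nlinarith
  have h8 : 0 ≤ t ^ 3 * (P * S) := by positivity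
  calc D + t * (P * W) ≤ D + t * (P * (6 * t * S + 6 * t ^ 2 * D)) := by linarith
    _ = D + 6 * (t ^ 2 * (P * S)) + 6 * (t ^ 3 * P * D) := by ring
    _ ≤ t ^ 3 * P * D + 7 * (t ^ 3 * (P * S)) + 6 * (t ^ 3 * P * D) := by linarith
    _ = 7 * t ^ 3 * P * (D + S) := by ring

end AprioriAux

theorem apriori_proof (V C : Type) [Fintype V] [Fintype C] : Apriori V C := by
  intro hCmp hNon hAdj hTwo G U L p s v P hG hv hP hPoin g
  have hG' : Good G (U.erase v) L s := good_mono (Finset.erase_subset v U) hG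
  have hA : (Col G U L p).Nonempty := Col_nonempty hG p
  have hs2 : (2 : ℝ) ≤ s := by exact_mod_cast hG.1
  have hs0 : (0 : ℝ) < s := by linarith
  have hcard := card_nb_le_card hG hv
  have hqs : (s : ℝ) ≤ Fintype.card C := by exact_mod_cast (by omega : s ≤ Fintype.card C)
  have hnq : ((nb G U v).card : ℝ) ≤ Fintype.card C := by
    exact_mod_cast (by omega : (nb G U v).card ≤ Fintype.card C)
  set q : ℝ := (Fintype.card C : ℝ) with hq
  have hq0 : 0 < q := hs0.trans_le hqs
  have ht : 1 ≤ q / s := (one_le_div hs0).2 hqs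
  obtain ⟨D, hD⟩ : ∃ D : V → ℝ, ∀ x,
      D x = ev (Col G U L p) (fun f => (g f - hb G U L x g f) ^ 2) := ⟨_, fun _ => rfl⟩
  have hD0 : ∀ x, 0 ≤ D x := fun x => by
    rw [hD]
    exact ev_nonneg _ fun f _ => sq_nonneg _
  -- the decomposition of the variance
  have h1 : vr (Col G U L p) g = D v + vr (Col G U L p) (hb G U L v g) := by
    have e1 := ev_sq_split hG p hv (φ := fun _ => ev (Col G U L p) g) (fun _ _ => rfl) g
    rw [hD]
    unfold vr
    rw [ev_hb hG p hv g]
    exact e1
  have h2 : vr (Col G U L p) (hb G U L v g) ≤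
      q / s * vr (Col G (U.erase v) L p) (hb G U L v g) := by
    refine (vr_le hA (hb G U L v g) (ev (Col G (U.erase v) L p) (hb G U L v g))).trans ?_
    exact (hCmp G U L p s v (fun f => (hb G U L v g f -
      ev (Col G (U.erase v) L p) (hb G U L v g)) ^ 2) hG hv (fun f c => by
        simp only [ind_hb G U L v g f c]) (fun f => sq_nonneg _)).1
  have h3 := hPoin (hb G U L v g)
  -- the terms of the Dirichlet form
  have h4 : ∀ x ∈ U.erase v, ev (Col G (U.erase v) L p)
      (fun f => (hb G U L v g f - hb G (U.erase v) L x (hb G U L v g) f) ^ 2) ≤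
      6 * (q / s) * D x + (if x ∈ nb G U v then 12 * q / (s : ℝ) ^ 3 * D v else 0) := by
    intro x hx
    by_cases hxv : x ∈ nb G U v
    · rw [if_pos hxv, hD, hD]
      have h5 := hAdj hTwo G U L p s v x g hG hv hxv
      rw [show 6 * (q / (s : ℝ)) = 6 * q / s by ring]
      exact h5
    · rw [if_neg hxv, add_zero]
      have h5 := hNon hCmp G U L p s v x g hG hv hx hxv
      rw [← hD x] at h5
      refine h5.trans ?_
      have h6 : 0 ≤ q / s * D x := mul_nonneg (by positivity) (hD0 x)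
      linarith
  have h5 : dir G (U.erase v) L p (hb G U L v g) ≤
      6 * (q / s) * (∑ x ∈ U.erase v, D x) + 6 * (q / s) ^ 2 * D v := by
    unfold dir
    refine (Finset.sum_le_sum h4).trans ?_
    rw [Finset.sum_add_distrib, ← Finset.mul_sum, ← Finset.sum_filter, Finset.sum_const,
      nsmul_eq_mul]
    have h6 : (((U.erase v).filter fun x => x ∈ nb G U v).card : ℝ) ≤ q := by
      refine le_trans ?_ hnq
      exact_mod_cast Finset.card_le_card fun x hx => (Finset.mem_filter.1 hx).2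
    have h7 : 0 ≤ 12 * q / (s : ℝ) ^ 3 * D v := mul_nonneg (by positivity) (hD0 v)
    have h8 : q * (12 * q / (s : ℝ) ^ 3 * D v) ≤ 6 * (q / s) ^ 2 * D v := by
      have h9 : q * (12 * q / (s : ℝ) ^ 3 * D v) = (12 / s) * ((q / s) ^ 2 * D v) := by
        field_simp
      have h10 : 12 / (s : ℝ) ≤ 6 := by
        rw [div_le_iff₀ hs0]
        linarith
      have h11 : 0 ≤ (q / s) ^ 2 * D v := mul_nonneg (by positivity) (hD0 v)
      rw [h9]
      nlinarith
    have h12 := mul_le_mul_of_nonneg_right h6 h7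
    linarith
  have hS0 : 0 ≤ ∑ x ∈ U.erase v, D x := Finset.sum_nonneg fun x _ => hD0 x
  have h6 := AprioriAux.num ht hP (hD0 v) hS0 h5
  have h7 : dir G U L p g = D v + ∑ x ∈ U.erase v, D x := by
    rw [AprioriAux.dir_eq L p hv g]
    simp only [hD]
  rw [h7]
  refine le_trans ?_ h6
  rw [h1]
  have h8 : q / s * vr (Col G (U.erase v) L p) (hb G U L v g) ≤
      q / s * (P * dir G (U.erase v) L p (hb G U L v g)) :=
    mul_le_mul_of_nonneg_left h3 (by positivity)
  linarith

end Pool.Agent.Eps26
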