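import Pool.Agent.Lib.MP_26a019_lc.Eps.Spec

set_option autoImplicit false
set_option linter.unusedSectionVars false

/-!
# Bridge: conditioning on the colours outside `T`
-/

open Finset Classical

namespace Pool.Agent.Eps26

open Pool.Agent.Kempe Pool.Agent.KempeMix

namespace BridgeAux

variable {V C : Type} [Fintype V] [Fintype C]

theorem mem_cls {Om : Finset (V → C)} {T : Finset V} {f f' : V → C} :
    f' ∈ cls Om (Tᶜ) f ↔ f' ∈ Om ∧ ∀ u, u ∉ T → f' u = f u := by
  unfold cls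
  rw [Finset.mem_filter]
  refine and_congr_right fun _ => forall_congr' fun u => ?_
  rw [Finset.mem_compl]

theorem cls_eq (G : SimpleGraph V) (U : Finset V) (L : V → Finset C) (p : V → C) (T : Finset V)
    (f : V → C) (hT : T ⊆ U) (hf : f ∈ Col G U L p) :
    cls (Col G U L p) (Tᶜ) f = Col G T (fun v => avX G U L T f v) f := by
  rw [mem_Col] at hf
  ext f'
  rw [mem_cls, mem_Col, mem_Col]
  constructor
  · rintro ⟨⟨h1, h2, h3⟩, h4⟩
    refine ⟨h4, fun v hv => ?_, fun u hu w hw => h3 u (hT hu) w (hT hw)⟩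
    rw [mem_avX]
    refine ⟨h2 v (hT hv), fun u hu huT => ?_⟩
    rw [← h4 u huT]
    exact h3 u (mem_nb.1 hu).1 v (hT hv) (mem_nb.1 hu).2.symm
  · rintro ⟨h1, h2, h3⟩
    refine ⟨⟨fun v hv => ?_, fun v hv => ?_, fun u hu w hw huw => ?_⟩, h1⟩
    · rw [h1 v fun h => hv (hT h)]
      exact hf.1 v hv
    · by_cases hvT : v ∈ T
      · exact (mem_avX.1 (h2 v hvT)).1
      · rw [h1 v hvT]
        exact hf.2.1 v hv
    · by_cases huT : u ∈ T
      · by_cases hwT : w ∈ T
        · exact h3 u huT w hwT huw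
        · rw [h1 w hwT]
          exact ((mem_avX.1 (h2 u huT)).2 w (mem_nb.2 ⟨hw, huw⟩) hwT).symm
      · by_cases hwT : w ∈ T
        · rw [h1 u huT]
          exact (mem_avX.1 (h2 w hwT)).2 u (mem_nb.2 ⟨hu, huw.symm⟩) huT
        · rw [h1 u huT, h1 w hwT]
          exact hf.2.2 u hu w hw huw

theorem nb_subset_inter (G : SimpleGraph V) (U T : Finset V) (hT : T ⊆ U) (v : V) :
    nb G T v ⊆ nb G U v ∩ T := by
  intro u hu
  exact Finset.mem_inter.2 ⟨nb_mono hT v hu, (mem_nb.1 hu).1⟩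

theorem w4_mono (G : SimpleGraph V) (U T : Finset V) (hT : T ⊆ U) (v : V) :
    w4 G T v ≤ w4 G U v := by
  unfold w4
  have h : ∀ x, nb G T x ⊆ nb G U x := fun x => nb_mono hT x
  refine (Finset.sum_le_sum fun x _ => Finset.sum_le_sum fun y _ =>
    Finset.card_le_card (Finset.inter_subset_inter (h x) (h y))).trans ?_
  refine (Finset.sum_le_sum fun x _ => Finset.sum_le_sum_of_subset (h v)).trans ?_
  exact Finset.sum_le_sum_of_subset (h v)

theorem av_eq (G : SimpleGraph V) (U : Finset V) (L : V → Finset C) (T : Finset V)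
    (f f' : V → C) (hT : T ⊆ U) (v : V) (h : ∀ u, u ∉ T → f' u = f u) :
    av G T (fun v => avX G U L T f v) f' v = av G U L f' v := by
  ext c
  rw [mem_av, mem_avX, mem_av]
  constructor
  · rintro ⟨⟨h1, h2⟩, h3⟩
    refine ⟨h1, fun u hu => ?_⟩
    by_cases huT : u ∈ T
    · exact h3 u (mem_nb.2 ⟨huT, (mem_nb.1 hu).2⟩)
    · rw [h u huT]
      exact h2 u hu huT
  · rintro ⟨h1, h2⟩
    refine ⟨⟨h1, fun u hu huT => ?_⟩, fun u hu => h2 u (nb_mono hT v hu)⟩
    rw [← h u huT]
    exact h2 u hu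

end BridgeAux

open BridgeAux

theorem bridge_proof (V C : Type) [Fintype V] [Fintype C] : Bridge V C := by
  intro G U L p s T f hG hT hf
  refine ⟨cls_eq G U L p T f hT hf, ⟨hG.1, fun v hv => ?_⟩, fun v _ => w4_mono G U T hT v,
    fun g v hv f' hf' => ?_⟩
  · have h1 := card_avX_ge hG (hT hv) T f
    have h2 := Finset.card_le_card (nb_subset_inter G U T hT v)
    show (nb G T v).card + s ≤ (avX G U L T f v).card
    omega
  · have h1 := av_eq G U L T f f' hT v (mem_cls.1 hf').2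
    unfold hb
    rw [h1]

end Pool.Agent.Eps26
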