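import Pool.Agent.Lib.MP_26a019_lc.Eps.Spec

set_option autoImplicit false

/-!
# Concentration of the number of available colours
-/

open Finset Classical

namespace Pool.Agent.Eps26

open Pool.Agent.Kempe Pool.Agent.KempeMix

theorem concA_proof (V C : Type) [Fintype V] [Fintype C] : ConcA V C := by
  intro G U L p s P u hG hu hP hPoin
  have hA := Col_nonempty hG p
  refine (hPoin (fun f => ((av G U L f u).card : ℝ))).trans (mul_le_mul_of_nonneg_left ?_ hP)
  unfold dir
  have hterm : ∀ x ∈ U, ev (Col G U L p) (fun f => (((av G U L f u).card : ℝ) -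
      hb G U L x (fun f => ((av G U L f u).card : ℝ)) f) ^ 2) ≤
      if x ∈ nb G U u then (1 : ℝ) else 0 := by
    intro x hx
    by_cases hxu : x ∈ nb G U u
    · rw [if_pos hxu]
      have hφ : Ind x (fun f : V → C => ((avX G U L {x} f u).card : ℝ)) := fun f c => by
        show ((avX G U L {x} (Function.update f x c) u).card : ℝ) = _
        rw [avX_update_of_mem G U L f u (Finset.mem_singleton_self x) c]
      refine (ev_sub_hb_sq_le hG p hx hφ _).trans ?_
      refine (ev_mono (Col G U L p) (h := fun _ => (1 : ℝ)) fun f _ => ?_).trans (ev_const hA 1).le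
      show (((av G U L f u).card : ℝ) - ((avX G U L {x} f u).card : ℝ)) ^ 2 ≤ 1
      rw [av_eq_erase hxu]
      by_cases hm : f x ∈ avX G U L {x} f u
      · have h1 : (((avX G U L {x} f u).erase (f x)).card : ℝ) =
            ((avX G U L {x} f u).card : ℝ) - 1 := by
          have h2 := Finset.card_erase_add_one hm
          have h3 : (((avX G U L {x} f u).erase (f x)).card : ℝ) + 1 =
            ((avX G U L {x} f u).card : ℝ) := by exact_mod_cast h2
          linarith
        rw [h1]
        nlinarith
      · rw [Finset.erase_eq_of_notMem hm, sub_self]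
        norm_num
    · rw [if_neg hxu]
      have hφ : Ind x (fun f : V → C => ((av G U L f u).card : ℝ)) := fun f c => by
        show ((av G U L (Function.update f x c) u).card : ℝ) = _
        rw [av_update_of_notMem G U L f u hxu c]
      refine (ev_sub_hb_sq_le hG p hx hφ _).trans ?_
      refine (ev_mono (Col G U L p) (h := fun _ => (0 : ℝ)) fun f _ => ?_).trans (ev_const hA 0).le
      rw [sub_self]
      norm_num
  refine (Finset.sum_le_sum hterm).trans ?_
  rw [Finset.sum_boole]
  have h1 : (U.filter (fun x => x ∈ nb G U u)).card ≤ (nb G U u).card :=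
    Finset.card_le_card fun x hx => (Finset.mem_filter.1 hx).2
  have h2 := card_nb_le_card hG hu
  exact_mod_cast (by omega : (U.filter (fun x => x ∈ nb G U u)).card ≤ Fintype.card C)

end Pool.Agent.Eps26
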