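import Pool.Agent.Lib.MP_26a019_lc.Eps.Spec

set_option autoImplicit false

/-!
# Module ConcS: variance of the sum of the heat bath probabilities of a colour
-/

open Finset Classical

namespace Pool.Agent.Eps26

open Pool.Agent.Kempe Pool.Agent.KempeMix

namespace ConcSAux

variable {V C : Type} [Fintype V] [Fintype C]

theorem inv_sub_le {s n1 n2 : ℕ} (hs : 0 < s) (h1 : s ≤ n1) (h2 : s ≤ n2) (h3 : n1 ≤ n2 + 1)
    (h4 : n2 ≤ n1 + 1) : |1 / (n1 : ℝ) - 1 / (n2 : ℝ)| ≤ (1 / (s : ℝ)) ^ 2 := by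
  have hs' : (0 : ℝ) < s := by exact_mod_cast hs
  have a1 : (s : ℝ) ≤ n1 := by exact_mod_cast h1
  have a2 : (s : ℝ) ≤ n2 := by exact_mod_cast h2
  have a3 : (n1 : ℝ) ≤ n2 + 1 := by exact_mod_cast h3
  have a4 : (n2 : ℝ) ≤ n1 + 1 := by exact_mod_cast h4
  have p1 : (0 : ℝ) < n1 := lt_of_lt_of_le hs' a1
  have p2 : (0 : ℝ) < n2 := lt_of_lt_of_le hs' a2
  have e : 1 / (n1 : ℝ) - 1 / (n2 : ℝ) = ((n2 : ℝ) - n1) / (n1 * n2) := by
    field_simp
  rw [e, abs_div, abs_of_pos (mul_pos p1 p2), one_div, inv_pow, ← one_div]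
  have b1 : |(n2 : ℝ) - n1| ≤ 1 := by
    rw [abs_le]; constructor <;> linarith
  have b2 : (s : ℝ) ^ 2 ≤ n1 * n2 := by nlinarith
  rw [div_le_div_iff₀ (mul_pos p1 p2) (by positivity)]
  have : |(n2 : ℝ) - n1| * (s : ℝ) ^ 2 ≤ 1 * (s : ℝ) ^ 2 :=
    mul_le_mul_of_nonneg_right b1 (by positivity)
  linarith

/-- indicator -/
noncomputable def id1 (a c : C) : ℝ := if a = c then 1 else 0

theorem id1_nonneg (a c : C) : 0 ≤ id1 a c := by unfold id1; split_ifs <;> norm_num

theorem id1_sq (a c : C) : (id1 a c) ^ 2 = id1 a c := by unfold id1; split_ifs <;> norm_num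

/-- one vertex `v` adjacent to `x` -/
theorem pr_diff {G : SimpleGraph V} {U : Finset V} {L : V → Finset C} {s : ℕ}
    (hG : Good G U L s) {v x : V} (hv : v ∈ U) (hx : x ∈ nb G U v) (c b : C) (f : V → C) :
    |pr G U L v c f - pr G U L v c (Function.update f x b)| ≤
      (1 / (s : ℝ)) ^ 2 + 1 / (s : ℝ) * id1 (f x) c + 1 / (s : ℝ) * id1 b c := by
  have hs : 0 < s := by have := hG.1; omega
  have hs' : (0 : ℝ) < s := by exact_mod_cast hs
  set r : ℝ := 1 / (s : ℝ) with hr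
  have hr0 : 0 < r := by positivity
  have p1 := pr_nonneg G U L v c f
  have p2 := pr_nonneg G U L v c (Function.update f x b)
  have q1 := pr_le hG hv c f
  have q2 := pr_le hG hv c (Function.update f x b)
  have hab : |pr G U L v c f - pr G U L v c (Function.update f x b)| ≤ r := by
    rw [abs_le]; constructor <;> linarith
  by_cases h1 : f x = c
  · have e1 : id1 (f x) c = 1 := by unfold id1; rw [if_pos h1]
    have e2 := id1_nonneg b c
    rw [e1]
    nlinarith [sq_nonneg r, mul_nonneg hr0.le e2]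
  by_cases h2 : b = c
  · have e1 : id1 b c = 1 := by unfold id1; rw [if_pos h2]
    have e2 := id1_nonneg (f x) c
    rw [e1]
    nlinarith [sq_nonneg r, mul_nonneg hr0.le e2]
  have e1 : id1 (f x) c = 0 := by unfold id1; rw [if_neg h1]
  have e2 : id1 b c = 0 := by unfold id1; rw [if_neg h2]
  rw [e1, e2, mul_zero, add_zero, add_zero]
  have a1 : av G U L f v = (avX G U L {x} f v).erase (f x) := av_eq_erase hx
  have a2 : av G U L (Function.update f x b) v = (avX G U L {x} f v).erase b := by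
    rw [av_eq_erase hx, avX_update_of_mem G U L f v (Finset.mem_singleton_self x) b,
      Function.update_self]
  have hW := card_avX_nb hG hv hx f
  have m1 : (c ∈ av G U L f v) ↔ c ∈ avX G U L {x} f v := by
    rw [a1, Finset.mem_erase]; exact ⟨fun h => h.2, fun h => ⟨Ne.symm h1, h⟩⟩
  have m2 : (c ∈ av G U L (Function.update f x b) v) ↔ c ∈ avX G U L {x} f v := by
    rw [a2, Finset.mem_erase]; exact ⟨fun h => h.2, fun h => ⟨Ne.symm h2, h⟩⟩
  by_cases hc : c ∈ avX G U L {x} f v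
  · unfold pr
    rw [if_pos (m1.2 hc), if_pos (m2.2 hc)]
    have c1 := card_av hG hv f
    have c2 := card_av hG hv (Function.update f x b)
    have d1 : (av G U L f v).card ≤ (avX G U L {x} f v).card := by
      rw [a1]; exact Finset.card_erase_le
    have d2 : (avX G U L {x} f v).card - 1 ≤ (av G U L f v).card := by
      rw [a1]; exact Finset.pred_card_le_card_erase
    have d3 : (av G U L (Function.update f x b) v).card ≤ (avX G U L {x} f v).card := by
      rw [a2]; exact Finset.card_erase_le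
    have d4 : (avX G U L {x} f v).card - 1 ≤ (av G U L (Function.update f x b) v).card := by
      rw [a2]; exact Finset.pred_card_le_card_erase
    exact inv_sub_le hs c1 c2 (by omega) (by omega)
  · unfold pr
    rw [if_neg (fun h => hc (m1.1 h)), if_neg (fun h => hc (m2.1 h)), sub_self, abs_zero]
    positivity

/-- all neighbours of `u` -/
theorem sum_diff {G : SimpleGraph V} {U : Finset V} {L : V → Finset C} {s : ℕ}
    (hG : Good G U L s) {u x : V} (hx : x ∈ U) (c b : C) (f : V → C) :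
    |(∑ v ∈ nb G U u, pr G U L v c f) - ∑ v ∈ nb G U u, pr G U L v c (Function.update f x b)| ≤
      (kn G U x u : ℝ) *
        ((1 / (s : ℝ)) ^ 2 + 1 / (s : ℝ) * id1 (f x) c + 1 / (s : ℝ) * id1 b c) := by
  set D : ℝ := (1 / (s : ℝ)) ^ 2 + 1 / (s : ℝ) * id1 (f x) c + 1 / (s : ℝ) * id1 b c with hD
  rw [← Finset.sum_sub_distrib]
  refine (Finset.abs_sum_le_sum_abs _ _).trans ?_
  have h1 : ∀ v ∈ nb G U u, |pr G U L v c f - pr G U L v c (Function.update f x b)| ≤
      if v ∈ nb G U x then D else 0 := by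
    intro v hv
    have hvU : v ∈ U := nb_subset G U u hv
    split_ifs with h
    · exact pr_diff hG hvU (mem_nb_comm hx h) c b f
    · have hxv : x ∉ nb G U v := fun h' => h (mem_nb_comm hvU h')
      have e : pr G U L v c (Function.update f x b) = pr G U L v c f := by
        unfold pr
        rw [av_update_of_notMem G U L f v hxv b]
      rw [e, sub_self, abs_zero]
  refine (Finset.sum_le_sum h1).trans ?_
  rw [← Finset.sum_filter, Finset.sum_const, nsmul_eq_mul]
  have e : (nb G U u).filter (fun v => v ∈ nb G U x) = nb G U x ∩ nb G U u := by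
    ext v; rw [Finset.mem_filter, Finset.mem_inter]; exact and_comm
  rw [e]
  rfl

theorem sum_id1 (G : SimpleGraph V) (U : Finset V) (L : V → Finset C) (x : V) (c : C)
    (f : V → C) : (∑ b ∈ av G U L f x, id1 b c) / ((av G U L f x).card : ℝ) =
      pr G U L x c f := by
  unfold pr id1
  rw [Finset.sum_ite_eq']
  split_ifs <;> simp

theorem term_le {G : SimpleGraph V} {U : Finset V} {L : V → Finset C} {s : ℕ}
    (hG : Good G U L s) (p : V → C) {u x : V} (hx : x ∈ U) (c : C) :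
    ev (Col G U L p) (fun f => ((∑ v ∈ nb G U u, pr G U L v c f) -
      hb G U L x (fun f' => ∑ v ∈ nb G U u, pr G U L v c f') f) ^ 2) ≤
    8 * (kn G U x u : ℝ) ^ 2 / (s : ℝ) ^ 3 := by
  have hs : 0 < s := by have := hG.1; omega
  have hs' : (0 : ℝ) < s := by exact_mod_cast hs
  have hs2 : (2 : ℝ) ≤ s := by exact_mod_cast hG.1
  set r : ℝ := 1 / (s : ℝ) with hr
  have hr0 : 0 < r := by positivity
  have hr2 : r ≤ 1 / 2 := one_div_le_one_div_of_le (by norm_num) hs2
  set k : ℝ := (kn G U x u : ℝ) with hk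
  refine (ev_sub_hb_sq_le_avg hG p hx _).trans ?_
  have h1 : ∀ f ∈ Col G U L p,
      (∑ b ∈ av G U L f x, ((∑ v ∈ nb G U u, pr G U L v c f) -
        ∑ v ∈ nb G U u, pr G U L v c (Function.update f x b)) ^ 2) /
          ((av G U L f x).card : ℝ) ≤
      k ^ 2 * (3 * r ^ 4) + k ^ 2 * (3 * r ^ 2) * (if f x = c then (1 : ℝ) else 0) +
        k ^ 2 * (3 * r ^ 2) * pr G U L x c f := by
    intro f _
    have hp := av_pos hG hx f
    have h2 : ∀ b ∈ av G U L f x, ((∑ v ∈ nb G U u, pr G U L v c f) -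
        ∑ v ∈ nb G U u, pr G U L v c (Function.update f x b)) ^ 2 ≤
        (k ^ 2 * (3 * r ^ 4) + k ^ 2 * (3 * r ^ 2) * id1 (f x) c) +
          k ^ 2 * (3 * r ^ 2) * id1 b c := by
      intro b _
      have h3 := sum_diff hG (u := u) hx c b f
      have h4 := sq_le_sq' (by linarith [neg_abs_le ((∑ v ∈ nb G U u, pr G U L v c f) -
        ∑ v ∈ nb G U u, pr G U L v c (Function.update f x b))]) ((le_abs_self _).trans h3)
      refine h4.trans ?_
      rw [mul_pow]
      have h5 := id1_sq (f x) c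
      have h6 := id1_sq b c
      set i1 := id1 (f x) c
      set i2 := id1 b c
      have h7 : (r ^ 2 + r * i1 + r * i2) ^ 2 ≤ 3 * r ^ 4 + 3 * r ^ 2 * i1 + 3 * r ^ 2 * i2 := by
        have h8 : (r ^ 2 + r * i1 + r * i2) ^ 2 ≤
            3 * ((r ^ 2) ^ 2 + (r * i1) ^ 2 + (r * i2) ^ 2) := by
          nlinarith [sq_nonneg (r ^ 2 - r * i1), sq_nonneg (r ^ 2 - r * i2),
            sq_nonneg (r * i1 - r * i2)]
        have h9 : 3 * ((r ^ 2) ^ 2 + (r * i1) ^ 2 + (r * i2) ^ 2) =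
            3 * r ^ 4 + 3 * r ^ 2 * i1 + 3 * r ^ 2 * i2 := by
          rw [mul_pow, mul_pow, h5, h6]; ring
        linarith
      have h10 := mul_le_mul_of_nonneg_left h7 (sq_nonneg k)
      linarith
    have h3 : (∑ b ∈ av G U L f x, ((∑ v ∈ nb G U u, pr G U L v c f) -
        ∑ v ∈ nb G U u, pr G U L v c (Function.update f x b)) ^ 2) /
          ((av G U L f x).card : ℝ) ≤
        (∑ b ∈ av G U L f x, ((k ^ 2 * (3 * r ^ 4) + k ^ 2 * (3 * r ^ 2) * id1 (f x) c) +
          k ^ 2 * (3 * r ^ 2) * id1 b c)) / ((av G U L f x).card : ℝ) :=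
      div_le_div_of_nonneg_right (Finset.sum_le_sum h2) hp.le
    refine h3.trans (le_of_eq ?_)
    rw [Finset.sum_add_distrib, Finset.sum_const, nsmul_eq_mul, ← Finset.mul_sum, add_div,
      mul_div_assoc (k ^ 2 * (3 * r ^ 2)), sum_id1]
    have hne := hp.ne'
    rw [mul_comm ((av G U L f x).card : ℝ), mul_div_assoc, div_self hne, mul_one]
    rfl
  refine (ev_mono _ h1).trans ?_
  have hne := Col_nonempty hG p
  have e1 : ev (Col G U L p) (fun f => k ^ 2 * (3 * r ^ 4) +
      k ^ 2 * (3 * r ^ 2) * (if f x = c then (1 : ℝ) else 0) +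
        k ^ 2 * (3 * r ^ 2) * pr G U L x c f) =
      k ^ 2 * (3 * r ^ 4) + k ^ 2 * (3 * r ^ 2) * mg (Col G U L p) x c +
        k ^ 2 * (3 * r ^ 2) * ev (Col G U L p) (pr G U L x c) := by
    rw [ev_add (Col G U L p) (fun f => k ^ 2 * (3 * r ^ 4) +
      k ^ 2 * (3 * r ^ 2) * (if f x = c then (1 : ℝ) else 0))
      (fun f => k ^ 2 * (3 * r ^ 2) * pr G U L x c f),
      ev_add (Col G U L p) (fun _ => k ^ 2 * (3 * r ^ 4))
      (fun f => k ^ 2 * (3 * r ^ 2) * (if f x = c then (1 : ℝ) else 0)),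
      ev_const hne, ev_mul_left, ev_mul_left]
    rfl
  rw [e1, ← mg_eq hG p hx]
  have h2 := mg_le hG p hx c
  have h3 := mg_nonneg (Col G U L p) x c
  have h4 : k ^ 2 * (3 * r ^ 2) * mg (Col G U L p) x c ≤ k ^ 2 * (3 * r ^ 2) * r :=
    mul_le_mul_of_nonneg_left h2 (by positivity)
  have h5 : k ^ 2 * (3 * r ^ 4) ≤ k ^ 2 * (2 * r ^ 3) := by
    refine mul_le_mul_of_nonneg_left ?_ (sq_nonneg k)
    have : r ^ 4 = r * r ^ 3 := by ring
    rw [this]
    nlinarith [pow_pos hr0 3]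
  have h6 : 8 * k ^ 2 / (s : ℝ) ^ 3 = k ^ 2 * (8 * r ^ 3) := by
    rw [hr]; field_simp
  rw [h6]
  nlinarith [h4, h5]

end ConcSAux

theorem concS_proof (V C : Type) [Fintype V] [Fintype C] : ConcS V C := by
  intro hW4 G U L p s P u c hG hu hP hPo
  have h1 := hPo (fun f => ∑ v ∈ nb G U u, pr G U L v c f)
  refine h1.trans ?_
  have h2 : dir G U L p (fun f => ∑ v ∈ nb G U u, pr G U L v c f) ≤
      ∑ x ∈ U, 8 * (kn G U x u : ℝ) ^ 2 / (s : ℝ) ^ 3 := by
    unfold dir
    exact Finset.sum_le_sum fun x hx => ConcSAux.term_le hG p hx c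
  have h3 : ∑ x ∈ U, 8 * (kn G U x u : ℝ) ^ 2 / (s : ℝ) ^ 3 =
      8 * (w4 G U u : ℝ) / (s : ℝ) ^ 3 := by
    rw [← (hW4 G U).1 u hu, ← Finset.sum_div, ← Finset.mul_sum]
  rw [h3] at h2
  refine (mul_le_mul_of_nonneg_left h2 hP).trans (le_of_eq ?_)
  ring

end Pool.Agent.Eps26
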