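import Pool.Agent.Lib.MP_26a019_lc.Eps.Spec

set_option autoImplicit false

/-!
# The second moment of the difference `P_v h_v - m0`
-/

open Finset Classical

namespace Pool.Agent.Eps26

open Pool.Agent.Kempe Pool.Agent.KempeMix

namespace DelAux

variable {V C : Type} [Fintype V] [Fintype C]

theorem expand (x : V) (F : C → (V → C) → ℝ) (f : V → C) :
    F (f x) f = ∑ a, (if f x = a then (1 : ℝ) else 0) * F a f := by
  rw [Finset.sum_eq_single (f x)]
  · rw [if_pos rfl, one_mul]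
  · intro b _ hb
    rw [if_neg (fun h => hb h.symm), zero_mul]
  · intro h
    exact absurd (Finset.mem_univ _) h

theorem second {G : SimpleGraph V} {U : Finset V} {L : V → Finset C} {p : V → C} {s : ℕ}
    (hYB : YB V C) {x v : V} (h : V → C → ℝ) (hG : Good G U L s) (hx : x ∈ U) (hv : v ∈ U) :
    ev (Col G U L p) (fun f => yX G U L {x} v (f x) f * (h v (f x)) ^ 2) ≤
      2 * (Fintype.card C : ℝ) / s * hn (Col G U L p) h v := by
  have hs : (0 : ℝ) < s := by have := hG.1; exact_mod_cast (by omega : 0 < s)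
  have e1 : ev (Col G U L p) (fun f => yX G U L {x} v (f x) f * (h v (f x)) ^ 2) =
      ∑ a, ev (Col G U L p) (fun f => (if f x = a then (1 : ℝ) else 0) *
        (yX G U L {x} v a f * (h v a) ^ 2)) := by
    rw [← ev_sum]
    exact ev_congr _ fun f _ => expand x (fun a f => yX G U L {x} v a f * (h v a) ^ 2) f
  rw [e1]
  unfold hn
  rw [Finset.mul_sum]
  refine Finset.sum_le_sum fun a _ => ?_
  have hi : Ind x (fun f => yX G U L {x} v a f * (h v a) ^ 2) := by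
    intro f c
    have := ind_yX G U L {x} v a (Finset.mem_singleton_self x) f c
    simp only [this]
  rw [ev_color_mul hG p hx a hi]
  have e2 : ev (Col G U L p) (fun f => pr G U L x a f * (yX G U L {x} v a f * (h v a) ^ 2)) ≤
      ev (Col G U L p) (fun f => (1 / (s : ℝ) * (h v a) ^ 2) * yX G U L {x} v a f) := by
    refine ev_mono _ fun f _ => ?_
    have h1 := pr_le hG hx a f
    have h2 := yX_nonneg G U L {x} v a f
    have h3 : 0 ≤ yX G U L {x} v a f * (h v a) ^ 2 := mul_nonneg h2 (sq_nonneg _)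
    calc pr G U L x a f * (yX G U L {x} v a f * (h v a) ^ 2)
        ≤ 1 / (s : ℝ) * (yX G U L {x} v a f * (h v a) ^ 2) := mul_le_mul_of_nonneg_right h1 h3
      _ = (1 / (s : ℝ) * (h v a) ^ 2) * yX G U L {x} v a f := by ring
  refine e2.trans ?_
  rw [ev_mul_left]
  have h4 := (hYB G U L p s v a hG hv).1 x hx
  calc 1 / (s : ℝ) * (h v a) ^ 2 * ev (Col G U L p) (yX G U L {x} v a)
      ≤ 1 / (s : ℝ) * (h v a) ^ 2 * (2 * (Fintype.card C : ℝ) * mg (Col G U L p) v a) :=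
        mul_le_mul_of_nonneg_left h4 (by positivity)
    _ = 2 * (Fintype.card C : ℝ) / s * (mg (Col G U L p) v a * (h v a) ^ 2) := by ring

theorem pointwise {Y m t w s : ℝ} (hY0 : 0 ≤ Y) (hY1 : Y ≤ 1) (hs : 0 < s) (hw : s ≤ w) :
    (Y * (m - t) / w) ^ 2 ≤ 2 / s ^ 2 * m ^ 2 + 2 / s ^ 2 * (Y * t ^ 2) := by
  have hw0 : 0 < w := lt_of_lt_of_le hs hw
  have h1 : (Y * (m - t) / w) ^ 2 = (Y * (m - t)) ^ 2 / w ^ 2 := by rw [div_pow]
  have h2 : (Y * (m - t)) ^ 2 ≤ 2 * m ^ 2 + 2 * (Y * t ^ 2) := by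
    have hYY : Y ^ 2 ≤ Y := by nlinarith
    have h3 : (Y * (m - t)) ^ 2 = Y ^ 2 * (m - t) ^ 2 := by ring
    have h4 : Y ^ 2 * (m - t) ^ 2 ≤ Y * (m - t) ^ 2 := mul_le_mul_of_nonneg_right hYY (sq_nonneg _)
    have h5 : (m - t) ^ 2 ≤ 2 * m ^ 2 + 2 * t ^ 2 := by nlinarith [sq_nonneg (m + t)]
    have h6 : Y * (m - t) ^ 2 ≤ Y * (2 * m ^ 2 + 2 * t ^ 2) := mul_le_mul_of_nonneg_left h5 hY0
    have h7 : Y * m ^ 2 ≤ 1 * m ^ 2 := mul_le_mul_of_nonneg_right hY1 (sq_nonneg _)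
    rw [h3]
    linarith
  have h8 : 0 ≤ 2 * m ^ 2 + 2 * (Y * t ^ 2) := by positivity
  rw [h1]
  calc (Y * (m - t)) ^ 2 / w ^ 2 ≤ (2 * m ^ 2 + 2 * (Y * t ^ 2)) / w ^ 2 :=
        div_le_div_of_nonneg_right h2 (by positivity)
    _ ≤ (2 * m ^ 2 + 2 * (Y * t ^ 2)) / s ^ 2 := by gcongr
    _ = 2 / s ^ 2 * m ^ 2 + 2 / s ^ 2 * (Y * t ^ 2) := by ring

end DelAux

open DelAux

theorem del_proof (V C : Type) [Fintype V] [Fintype C] : Del V C := by
  intro hYB hM G U L p s x v h hG hx hv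
  have hvU : v ∈ U := nb_subset G U x hv
  have hxv : x ∈ nb G U v := mem_nb_comm hx hv
  have hs : (0 : ℝ) < s := by have := hG.1; exact_mod_cast (by omega : 0 < s)
  have h1 : ev (Col G U L p) (fun f => (de G U L h x v f) ^ 2) ≤
      ev (Col G U L p) (fun f => 2 / (s : ℝ) ^ 2 * (m0 G U L h x v f) ^ 2 +
        2 / (s : ℝ) ^ 2 * (yX G U L {x} v (f x) f * (h v (f x)) ^ 2)) := by
    refine ev_mono _ fun f _ => ?_
    unfold de
    refine pointwise (yX_nonneg _ _ _ _ _ _ _) (yX_le_one _ _ _ _ _ _ _) hs ?_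
    have := card_avX_nb hG hvU hxv f
    have h2 : ((s + 1 : ℕ) : ℝ) ≤ ((avX G U L {x} f v).card : ℝ) := by exact_mod_cast this
    push_cast at h2
    linarith
  rw [ev_add, ev_mul_left, ev_mul_left] at h1
  have h2 := hM hYB G U L p s x v h hG hx hv
  have h3 := second (p := p) hYB h hG hx hvU
  have h4 : 0 ≤ 2 / (s : ℝ) ^ 2 := by positivity
  have h5 := mul_le_mul_of_nonneg_left h2 h4
  have h6 := mul_le_mul_of_nonneg_left h3 h4
  have h7 : 8 * (Fintype.card C : ℝ) / (s : ℝ) ^ 3 * hn (Col G U L p) h v =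
      2 / (s : ℝ) ^ 2 * (2 * (Fintype.card C : ℝ) / s * hn (Col G U L p) h v) +
      2 / (s : ℝ) ^ 2 * (2 * (Fintype.card C : ℝ) / s * hn (Col G U L p) h v) := by
    field_simp
    ring
  rw [h7]
  linarith

end Pool.Agent.Eps26
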