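import Pool.Agent.Lib.MP_26a019_lc.Eps.Spec

set_option autoImplicit false

/-!
# The linearised heat bath is a contraction
-/

open Finset Classical

namespace Pool.Agent.Eps26

open Pool.Agent.Kempe Pool.Agent.KempeMix

namespace FormAux

theorem term_le {a b x y : ℝ} (ha : 0 ≤ a) (hb : 0 ≤ b) :
    |a * b * x * y| ≤ √(a * b) * (a * x ^ 2) / 2 + √(a * b) * (b * y ^ 2) / 2 := by
  have h1 : a * b * x * y = √(a * b) * ((√a * x) * (√b * y)) := by
    have h2 : √(a * b) = √a * √b := Real.sqrt_mul ha b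
    rw [h2]
    have h3 : √a * √a = a := Real.mul_self_sqrt ha
    have h4 : √b * √b = b := Real.mul_self_sqrt hb
    calc a * b * x * y = (√a * √a) * (√b * √b) * x * y := by rw [h3, h4]
      _ = _ := by ring
  rw [h1, abs_mul, abs_of_nonneg (Real.sqrt_nonneg _)]
  have h5 : |(√a * x) * (√b * y)| ≤ (a * x ^ 2 + b * y ^ 2) / 2 := by
    have h6 : (√a * x) ^ 2 = a * x ^ 2 := by rw [mul_pow, Real.sq_sqrt ha]
    have h7 : (√b * y) ^ 2 = b * y ^ 2 := by rw [mul_pow, Real.sq_sqrt hb]
    rw [← h6, ← h7, abs_le]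
    constructor
    · nlinarith [sq_nonneg (√a * x + √b * y)]
    · nlinarith [sq_nonneg (√a * x - √b * y)]
  have h8 := mul_le_mul_of_nonneg_left h5 (Real.sqrt_nonneg (a * b))
  calc _ ≤ √(a * b) * ((a * x ^ 2 + b * y ^ 2) / 2) := h8
    _ = _ := by ring

theorem mg_nonneg {V C : Type} [Fintype V] [Fintype C] (A : Finset (V → C)) (v : V) (c : C) :
    0 ≤ mg A v c := by
  unfold mg
  refine ev_nonneg A fun f _ => ?_
  split_ifs <;> norm_num

end FormAux

open FormAux in
/-- The linearised heat bath is a contraction. -/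
theorem form_proof (V C : Type) [Fintype V] [Fintype C] : Form V C := by
  intro G U A k θ hθ hH
  have hp := fun v c => mg_nonneg A v c
  -- the sum of the square roots
  have hroot : ∀ v ∈ U, ∀ c, ∑ u ∈ nb G U v, √(mg A u c * mg A v c) ≤ θ := by
    intro v hv c
    have h1 := sq_sum_le_card_mul_sum_sq (s := nb G U v)
      (f := fun u => √(mg A u c * mg A v c))
    have h2 : ∑ u ∈ nb G U v, √(mg A u c * mg A v c) ^ 2 = mg A v c * sm G U A v c := by
      unfold sm
      rw [mul_sum]
      refine sum_congr rfl fun u _ => ?_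
      rw [Real.sq_sqrt (mul_nonneg (hp u c) (hp v c)), mul_comm]
    rw [h2] at h1
    have h3 : (∑ u ∈ nb G U v, √(mg A u c * mg A v c)) ^ 2 ≤ θ ^ 2 := by
      calc _ ≤ ((nb G U v).card : ℝ) * (mg A v c * sm G U A v c) := h1
        _ = mg A v c * ((nb G U v).card : ℝ) * sm G U A v c := by ring
        _ ≤ θ ^ 2 := hH v hv c
    exact (le_abs_self _).trans (abs_le_of_sq_le_sq h3 hθ)
  have hsym : ∑ v ∈ U, ∑ u ∈ nb G U v, ∑ c,
        √(mg A u c * mg A v c) * (mg A u c * (k u c) ^ 2) / 2 =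
      ∑ v ∈ U, ∑ u ∈ nb G U v, ∑ c,
        √(mg A u c * mg A v c) * (mg A v c * (k v c) ^ 2) / 2 := by
    rw [sum_nb_comm G U (fun v u => ∑ c, √(mg A u c * mg A v c) * (mg A u c * (k u c) ^ 2) / 2)]
    refine sum_congr rfl fun v _ => sum_congr rfl fun u _ => sum_congr rfl fun c _ => ?_
    rw [mul_comm (mg A v c) (mg A u c)]
  calc |TT G U A k| ≤ ∑ v ∈ U, ∑ u ∈ nb G U v, ∑ c,
        |mg A u c * mg A v c * k u c * k v c| := by
        unfold TT
        refine (abs_sum_le_sum_abs _ _).trans (sum_le_sum fun v _ => ?_)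
        refine (abs_sum_le_sum_abs _ _).trans (sum_le_sum fun u _ => ?_)
        exact abs_sum_le_sum_abs _ _
    _ ≤ ∑ v ∈ U, ∑ u ∈ nb G U v, ∑ c,
        (√(mg A u c * mg A v c) * (mg A u c * (k u c) ^ 2) / 2 +
          √(mg A u c * mg A v c) * (mg A v c * (k v c) ^ 2) / 2) :=
        sum_le_sum fun v _ => sum_le_sum fun u _ => sum_le_sum fun c _ =>
          term_le (hp u c) (hp v c)
    _ = ∑ v ∈ U, ∑ u ∈ nb G U v, ∑ c,
          √(mg A u c * mg A v c) * (mg A v c * (k v c) ^ 2) := by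
        simp only [sum_add_distrib]
        rw [hsym, ← sum_add_distrib]
        refine sum_congr rfl fun v _ => ?_
        rw [← sum_add_distrib]
        refine sum_congr rfl fun u _ => ?_
        rw [← sum_add_distrib]
        exact sum_congr rfl fun c _ => by ring
    _ = ∑ v ∈ U, ∑ c, (mg A v c * (k v c) ^ 2) * ∑ u ∈ nb G U v, √(mg A u c * mg A v c) := by
        refine sum_congr rfl fun v _ => ?_
        rw [sum_comm]
        refine sum_congr rfl fun c _ => ?_
        rw [mul_sum]
        exact sum_congr rfl fun u _ => by ring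
    _ ≤ ∑ v ∈ U, ∑ c, (mg A v c * (k v c) ^ 2) * θ := by
        refine sum_le_sum fun v hv => sum_le_sum fun c _ => ?_
        exact mul_le_mul_of_nonneg_left (hroot v hv c) (mul_nonneg (hp v c) (sq_nonneg _))
    _ = θ * nrm A U k := by
        unfold nrm
        rw [mul_sum]
        refine sum_congr rfl fun v _ => ?_
        rw [mul_sum]
        exact sum_congr rfl fun c _ => by ring

end Pool.Agent.Eps26
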