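import Pool.Agent.Lib.MP_26a019_lc.Eps.Spec

set_option autoImplicit false

/-!
# Poisson type estimate by the generating function
-/

open Finset Classical

namespace Pool.Agent.Eps26

open Pool.Agent.Kempe Pool.Agent.KempeMix

namespace GenAux

variable {V C : Type} [Fintype V] [Fintype C]

/-- number of elements of `S` with colour `c` -/
noncomputable def cn (S : Finset V) (c : C) (f : V → C) : ℕ := (S.filter (fun v => f v = c)).card

theorem ind_cn (S : Finset V) (c : C) (v : V) (hv : v ∉ S) (z : ℝ) :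
    Ind v (fun f => z ^ cn S c f) := by
  intro f a
  have : S.filter (fun w => Function.update f v a w = c) = S.filter (fun w => f w = c) := by
    refine Finset.filter_congr fun w hw => ?_
    have hwv : w ≠ v := fun h => hv (h ▸ hw)
    rw [Function.update_of_ne hwv]
  show z ^ cn S c (Function.update f v a) = z ^ cn S c f
  unfold cn
  rw [this]

/-- the derivative of `z ^ N` -/
theorem deriv_term (S : Finset V) (c : C) (f : V → C) (z : ℝ) :
    (cn S c f : ℝ) * z ^ (cn S c f - 1) =
      ∑ v ∈ S, (if f v = c then (1 : ℝ) else 0) * z ^ cn (S.erase v) c f := by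
  have h1 : ∀ v ∈ S, (if f v = c then (1 : ℝ) else 0) * z ^ cn (S.erase v) c f =
      (if f v = c then (1 : ℝ) else 0) * z ^ (cn S c f - 1) := by
    intro v hv
    split_ifs with h
    · have : cn (S.erase v) c f = cn S c f - 1 := by
        unfold cn
        rw [Finset.filter_erase, Finset.card_erase_of_mem (Finset.mem_filter.2 ⟨hv, h⟩)]
      rw [this]
    · simp
  rw [Finset.sum_congr rfl h1, ← Finset.sum_mul]
  congr 1
  rw [← Finset.sum_filter, Finset.sum_const, nsmul_eq_mul, mul_one]
  rfl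

theorem abs_pow_sub (S : Finset V) (c : C) (f : V → C) (v : V) (hv : v ∈ S) (z : ℝ) (h0 : 0 ≤ z)
    (h1 : z ≤ 1) :
    |z ^ cn (S.erase v) c f - z ^ cn S c f| ≤ if f v = c then (1 : ℝ) else 0 := by
  have hz : ∀ n : ℕ, 0 ≤ z ^ n ∧ z ^ n ≤ 1 := fun n => ⟨pow_nonneg h0 n, pow_le_one₀ h0 h1⟩
  split_ifs with h
  · rw [abs_le]
    have a := hz (cn (S.erase v) c f)
    have b := hz (cn S c f)
    constructor <;> linarith [a.1, a.2, b.1, b.2]
  · have : cn (S.erase v) c f = cn S c f := by
      unfold cn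
      rw [Finset.filter_erase, Finset.erase_eq_of_notMem]
      intro hm
      exact h (Finset.mem_filter.1 hm).2
    rw [this, sub_self, abs_zero]

/-- The differential inequality for the generating function. -/
theorem diff_ineq (G : SimpleGraph V) (U : Finset V) (L : V → Finset C) (p : V → C) (s : ℕ)
    (u : V) (c : C) (hG : Good G U L s) (hu : u ∈ U) (z : ℝ) (h0 : 0 ≤ z) (h1 : z ≤ 1) :
    |ev (Col G U L p) (fun f => (cn (nb G U u) c f : ℝ) * z ^ (cn (nb G U u) c f - 1)) -
        sm G U (Col G U L p) u c * ev (Col G U L p) (fun f => z ^ cn (nb G U u) c f)| ≤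
      √(vr (Col G U L p) (fun f => ∑ v ∈ nb G U u, pr G U L v c f)) +
        (Fintype.card C : ℝ) / (s : ℝ) ^ 2 := by
  set A := Col G U L p with hA
  have hne : A.Nonempty := Col_nonempty hG p
  set S := nb G U u with hS
  have hSU : ∀ v ∈ S, v ∈ U := fun v hv => (mem_nb.1 hv).1
  have hz : ∀ n : ℕ, 0 ≤ z ^ n ∧ z ^ n ≤ 1 := fun n => ⟨pow_nonneg h0 n, pow_le_one₀ h0 h1⟩
  have hs : (0 : ℝ) < s := by
    have := hG.1
    exact_mod_cast (by omega : 0 < s)
  -- first step: the derivative in terms of `pr`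
  have e1 : ev A (fun f => (cn S c f : ℝ) * z ^ (cn S c f - 1)) =
      ∑ v ∈ S, ev A (fun f => pr G U L v c f * z ^ cn (S.erase v) c f) := by
    rw [ev_congr A fun f _ => deriv_term S c f z, ev_sum]
    refine Finset.sum_congr rfl fun v hv => ?_
    exact ev_color_mul hG p (hSU v hv) c (ind_cn (S.erase v) c v (Finset.notMem_erase v S) z)
  have e2 : ev A (fun f => (∑ v ∈ S, pr G U L v c f) * z ^ cn S c f) =
      ∑ v ∈ S, ev A (fun f => pr G U L v c f * z ^ cn S c f) := by
    rw [← ev_sum]
    exact ev_congr A fun f _ => by rw [Finset.sum_mul]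
  have hσ : sm G U A u c = ev A (fun f => ∑ v ∈ S, pr G U L v c f) := by
    rw [ev_sum]
    unfold sm
    exact Finset.sum_congr rfl fun v hv => mg_eq hG p (hSU v hv) c
  -- difference of the two sums
  have d1 : |∑ v ∈ S, ev A (fun f => pr G U L v c f * z ^ cn (S.erase v) c f) -
      ∑ v ∈ S, ev A (fun f => pr G U L v c f * z ^ cn S c f)| ≤
      (Fintype.card C : ℝ) / (s : ℝ) ^ 2 := by
    rw [← Finset.sum_sub_distrib]
    refine (Finset.abs_sum_le_sum_abs _ _).trans ?_
    have hterm : ∀ v ∈ S, |ev A (fun f => pr G U L v c f * z ^ cn (S.erase v) c f) -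
        ev A (fun f => pr G U L v c f * z ^ cn S c f)| ≤ 1 / (s : ℝ) * (1 / (s : ℝ)) := by
      intro v hv
      rw [← ev_sub]
      refine (abs_ev_le A _).trans ?_
      have a1 : ev A (fun f => |pr G U L v c f * z ^ cn (S.erase v) c f -
          pr G U L v c f * z ^ cn S c f|) ≤
          ev A (fun f => (if f v = c then (1 : ℝ) else 0) * pr G U L v c f) := by
        refine ev_mono A fun f _ => ?_
        rw [← mul_sub, abs_mul, abs_of_nonneg (pr_nonneg G U L v c f), mul_comm]
        exact mul_le_mul_of_nonneg_right (abs_pow_sub S c f v hv z h0 h1)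
          (pr_nonneg G U L v c f)
      refine a1.trans ?_
      rw [ev_color_mul hG p (hSU v hv) c (ind_pr G U L v c)]
      have a2 : ev A (fun f => pr G U L v c f * pr G U L v c f) ≤
          ev A (fun f => 1 / (s : ℝ) * pr G U L v c f) :=
        ev_mono A fun f _ => mul_le_mul_of_nonneg_right (pr_le hG (hSU v hv) c f)
          (pr_nonneg G U L v c f)
      refine a2.trans ?_
      rw [ev_mul_left, ← mg_eq hG p (hSU v hv) c]
      exact mul_le_mul_of_nonneg_left (mg_le hG p (hSU v hv) c) (by positivity)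
    refine (Finset.sum_le_sum hterm).trans ?_
    rw [Finset.sum_const, nsmul_eq_mul]
    have hc : ((S.card : ℕ) : ℝ) ≤ (Fintype.card C : ℝ) := by
      have h3 : S.card + s ≤ Fintype.card C := card_nb_le_card hG hu
      exact_mod_cast (by omega : S.card ≤ Fintype.card C)
    calc (S.card : ℝ) * (1 / (s : ℝ) * (1 / (s : ℝ))) = (S.card : ℝ) / (s : ℝ) ^ 2 := by
          field_simp
      _ ≤ (Fintype.card C : ℝ) / (s : ℝ) ^ 2 := div_le_div_of_nonneg_right hc (by positivity)
  -- the covariance
  have d2 : |ev A (fun f => (∑ v ∈ S, pr G U L v c f) * z ^ cn S c f) -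
      ev A (fun f => ∑ v ∈ S, pr G U L v c f) * ev A (fun f => z ^ cn S c f)| ≤
      √(vr A (fun f => ∑ v ∈ S, pr G U L v c f)) := by
    refine (abs_ev_mul_sub_le hne _ _).trans ?_
    have b1 : vr A (fun f => z ^ cn S c f) ≤ 1 := by
      refine (vr_le_sq hne _).trans ?_
      have : ev A (fun f => (z ^ cn S c f) ^ 2) ≤ ev A (fun _ => (1 : ℝ)) :=
        ev_mono A fun f _ => pow_le_one₀ (hz _).1 (hz _).2
      rwa [ev_const hne] at this
    have b2 : √(vr A (fun f => z ^ cn S c f)) ≤ 1 := by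
      rw [Real.sqrt_le_left (by norm_num)]
      simpa using b1
    calc √(vr A (fun f => ∑ v ∈ S, pr G U L v c f)) * √(vr A (fun f => z ^ cn S c f))
        ≤ √(vr A (fun f => ∑ v ∈ S, pr G U L v c f)) * 1 :=
          mul_le_mul_of_nonneg_left b2 (Real.sqrt_nonneg _)
      _ = _ := mul_one _
  rw [e1, hσ]
  have key : ∑ v ∈ S, ev A (fun f => pr G U L v c f * z ^ cn (S.erase v) c f) -
      ev A (fun f => ∑ v ∈ S, pr G U L v c f) * ev A (fun f => z ^ cn S c f) =
      (ev A (fun f => (∑ v ∈ S, pr G U L v c f) * z ^ cn S c f) -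
      ev A (fun f => ∑ v ∈ S, pr G U L v c f) * ev A (fun f => z ^ cn S c f)) +
      (∑ v ∈ S, ev A (fun f => pr G U L v c f * z ^ cn (S.erase v) c f) -
      ∑ v ∈ S, ev A (fun f => pr G U L v c f * z ^ cn S c f)) := by
    rw [e2]; ring
  rw [key]
  exact (abs_add_le _ _).trans (add_le_add d2 d1)

end GenAux

open GenAux in
theorem gen_proof (V C : Type) [Fintype V] [Fintype C] : Gen V C := by
  intro G U L p s u c hG hu
  set A := Col G U L p with hA
  have hne : A.Nonempty := Col_nonempty hG p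
  set S := nb G U u with hS
  set σ := sm G U A u c with hσ
  set e1 := √(vr A (fun f => ∑ v ∈ S, pr G U L v c f)) + (Fintype.card C : ℝ) / (s : ℝ) ^ 2
    with he1
  have he0 : 0 ≤ e1 := by positivity
  have hσ0 : 0 ≤ σ := Finset.sum_nonneg fun v _ => mg_nonneg A v c
  have hd : ∀ z : ℝ, HasDerivAt (fun z : ℝ => ev A (fun f => z ^ cn S c f))
      (ev A (fun f => (cn S c f : ℝ) * z ^ (cn S c f - 1))) z := by
    intro z
    unfold ev
    refine HasDerivAt.div_const ?_ _
    exact HasDerivAt.fun_sum fun f _ => hasDerivAt_pow _ _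
  have hψ : ∀ z : ℝ, HasDerivAt (fun z : ℝ => ev A (fun f => z ^ cn S c f) * Real.exp (-(σ * z)))
      ((ev A (fun f => (cn S c f : ℝ) * z ^ (cn S c f - 1)) -
        σ * ev A (fun f => z ^ cn S c f)) * Real.exp (-(σ * z))) z := by
    intro z
    have h1 : HasDerivAt (fun z : ℝ => Real.exp (-(σ * z))) (Real.exp (-(σ * z)) * (-(σ * 1))) z :=
      ((hasDerivAt_id z).const_mul σ).neg.exp
    have h2 := (hd z).mul h1
    refine h2.congr_deriv ?_
    ring
  have hmv := Convex.norm_image_sub_le_of_norm_hasDerivWithin_le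
    (f := fun z : ℝ => ev A (fun f => z ^ cn S c f) * Real.exp (-(σ * z)))
    (f' := fun z : ℝ => (ev A (fun f => (cn S c f : ℝ) * z ^ (cn S c f - 1)) -
        σ * ev A (fun f => z ^ cn S c f)) * Real.exp (-(σ * z)))
    (s := Set.Icc (0 : ℝ) 1) (C := e1) (x := 0) (y := 1)
    (fun z _ => (hψ z).hasDerivWithinAt)
    (fun z hz => by
      rw [Real.norm_eq_abs, abs_mul, abs_of_pos (Real.exp_pos _)]
      have h3 := diff_ineq G U L p s u c hG hu z hz.1 hz.2
      have h4 : Real.exp (-(σ * z)) ≤ 1 := by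
        rw [Real.exp_le_one_iff]
        have := mul_nonneg hσ0 hz.1
        linarith
      calc |ev A (fun f => (cn S c f : ℝ) * z ^ (cn S c f - 1)) -
          σ * ev A (fun f => z ^ cn S c f)| * Real.exp (-(σ * z))
          ≤ e1 * 1 := mul_le_mul h3 h4 (Real.exp_pos _).le he0
        _ = e1 := mul_one _)
    (convex_Icc 0 1) ⟨le_rfl, zero_le_one⟩ ⟨zero_le_one, le_rfl⟩
  rw [sub_zero, norm_one, mul_one, Real.norm_eq_abs] at hmv
  have h5 : ev A (fun f => (1 : ℝ) ^ cn S c f) = 1 := by
    simp only [one_pow]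
    exact ev_const hne 1
  have h6 : ev A (fun f => (0 : ℝ) ^ cn S c f) = ev A (no G U u c) := by
    refine ev_congr A fun f _ => ?_
    unfold no cn
    rw [zero_pow_eq]
    refine if_congr ?_ rfl rfl
    rw [Finset.card_eq_zero, Finset.filter_eq_empty_iff]
  simp only [h5, h6, mul_one, mul_zero, neg_zero, Real.exp_zero, one_mul] at hmv
  rw [abs_sub_comm]
  exact hmv

end Pool.Agent.Eps26
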