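import Pool.Agent.Lib.MP_26a019_lc.Eps.Spec

set_option autoImplicit false

open Finset Classical

namespace Pool.Agent.Eps26

open Pool.Agent.Kempe Pool.Agent.KempeMix

namespace LocAux

variable {V C : Type} [Fintype V] [Fintype C]

theorem hbh_eq (G : SimpleGraph V) (U : Finset V) (L : V → Finset C) (s : ℕ) (x v : V)
    (h : V → C → ℝ) (hG : Good G U L s) (hx : x ∈ U) (hv : v ∈ nb G U x) (f : V → C) :
    hbh G U L h v f = m0 G U L h x v f + de G U L h x v f := by
  have hvU : v ∈ U := (mem_nb.1 hv).1
  have hxv : x ∈ nb G U v := mem_nb_comm hx hv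
  have hcard := card_avX_nb hG hvU hxv f
  have hs := hG.1
  have hW : (2 : ℝ) < ((avX G U L {x} f v).card : ℝ) := by
    exact_mod_cast (by omega : 2 < (avX G U L {x} f v).card)
  unfold hbh m0 de yX m0
  rw [av_eq_erase hxv]
  by_cases ha : f x ∈ avX G U L {x} f v
  · rw [if_pos ha, card_erase_of_mem ha, Nat.cast_sub (by omega), Nat.cast_one]
    have h1 : ∑ c ∈ (avX G U L {x} f v).erase (f x), h v c =
        ∑ c ∈ avX G U L {x} f v, h v c - h v (f x) := by
      rw [← add_sum_erase _ _ ha]
      ring
    rw [h1]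
    have h2 : ((avX G U L {x} f v).card : ℝ) ≠ 0 := by linarith
    have h3 : ((avX G U L {x} f v).card : ℝ) - 1 ≠ 0 := by linarith
    field_simp
    ring
  · rw [if_neg ha, erase_eq_of_notMem ha]
    simp

/-- one summand of `RR` -/
noncomputable def T (G : SimpleGraph V) (U : Finset V) (L : V → Finset C) (p : V → C)
    (h : V → C → ℝ) (v : V) (f : V → C) : ℝ :=
  hbh G U L h v f + ∑ u ∈ nb G U v, mg (Col G U L p) v (f u) * h v (f u)

theorem T_ind (G : SimpleGraph V) (U : Finset V) (L : V → Finset C) (p : V → C) (x v : V)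
    (h : V → C → ℝ) (hv : x ∉ nb G U v) : Ind x (T G U L p h v) := by
  intro f c
  unfold T hbh
  rw [av_update_of_notMem G U L f v hv c]
  congr 1
  apply sum_congr rfl
  intro u hu
  have hux : u ≠ x := fun h => hv (h ▸ hu)
  rw [Function.update_of_ne hux]

theorem T_eq (G : SimpleGraph V) (U : Finset V) (L : V → Finset C) (p : V → C) (s : ℕ) (x v : V)
    (h : V → C → ℝ) (hG : Good G U L s) (hx : x ∈ U) (hv : v ∈ nb G U x) (f : V → C) :
    T G U L p h v f - (h v (f x) * xi G U L p x v (f x) f + ta G U L h x v f) =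
      m0 G U L h x v f + ∑ u ∈ (nb G U v).erase x, mg (Col G U L p) v (f u) * h v (f u) := by
  have hxv : x ∈ nb G U v := mem_nb_comm hx hv
  unfold T
  rw [hbh_eq G U L s x v h hG hx hv f, ← add_sum_erase (nb G U v) _ hxv]
  unfold de xi ta
  ring

theorem S_ind (G : SimpleGraph V) (U : Finset V) (L : V → Finset C) (p : V → C) (x v : V)
    (h : V → C → ℝ) : Ind x (fun f => m0 G U L h x v f +
      ∑ u ∈ (nb G U v).erase x, mg (Col G U L p) v (f u) * h v (f u)) := by
  intro f c
  show m0 G U L h x v (Function.update f x c) +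
      ∑ u ∈ (nb G U v).erase x, mg (Col G U L p) v (Function.update f x c u) *
        h v (Function.update f x c u) = _
  unfold m0
  rw [avX_update_of_mem G U L f v (mem_singleton_self x) c]
  congr 1
  apply sum_congr rfl
  intro u hu
  rw [Function.update_of_ne (ne_of_mem_erase hu)]

end LocAux

open LocAux in
theorem loc_proof (V C : Type) [Fintype V] [Fintype C] : Loc V C := by
  intro G U L p s x h hG hx
  refine ⟨?_, fun v hv f => hbh_eq G U L s x v h hG hx hv f⟩
  have key : ∀ f : V → C, RR G U L p h f -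
      (Ph G U L p h x (f x) f + ∑ v ∈ nb G U x, ta G U L h x v f) =
      ∑ v ∈ U, if v ∈ nb G U x then m0 G U L h x v f +
        ∑ u ∈ (nb G U v).erase x, mg (Col G U L p) v (f u) * h v (f u)
      else T G U L p h v f := by
    intro f
    have h1 : RR G U L p h f = ∑ v ∈ U, T G U L p h v f := rfl
    have h2 : Ph G U L p h x (f x) f + ∑ v ∈ nb G U x, ta G U L h x v f =
        ∑ v ∈ U, if v ∈ nb G U x then
          (h v (f x) * xi G U L p x v (f x) f + ta G U L h x v f) else 0 := by
      unfold Ph
      rw [← sum_add_distrib, ← sum_filter]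
      congr 1
      ext v
      simp only [mem_filter, mem_nb]
      tauto
    rw [h1, h2, ← sum_sub_distrib]
    apply sum_congr rfl
    intro v hv
    by_cases hvx : v ∈ nb G U x
    · rw [if_pos hvx, if_pos hvx, T_eq G U L p s x v h hG hx hvx f]
    · rw [if_neg hvx, if_neg hvx, sub_zero]
  intro f c
  show RR G U L p h (Function.update f x c) -
      (Ph G U L p h x (Function.update f x c x) (Function.update f x c) +
        ∑ v ∈ nb G U x, ta G U L h x v (Function.update f x c)) =
    RR G U L p h f - (Ph G U L p h x (f x) f + ∑ v ∈ nb G U x, ta G U L h x v f)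
  rw [key, key]
  apply sum_congr rfl
  intro v hv
  by_cases hvx : v ∈ nb G U x
  · rw [if_pos hvx, if_pos hvx]
    exact S_ind G U L p x v h f c
  · rw [if_neg hvx, if_neg hvx]
    exact T_ind G U L p x v h (fun hc => hvx (mem_nb_comm hv hc)) f c

end Pool.Agent.Eps26
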