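import Pool.Agent.Lib.MP_26a019_lc.Eps.Spec

set_option autoImplicit false
set_option linter.unusedSectionVars false

open Finset Classical

namespace Pool.Agent.Eps26

open Pool.Agent.Kempe Pool.Agent.KempeMix

namespace M0aAux

variable {V C : Type} [Fintype V] [Fintype C]

theorem m0_sq_le {G : SimpleGraph V} {U : Finset V} {L : V → Finset C} {s : ℕ}
    (hG : Good G U L s) {x v : V} (hv : v ∈ U) (h : V → C → ℝ) (f : V → C) :
    (m0 G U L h x v f) ^ 2 ≤ 1 / (s : ℝ) * ∑ c, yX G U L {x} v c f * (h v c) ^ 2 := by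
  have hs : (0 : ℝ) < s := by
    have := hG.1
    exact_mod_cast (by omega : 0 < s)
  have hW : (s : ℝ) ≤ ((avX G U L {x} f v).card : ℝ) := by
    exact_mod_cast card_avX hG hv {x} f
  have hWp : (0 : ℝ) < ((avX G U L {x} f v).card : ℝ) := lt_of_lt_of_le hs hW
  have h1 : ∑ c, yX G U L {x} v c f * (h v c) ^ 2 = ∑ c ∈ avX G U L {x} f v, (h v c) ^ 2 := by
    unfold yX
    simp only [ite_mul, one_mul, zero_mul]
    rw [← Finset.sum_filter, Finset.filter_mem_eq_inter, Finset.univ_inter]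
  have h2 := sq_sum_le_card_mul_sum_sq (s := avX G U L {x} f v) (f := fun c => h v c)
  have h3 : 0 ≤ ∑ c ∈ avX G U L {x} f v, (h v c) ^ 2 := Finset.sum_nonneg fun c _ => sq_nonneg _
  rw [h1]
  unfold m0
  rw [div_pow]
  calc (∑ c ∈ avX G U L {x} f v, h v c) ^ 2 / ((avX G U L {x} f v).card : ℝ) ^ 2
      ≤ (((avX G U L {x} f v).card : ℝ) * ∑ c ∈ avX G U L {x} f v, (h v c) ^ 2) /
          ((avX G U L {x} f v).card : ℝ) ^ 2 := div_le_div_of_nonneg_right h2 (sq_nonneg _)
    _ = 1 / ((avX G U L {x} f v).card : ℝ) * ∑ c ∈ avX G U L {x} f v, (h v c) ^ 2 := by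
        field_simp
    _ ≤ 1 / (s : ℝ) * ∑ c ∈ avX G U L {x} f v, (h v c) ^ 2 :=
        mul_le_mul_of_nonneg_right (one_div_le_one_div_of_le hs hW) h3

end M0aAux

open M0aAux in
theorem m0a_proof (V C : Type) [Fintype V] [Fintype C] : M0a V C := by
  intro hYB G U L p s x v h hG hx hvx
  have hv : v ∈ U := nb_subset G U x hvx
  have hs : (0 : ℝ) < s := by
    have := hG.1
    exact_mod_cast (by omega : 0 < s)
  calc ev (Col G U L p) (fun f => (m0 G U L h x v f) ^ 2)
      ≤ ev (Col G U L p) (fun f => 1 / (s : ℝ) * ∑ c, yX G U L {x} v c f * (h v c) ^ 2) :=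
        ev_mono _ fun f _ => m0_sq_le hG hv h f
    _ = 1 / (s : ℝ) * ∑ c, ev (Col G U L p) (yX G U L {x} v c) * (h v c) ^ 2 := by
        rw [ev_mul_left, ev_sum]
        congr 1
        refine Finset.sum_congr rfl fun c _ => ?_
        rw [ev_mul_right]
    _ ≤ 1 / (s : ℝ) * ∑ c, 2 * (Fintype.card C : ℝ) * mg (Col G U L p) v c * (h v c) ^ 2 := by
        refine mul_le_mul_of_nonneg_left ?_ (by positivity)
        refine Finset.sum_le_sum fun c _ => ?_
        exact mul_le_mul_of_nonneg_right ((hYB G U L p s v c hG hv).1 x hx) (sq_nonneg _)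
    _ = 2 * (Fintype.card C : ℝ) / s * hn (Col G U L p) h v := by
        unfold hn
        rw [Finset.mul_sum, Finset.mul_sum]
        refine Finset.sum_congr rfl fun c _ => ?_
        ring

end Pool.Agent.Eps26
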