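import Pool.Agent.Lib.MP_26a019_lc.Eps.Spec

set_option autoImplicit false
set_option linter.unusedVariables false

open Finset Classical

namespace Pool.Agent.Eps26

open Pool.Agent.Kempe Pool.Agent.KempeMix

namespace M0bAux

variable {V C : Type} [Fintype V] [Fintype C]

theorem ind_m0 (G : SimpleGraph V) (U : Finset V) (L : V → Finset C) (h : V → C → ℝ) (x v : V) :
    Ind x (m0 G U L h x v) := by
  intro f c
  unfold m0
  rw [avX_update_of_mem G U L f v (Finset.mem_singleton_self x) c]

theorem ind_hbh_notMem (G : SimpleGraph V) (U : Finset V) (L : V → Finset C) (h : V → C → ℝ)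
    {x v : V} (hx : x ∉ nb G U v) : Ind x (hbh G U L h v) := by
  intro f c
  unfold hbh
  rw [av_update_of_notMem G U L f v hx c]

theorem hn_nonneg (A : Finset (V → C)) (h : V → C → ℝ) (v : V) : 0 ≤ hn A h v :=
  Finset.sum_nonneg fun c _ => mul_nonneg (mg_nonneg A v c) (sq_nonneg _)

end M0bAux

open M0bAux in
theorem m0b_proof (V C : Type) [Fintype V] [Fintype C] : M0b V C := by
  intro hYB hM0a hDel hLoc G U L p s P v h hG hv hP hPoin hcen
  set A := Col G U L p with hAdef
  have hA : A.Nonempty := Col_nonempty hG p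
  have hmean : ev A (hbh G U L h v) = 0 := by
    have e1 : ev A (hb G U L v (fun f => h v (f v))) = ev A (fun f => h v (f v)) :=
      ev_hb hG p hv _
    have e2 : ev A (fun f => h v (f v)) = ∑ c, mg A v c * h v c := ev_single A v (h v)
    have e3 : ev A (hb G U L v (fun f => h v (f v))) = ev A (hbh G U L h v) :=
      ev_congr _ fun f _ => hb_single G U L h v f
    rw [← e3, e1, e2, hcen]
  have hvr : vr A (hbh G U L h v) = ev A (fun f => (hbh G U L h v f) ^ 2) := by
    rw [vr_eq hA, hmean]; ring
  set B : ℝ := 8 * (Fintype.card C : ℝ) / (s : ℝ) ^ 3 * hn A h v with hB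
  have hB0 : 0 ≤ B := mul_nonneg (by positivity) (hn_nonneg A h v)
  have hterm : ∀ x ∈ U, ev A (fun f => (hbh G U L h v f - hb G U L x (hbh G U L h v) f) ^ 2)
      ≤ if x ∈ nb G U v then B else 0 := by
    intro x hx
    split_ifs with hxv
    · have hvx : v ∈ nb G U x := mem_nb_comm hv hxv
      have h1 := ev_sub_hb_sq_le hG p hx (ind_m0 G U L h x v) (hbh G U L h v)
      refine h1.trans ?_
      have h2 : ev A (fun f => (hbh G U L h v f - m0 G U L h x v f) ^ 2)
          = ev A (fun f => (de G U L h x v f) ^ 2) := ev_congr _ fun f _ => by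
        rw [(hLoc G U L p s x h hG hx).2 v hvx f]; ring
      rw [← hAdef, h2]
      exact hDel hYB hM0a G U L p s x v h hG hx hvx
    · have h0 : ev A (fun f => (hbh G U L h v f - hb G U L x (hbh G U L h v) f) ^ 2)
          = ev A (fun _ => (0 : ℝ)) := ev_congr _ fun f _ => by
        rw [hb_ind hG hx (ind_hbh_notMem G U L h hxv)]; ring
      rw [h0, ev_const hA]
  have hdir : dir G U L p (hbh G U L h v) ≤ (Fintype.card C : ℝ) * B := by
    unfold dir
    calc ∑ x ∈ U, ev (Col G U L p)
          (fun f => (hbh G U L h v f - hb G U L x (hbh G U L h v) f) ^ 2)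
        ≤ ∑ x ∈ U, if x ∈ nb G U v then B else 0 := Finset.sum_le_sum hterm
      _ = ((U.filter (fun x => x ∈ nb G U v)).card : ℝ) * B := by
          rw [← Finset.sum_filter, Finset.sum_const, nsmul_eq_mul]
      _ ≤ (Fintype.card C : ℝ) * B := by
          refine mul_le_mul_of_nonneg_right ?_ hB0
          have h1 : (U.filter (fun x => x ∈ nb G U v)).card ≤ (nb G U v).card :=
            Finset.card_le_card fun x hx => (Finset.mem_filter.1 hx).2
          have h2 := card_nb_le_card hG hv
          exact_mod_cast (by omega : (U.filter (fun x => x ∈ nb G U v)).card ≤ Fintype.card C)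
  calc ev A (fun f => (hbh G U L h v f) ^ 2) = vr A (hbh G U L h v) := hvr.symm
    _ ≤ P * dir G U L p (hbh G U L h v) := hPoin _
    _ ≤ P * ((Fintype.card C : ℝ) * B) := mul_le_mul_of_nonneg_left hdir hP
    _ = 8 * P * (Fintype.card C : ℝ) ^ 2 / (s : ℝ) ^ 3 * hn A h v := by
        rw [hB]; ring

end Pool.Agent.Eps26
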