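import Pool.Agent.Lib.MP_26a019_lc.Eps.Spec

set_option autoImplicit false

/-!
# MP_26a019_lc, module M0c: the second moment of `m0`
-/

open Finset Classical

namespace Pool.Agent.Eps26

open Pool.Agent.Kempe Pool.Agent.KempeMix

namespace M0cAux

variable {V C : Type} [Fintype V] [Fintype C]

theorem mg_nonneg (A : Finset (V → C)) (v : V) (c : C) : 0 ≤ mg A v c := by
  unfold mg
  refine ev_nonneg A fun f _ => ?_
  split_ifs <;> norm_num

theorem hn_nonneg (A : Finset (V → C)) (h : V → C → ℝ) (v : V) : 0 ≤ hn A h v := by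
  unfold hn
  exact Finset.sum_nonneg fun c _ => mul_nonneg (mg_nonneg A v c) (sq_nonneg _)

end M0cAux

open M0cAux in
theorem m0c_proof (V C : Type) [Fintype V] [Fintype C] : M0c V C := by
  intro hYB hM0a hDel hLoc hM0b G U L p s P x v h hG hx hv hP hPoin hmean
  have hvU : v ∈ U := nb_subset G U x hv
  have hxv : x ∈ nb G U v := mem_nb_comm hx hv
  have h1 := hM0b hYB hM0a hDel hLoc G U L p s P v h hG hvU (by linarith) hPoin hmean
  have h2 := hDel hYB hM0a G U L p s x v h hG hx hv
  have hloc := (hLoc G U L p s x h hG hx).2 v hv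
  have hsq : ev (Col G U L p) (fun f => (m0 G U L h x v f) ^ 2) ≤
      2 * ev (Col G U L p) (fun f => (hbh G U L h v f) ^ 2) +
      2 * ev (Col G U L p) (fun f => (de G U L h x v f) ^ 2) := by
    rw [← ev_mul_left, ← ev_mul_left, ← ev_add]
    refine ev_mono _ fun f _ => ?_
    have e1 := hloc f
    have e2 : m0 G U L h x v f = hbh G U L h v f - de G U L h x v f := by linarith
    rw [e2]
    nlinarith [sq_nonneg (hbh G U L h v f + de G U L h x v f)]
  have hs2 : (2 : ℕ) ≤ s := hG.1
  have hs : (0 : ℝ) < (s : ℝ) ^ 3 := by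
    have : (0 : ℝ) < s := by exact_mod_cast (by omega : 0 < s)
    positivity
  have hq1 : (1 : ℝ) ≤ (Fintype.card C : ℝ) := by
    have := card_nb_le_card hG hvU
    exact_mod_cast (by omega : 1 ≤ Fintype.card C)
  have hhn := hn_nonneg (Col G U L p) h v
  generalize (Fintype.card C : ℝ) = q at *
  generalize (s : ℝ) ^ 3 = t at *
  have hqq : q ≤ P * q ^ 2 := by nlinarith
  have h3 : 8 * q / t * hn (Col G U L p) h v ≤ 8 * P * q ^ 2 / t * hn (Col G U L p) h v := by
    refine mul_le_mul_of_nonneg_right ?_ hhn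
    refine div_le_div_of_nonneg_right ?_ hs.le
    linarith
  have h4 : 32 * P * q ^ 2 / t * hn (Col G U L p) h v =
      2 * (8 * P * q ^ 2 / t * hn (Col G U L p) h v) +
      2 * (8 * P * q ^ 2 / t * hn (Col G U L p) h v) := by ring
  rw [h4]
  linarith

end Pool.Agent.Eps26
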