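import Pool.Agent.Lib.MP_26a019_lc.Eps.Spec

set_option autoImplicit false
set_option linter.unusedSectionVars false
set_option linter.unusedVariables false

/-!
# The norm of the family `kk A g` in terms of variances
-/

open Finset Classical

namespace Pool.Agent.Eps26

open Pool.Agent.Kempe Pool.Agent.KempeMix

namespace NrmVrAux

variable {V C : Type} [Fintype V] [Fintype C]

theorem ev_H (A : Finset (V → C)) (g : (V → C) → ℝ) (v : V) :
    ev A (fun f => ev (A.filter (fun f' => f' v = f v)) g) = ev A g := by
  have h1 := ev_single A v (fun c => ev (A.filter (fun f' => f' v = c)) g)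
  have h2 : ∑ c, mg A v c * ev (A.filter (fun f' => f' v = c)) g = ev A g := by
    have h3 : ∀ c ∈ (Finset.univ : Finset C), mg A v c * ev (A.filter (fun f' => f' v = c)) g =
        ev A (fun f => (if f v = c then (1 : ℝ) else 0) * g f) := fun c _ => mg_mul_ev A g v c
    rw [Finset.sum_congr rfl h3, ← ev_sum]
    refine ev_congr A fun f _ => ?_
    rw [← Finset.sum_mul, Finset.sum_ite_eq]
    simp
  exact h1.trans h2

end NrmVrAux

open NrmVrAux in
theorem nrmVr_proof (V C : Type) [Fintype V] [Fintype C] : NrmVr V C := by
  intro A U g hA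
  unfold nrm
  refine Finset.sum_congr rfl fun v _ => ?_
  unfold vr
  rw [ev_H A g v]
  exact (ev_single A v (fun c => (ev (A.filter (fun f' => f' v = c)) g - ev A g) ^ 2)).symm

end Pool.Agent.Eps26
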