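import Pool.Agent.Lib.MP_26a019_lc.Eps.Spec

/-!
MP_26a019_lc, module Eps/Num1: a real inequality.
-/

set_option autoImplicit false

open Finset Classical

namespace Pool.Agent.Eps26

open Pool.Agent.Kempe Pool.Agent.KempeMix

namespace Num1Aux

/-- `s ^ (m + k) ≤ s ^ m * (q / 2) ^ k` -/
theorem pow_split {q s : ℝ} (hs : 0 < s) (hq : 2 * s ≤ q) (m k : ℕ) :
    s ^ (m + k) * 2 ^ k ≤ s ^ m * q ^ k := by
  have h1 : (2 * s) ^ k ≤ q ^ k := pow_le_pow_left₀ (by positivity) hq k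
  rw [mul_pow] at h1
  calc s ^ (m + k) * 2 ^ k = s ^ m * (2 ^ k * s ^ k) := by rw [pow_add]; ring
    _ ≤ s ^ m * q ^ k := mul_le_mul_of_nonneg_left h1 (by positivity)

end Num1Aux

open Num1Aux in
theorem num1_proof : Num1 := by
  intro q s Q0 hs2 hqs hQ0 hmain
  have hs : 0 < s := by linarith
  have hq : 0 < q := by linarith
  -- the three estimates
  have a1 : 896 * 10 ^ 4 * (q ^ 9 * Q0) ≤ s ^ 12 := by
    have h1 := pow_split hs hqs 12 5
    have h2 : 40000000 * (Q0 * q ^ 14) ≤ s ^ 17 := by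
      have : 0 ≤ q ^ 2 * q ^ 14 := by positivity
      nlinarith
    have h3 : 40000000 * 32 * (q ^ 9 * Q0) * q ^ 5 ≤ s ^ 12 * q ^ 5 := by
      calc 40000000 * 32 * (q ^ 9 * Q0) * q ^ 5 = 32 * (40000000 * (Q0 * q ^ 14)) := by ring
        _ ≤ 32 * s ^ 17 := by linarith
        _ = s ^ (12 + 5) * 2 ^ 5 := by norm_num; ring
        _ ≤ _ := h1
    have h4 := le_of_mul_le_mul_right h3 (by positivity : (0 : ℝ) < q ^ 5)
    have h5 : 0 ≤ q ^ 9 * Q0 := by positivity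
    linarith
  have hY : 40000000 * q ^ 16 ≤ s ^ 17 := by
    have h1 : 0 ≤ Q0 * q ^ 14 := by positivity
    have h2 : (Q0 + q ^ 2) * q ^ 14 = Q0 * q ^ 14 + q ^ 16 := by ring
    have h3 : 40000000 * ((Q0 + q ^ 2) * q ^ 14) ≤ s ^ 17 := by linarith
    rw [h2] at h3
    linarith
  have a2 : 100 * q ^ 3 ≤ s ^ 4 := by
    have h1 := pow_split hs hqs 4 13
    have h3 : 40000000 * 2 ^ 13 * q ^ 3 * q ^ 13 ≤ s ^ 4 * q ^ 13 := by
      calc 40000000 * 2 ^ 13 * q ^ 3 * q ^ 13 = 2 ^ 13 * (40000000 * q ^ 16) := by ring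
        _ ≤ 2 ^ 13 * s ^ 17 := by linarith
        _ = s ^ (4 + 13) * 2 ^ 13 := by norm_num; ring
        _ ≤ _ := h1
    have h4 := le_of_mul_le_mul_right h3 (by positivity : (0 : ℝ) < q ^ 13)
    have h5 : 0 ≤ q ^ 3 := by positivity
    linarith
  have a3 : 112 * 10 ^ 4 * q ^ 10 ≤ s ^ 11 := by
    have h1 := pow_split hs hqs 11 6
    have h3 : 40000000 * 2 ^ 6 * q ^ 10 * q ^ 6 ≤ s ^ 11 * q ^ 6 := by
      calc 40000000 * 2 ^ 6 * q ^ 10 * q ^ 6 = 2 ^ 6 * (40000000 * q ^ 16) := by ring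
        _ ≤ 2 ^ 6 * s ^ 17 := by linarith
        _ = s ^ (11 + 6) * 2 ^ 6 := by norm_num; ring
        _ ≤ _ := h1
    have h4 := le_of_mul_le_mul_right h3 (by positivity : (0 : ℝ) < q ^ 6)
    have h5 : 0 ≤ q ^ 10 := by positivity
    linarith
  have e1 : √(8 * (112 * (q / s) ^ 5) * Q0 / s ^ 3) ≤ (s / q) ^ 2 / 100 := by
    rw [Real.sqrt_le_iff]
    refine ⟨by positivity, ?_⟩
    have h1 : 8 * (112 * (q / s) ^ 5) * Q0 / s ^ 3 = (896 * (q ^ 9 * Q0)) / (s ^ 8 * q ^ 4) := by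
      field_simp
      ring
    have h2 : ((s / q) ^ 2 / 100) ^ 2 = (s ^ 12 / 10 ^ 4) / (s ^ 8 * q ^ 4) := by
      field_simp
      norm_num
    rw [h1, h2]
    apply div_le_div_of_nonneg_right _ (by positivity)
    rw [le_div_iff₀ (by norm_num)]
    linarith
  have e2 : q / s ^ 2 ≤ (s / q) ^ 2 / 100 := by
    have h1 : q / s ^ 2 = q ^ 3 / (s ^ 2 * q ^ 2) := by
      field_simp
    have h2 : (s / q) ^ 2 / 100 = (s ^ 4 / 100) / (s ^ 2 * q ^ 2) := by
      field_simp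
    rw [h1, h2]
    apply div_le_div_of_nonneg_right _ (by positivity)
    linarith
  have e3 : √(112 * (q / s) ^ 5 * q) / s ≤ (s / q) ^ 2 / 100 := by
    rw [div_le_iff₀ hs, Real.sqrt_le_iff]
    refine ⟨by positivity, ?_⟩
    have h1 : 112 * (q / s) ^ 5 * q = (112 * q ^ 10) / (s ^ 5 * q ^ 4) := by
      field_simp
    have h2 : ((s / q) ^ 2 / 100 * s) ^ 2 = (s ^ 11 / 10 ^ 4) / (s ^ 5 * q ^ 4) := by
      field_simp
      norm_num
    rw [h1, h2]
    apply div_le_div_of_nonneg_right _ (by positivity)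
    rw [le_div_iff₀ (by norm_num)]
    linarith
  have hx : s / q ≤ 1 / 2 := by
    rw [div_le_div_iff₀ hq (by norm_num)]
    linarith
  have hx0 : 0 < s / q := by positivity
  have hρ : 0 < q / s := by positivity
  have hρx : q / s * (s / q) = 1 := by field_simp
  calc _ ≤ ((s / q) ^ 2 / 100 + (s / q) ^ 2 / 100) +
      q / s * (((s / q) ^ 2 / 100 + (s / q) ^ 2 / 100) + (s / q) ^ 2 / 100) := by
        have := mul_le_mul_of_nonneg_left (add_le_add (add_le_add e1 e2) e3) hρ.le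
        linarith
    _ = (s / q) ^ 2 / 50 + 3 / 100 * (q / s * (s / q)) * (s / q) := by ring
    _ = (s / q) ^ 2 / 50 + 3 / 100 * (s / q) := by rw [hρx, mul_one]
    _ ≤ (s / q) / 6 := by nlinarith
    _ = s / (6 * q) := by field_simp

end Pool.Agent.Eps26
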