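import Pool.Agent.Lib.MP_26a019_lc.Eps.Spec

set_option autoImplicit false

/-!
# A real inequality
-/

open Finset Classical

namespace Pool.Agent.Eps26

open Pool.Agent.Kempe Pool.Agent.KempeMix

theorem num2_proof : Num2 := by
  intro q s Q0 hs hq hQ h
  have hs0 : 0 < s := by linarith
  have hq0 : 0 < q := by linarith
  have e : 8 * (q / s) ^ 2 * ((112 * (q / s) ^ 5) ^ 2 * (24 * q * Q0 / s ^ 4 + 80 * q ^ 4 / s ^ 5))
      = 100352 * (24 * q ^ 13 * Q0 * s + 80 * q ^ 16) / s ^ 17 := by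
    field_simp
    ring
  rw [e, div_le_div_iff₀ (by positivity) (by norm_num)]
  have h1 : q ^ 13 * Q0 * s ≤ q ^ 14 * Q0 / 2 := by
    have h2 : 0 ≤ q ^ 13 * Q0 := by positivity
    have h3 : q ^ 13 * Q0 * s ≤ q ^ 13 * Q0 * (q / 2) :=
      mul_le_mul_of_nonneg_left (by linarith) h2
    calc q ^ 13 * Q0 * s ≤ q ^ 13 * Q0 * (q / 2) := h3
      _ = q ^ 14 * Q0 / 2 := by ring
  have h4 : 40000000 * (Q0 + q ^ 2) * q ^ 14 = 40000000 * (q ^ 14 * Q0) + 40000000 * q ^ 16 := by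
    ring
  rw [h4] at h
  have h5 : 0 ≤ q ^ 14 * Q0 := by positivity
  have h6 : 0 ≤ q ^ 16 := by positivity
  nlinarith

end Pool.Agent.Eps26
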