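import Pool.Agent.Lib.MP_26a019_lc.Eps.Spec

set_option autoImplicit false

open Finset Classical

namespace Pool.Agent.Eps26

open Pool.Agent.Kempe Pool.Agent.KempeMix

theorem rBound_proof (V C : Type) [Fintype V] [Fintype C] : RBound V C := by
  intro hLoc G U L p s P Q0 h hG hP hQ0 hPoin h1 h2
  have hs2 : (2 : ℝ) ≤ (s : ℝ) := by exact_mod_cast hG.1
  have hs0 : (0 : ℝ) < (s : ℝ) := by linarith
  have hq0 : (0 : ℝ) ≤ (Fintype.card C : ℝ) := Nat.cast_nonneg _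
  set q : ℝ := (Fintype.card C : ℝ) with hq
  have hN : 0 ≤ nrm (Col G U L p) U h := by
    unfold nrm
    exact Finset.sum_nonneg fun v _ => Finset.sum_nonneg fun c _ =>
      mul_nonneg (mg_nonneg _ _ _) (sq_nonneg _)
  set N := nrm (Col G U L p) U h with hNdef
  have hx : ∀ x ∈ U, ev (Col G U L p)
      (fun f => (RR G U L p h f - hb G U L x (RR G U L p h) f) ^ 2) ≤
      2 * ev (Col G U L p) (fun f => (Ph G U L p h x (f x) f) ^ 2) +
      2 * ev (Col G U L p) (fun f => (∑ v ∈ nb G U x, ta G U L h x v f) ^ 2) := by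
    intro x hx
    have hI := (hLoc G U L p s x h hG hx).1
    refine (ev_sub_hb_sq_le hG p hx hI (RR G U L p h)).trans ?_
    rw [← ev_mul_left, ← ev_mul_left, ← ev_add]
    refine ev_mono _ fun f _ => ?_
    have e : RR G U L p h f - (RR G U L p h f -
        (Ph G U L p h x (f x) f + ∑ v ∈ nb G U x, ta G U L h x v f)) =
        Ph G U L p h x (f x) f + ∑ v ∈ nb G U x, ta G U L h x v f := by ring
    rw [e]
    nlinarith [sq_nonneg (Ph G U L p h x (f x) f - ∑ v ∈ nb G U x, ta G U L h x v f)]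
  have hdir : dir G U L p (RR G U L p h) ≤
      2 * ((16 * q ^ 4 / (s : ℝ) ^ 6 + 12 * P * q * Q0 / (s : ℝ) ^ 4) * N) +
      2 * (32 * P * q ^ 2 / (s : ℝ) ^ 3 * q ^ 2 / (s : ℝ) ^ 2 * N) := by
    unfold dir
    refine (Finset.sum_le_sum hx).trans ?_
    rw [Finset.sum_add_distrib, ← Finset.mul_sum, ← Finset.mul_sum]
    linarith
  have hfin := hPoin (RR G U L p h)
  refine hfin.trans ?_
  have h3 : P * dir G U L p (RR G U L p h) ≤ P *
      (2 * ((16 * q ^ 4 / (s : ℝ) ^ 6 + 12 * P * q * Q0 / (s : ℝ) ^ 4) * N) +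
      2 * (32 * P * q ^ 2 / (s : ℝ) ^ 3 * q ^ 2 / (s : ℝ) ^ 2 * N)) :=
    mul_le_mul_of_nonneg_left hdir (by linarith)
  refine h3.trans ?_
  obtain ⟨X, hX⟩ : ∃ X : ℝ, X = q ^ 4 / (s : ℝ) ^ 5 := ⟨_, rfl⟩
  obtain ⟨B, hB⟩ : ∃ B : ℝ, B = q * Q0 / (s : ℝ) ^ 4 := ⟨_, rfl⟩
  have hX0 : 0 ≤ X := by rw [hX]; positivity
  have hB0 : 0 ≤ B := by rw [hB]; positivity
  have e1 : 16 * q ^ 4 / (s : ℝ) ^ 6 ≤ 8 * X := by
    have h4 : 16 * q ^ 4 / (s : ℝ) ^ 6 = 16 * X / s := by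
      rw [hX]
      field_simp
    rw [h4, div_le_iff₀ hs0]
    nlinarith
  have e2 : 12 * P * q * Q0 / (s : ℝ) ^ 4 = 12 * P * B := by
    rw [hB]
    ring
  have e3 : 32 * P * q ^ 2 / (s : ℝ) ^ 3 * q ^ 2 / (s : ℝ) ^ 2 = 32 * P * X := by
    rw [hX]
    field_simp
  have e4 : 24 * q * Q0 / (s : ℝ) ^ 4 + 80 * q ^ 4 / (s : ℝ) ^ 5 = 24 * B + 80 * X := by
    rw [hB, hX]
    ring
  rw [e2, e3, e4]
  have e5 : (16 * q ^ 4 / (s : ℝ) ^ 6 + 12 * P * B) * N ≤ (8 * X + 12 * P * B) * N :=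
    mul_le_mul_of_nonneg_right (by linarith) hN
  have hXN : 0 ≤ X * N := mul_nonneg hX0 hN
  have hPX : P * (X * N) ≤ P * (P * (X * N)) := by
    apply mul_le_mul_of_nonneg_left _ (by linarith)
    nlinarith
  have e6 : P * (2 * ((16 * q ^ 4 / (s : ℝ) ^ 6 + 12 * P * B) * N) + 2 * (32 * P * X * N)) ≤
      P * (2 * ((8 * X + 12 * P * B) * N) + 2 * (32 * P * X * N)) :=
    mul_le_mul_of_nonneg_left (by linarith) (by linarith)
  refine e6.trans ?_
  nlinarith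

end Pool.Agent.Eps26
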