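import Pool.Agent.Lib.MP_26a019_lc.Eps.Spec

set_option autoImplicit false

open Finset Classical

namespace Pool.Agent.Eps26

open Pool.Agent.Kempe Pool.Agent.KempeMix

theorem rec_proof (V : Type) [Fintype V] : Rec V := by
  intro U a b K1 K2 hK1 hK1' hK2 hb h0 h
  have hK : 0 ≤ K2 / (1 - K1) := div_nonneg hK2 (by linarith)
  have hKK : K2 = K2 / (1 - K1) * (1 - K1) := by
    rw [div_mul_cancel₀]
    linarith
  suffices H : ∀ (n : ℕ) (T : Finset V), T ⊆ U → T.card = n →
      a T ≤ K2 / (1 - K1) * ∑ v ∈ T, b v from H _ U (Finset.Subset.refl U) rfl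
  intro n
  induction n with
  | zero =>
    intro T _ hT
    rw [Finset.card_eq_zero] at hT
    subst hT
    simpa using h0
  | succ n ih =>
    intro T hTU hT
    set K := K2 / (1 - K1) with hKdef
    have h1 := h T hTU
    have h2 : ∀ v ∈ T, a (T.erase v) ≤ K * (∑ u ∈ T, b u - b v) := by
      intro v hv
      have h3 := ih (T.erase v) ((Finset.erase_subset v T).trans hTU)
        (by rw [Finset.card_erase_of_mem hv, hT]; rfl)
      rw [← Finset.sum_erase_eq_sub hv]
      exact h3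
    have h3 : ∑ v ∈ T, a (T.erase v) ≤ ∑ v ∈ T, K * (∑ u ∈ T, b u - b v) :=
      Finset.sum_le_sum h2
    have h4 : ∑ v ∈ T, K * (∑ u ∈ T, b u - b v) = K * ((n : ℝ) * ∑ u ∈ T, b u) := by
      rw [← Finset.mul_sum, Finset.sum_sub_distrib, Finset.sum_const, hT, nsmul_eq_mul]
      push_cast
      ring
    rw [Finset.sum_sub_distrib, Finset.sum_const, hT, nsmul_eq_mul] at h1
    push_cast at h1
    have hn : (0 : ℝ) ≤ n := Nat.cast_nonneg n
    have h5 : ((n : ℝ) + 1 - K1) * a T ≤ ((n : ℝ) + 1 - K1) * (K * ∑ u ∈ T, b u) := by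
      have h6 : K2 * ∑ v ∈ T, b v = K * (1 - K1) * ∑ v ∈ T, b v := by rw [← hKK]
      rw [h4] at h3
      rw [h6] at h1
      nlinarith
    exact le_of_mul_le_mul_left h5 (by linarith)

end Pool.Agent.Eps26
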