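import Pool.Agent.Lib.MP_26a019_lc.Eps.Spec
import Pool.Agent.Lib.MP_26a019_lc.Mix.MTower

set_option autoImplicit false

/-!
# From the smoothing inequality for all pinned instances to the Poincaré inequality
-/

open Finset Classical

namespace Pool.Agent.Eps26

open Pool.Agent.Kempe Pool.Agent.KempeMix

theorem recP_proof (V C : Type) [Fintype V] [Fintype C] : RecP V C := by
  intro hRec hBridge hNV G U L p s K1 K2 hG hK1 hK1' hK2 hst g
  have hstep : ∀ T, T ⊆ U →
      ∑ v ∈ T, (aa (Col G U L p) g Tᶜ - aa (Col G U L p) g (T.erase v)ᶜ) ≤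
        K1 * aa (Col G U L p) g Tᶜ +
          K2 * ∑ v ∈ T, ∑ f ∈ Col G U L p, (g f - hb G U L v g f) ^ 2 := by
    intro T hT
    have e1 : ∑ v ∈ T, (aa (Col G U L p) g Tᶜ - aa (Col G U L p) g (T.erase v)ᶜ) =
        ∑ f ∈ Col G U L p, nrm (cls (Col G U L p) Tᶜ f) T (kk (cls (Col G U L p) Tᶜ f) g) := by
      have h1 : ∀ v ∈ T, aa (Col G U L p) g Tᶜ - aa (Col G U L p) g (T.erase v)ᶜ =
          ∑ f ∈ Col G U L p, vr (cls (Col G U L p) Tᶜ f)
            (fun f' => ev ((cls (Col G U L p) Tᶜ f).filter (fun f'' => f'' v = f' v)) g) := by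
        intro v hv
        have hc : (T.erase v)ᶜ = insert v Tᶜ := by
          ext x
          simp only [Finset.mem_compl, Finset.mem_erase, Finset.mem_insert]
          tauto
        rw [hc, aa_insert (Col G U L p) g Tᶜ v, cE_insert_sq]
        ring
      rw [Finset.sum_congr rfl h1, Finset.sum_comm]
      refine Finset.sum_congr rfl fun f hf => ?_
      rw [hNV _ _ _ ⟨f, cls_mem_self (Col G U L p) _ f hf⟩]
    rw [e1]
    calc ∑ f ∈ Col G U L p, nrm (cls (Col G U L p) Tᶜ f) T (kk (cls (Col G U L p) Tᶜ f) g)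
        ≤ ∑ f ∈ Col G U L p, (K1 * vr (cls (Col G U L p) Tᶜ f) g +
            K2 * ∑ v ∈ T, ev (cls (Col G U L p) Tᶜ f)
              (fun f' => (g f' - hb G U L v g f') ^ 2)) := by
          refine Finset.sum_le_sum fun f hf => ?_
          obtain ⟨b1, b2, b3, b4⟩ := hBridge G U L p s T f hG hT hf
          have h := hst T hT f hf g
          have hd : dir G T (fun v => avX G U L T f v) f g =
              ∑ v ∈ T, ev (cls (Col G U L p) Tᶜ f)
                (fun f' => (g f' - hb G U L v g f') ^ 2) := by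
            unfold dir
            rw [← b1]
            refine Finset.sum_congr rfl fun v hv => ?_
            refine MTower.ev_congr _ _ _ fun f' hf' => ?_
            rw [b4 g v hv f' hf']
          rw [hd, ← b1] at h
          exact h
      _ = K1 * aa (Col G U L p) g Tᶜ +
          K2 * ∑ v ∈ T, ∑ f ∈ Col G U L p, (g f - hb G U L v g f) ^ 2 := by
          rw [Finset.sum_add_distrib, ← Finset.mul_sum, ← Finset.mul_sum, ← aa_eq,
            Finset.sum_comm]
          congr 2
          exact Finset.sum_congr rfl fun v hv => tower (Col G U L p) Tᶜ _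
  have h0 : aa (Col G U L p) g (∅ : Finset V)ᶜ ≤ 0 := by
    refine le_of_eq ?_
    unfold aa
    refine Finset.sum_eq_zero fun f hf => ?_
    have hc : cls (Col G U L p) (∅ : Finset V)ᶜ f = {f} := by
      ext x
      rw [MTower.mem_cls, Finset.mem_singleton]
      constructor
      · rintro ⟨-, h⟩
        funext u
        exact h u (by simp)
      · rintro rfl
        exact ⟨hf, fun _ _ => rfl⟩
    unfold cE
    rw [hc]
    unfold ev
    simp
  have hU : aa (Col G U L p) g Uᶜ =
      ∑ f ∈ Col G U L p, (g f - ev (Col G U L p) g) ^ 2 := by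
    unfold aa
    refine Finset.sum_congr rfl fun f hf => ?_
    have hc : cls (Col G U L p) Uᶜ f = Col G U L p := by
      ext x
      rw [MTower.mem_cls]
      constructor
      · rintro ⟨h, -⟩
        exact h
      · intro h
        refine ⟨h, fun u hu => ?_⟩
        have hu' : u ∉ U := by simpa using hu
        unfold Col at h hf
        rw [Finset.mem_filter] at h hf
        rw [h.2.1 u hu', hf.2.1 u hu']
    unfold cE
    rw [hc]
  have hfin := hRec U (fun T => aa (Col G U L p) g Tᶜ)
    (fun v => ∑ f ∈ Col G U L p, (g f - hb G U L v g f) ^ 2) K1 K2 hK1 hK1' hK2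
    (fun v => Finset.sum_nonneg fun f _ => sq_nonneg _) h0 hstep
  beta_reduce at hfin
  rw [hU] at hfin
  have hd : dir G U L p g =
      (∑ v ∈ U, ∑ f ∈ Col G U L p, (g f - hb G U L v g f) ^ 2) / ((Col G U L p).card : ℝ) := by
    unfold dir ev
    rw [Finset.sum_div]
  have hv : vr (Col G U L p) g =
      (∑ f ∈ Col G U L p, (g f - ev (Col G U L p) g) ^ 2) / ((Col G U L p).card : ℝ) := rfl
  rw [hd, hv, ← mul_div_assoc]
  exact div_le_div_of_nonneg_right hfin (Nat.cast_nonneg _)

end Pool.Agent.Eps26
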