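import Pool.Agent.Lib.MP_26a019_lc.Eps.Spec

set_option autoImplicit false
set_option linter.unusedVariables false

open Finset Classical

namespace Pool.Agent.Eps26

open Pool.Agent.Kempe Pool.Agent.KempeMix

namespace StarAux

variable {V C : Type} [Fintype V] [Fintype C]

theorem hn_eq (A : Finset (V → C)) (h : V → C → ℝ) (v : V) :
    hn A h v = ev A (fun f => (h v (f v)) ^ 2) := by
  rw [ev_single A v (fun c => (h v c) ^ 2)]
  rfl

theorem hn_nonneg (A : Finset (V → C)) (h : V → C → ℝ) (v : V) : 0 ≤ hn A h v := by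
  rw [hn_eq]
  exact ev_nonneg A fun f _ => sq_nonneg _

/-- part (1) for one vertex -/
theorem part1 {G : SimpleGraph V} {U : Finset V} {L : V → Finset C} {s : ℕ}
    (hG : Good G U L s) (p : V → C) {v : V} (hv : v ∈ U) (g : (V → C) → ℝ) (k : V → C → ℝ) :
    ev (Col G U L p) (fun f => g f * k v (f v)) ≤
      √(ev (Col G U L p) (fun f => (g f - hb G U L v g f) ^ 2)) * √(hn (Col G U L p) k v) +
        ev (Col G U L p) (fun f => g f * hbh G U L k v f) := by
  have h1 : ev (Col G U L p) (fun f => g f * hbh G U L k v f) =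
      ev (Col G U L p) (fun f => hb G U L v g f * k v (f v)) := by
    have := ev_mul_hb (G := G) (L := L) p hv g (fun f => k v (f v))
    rw [← this]
    exact ev_congr _ fun f _ => by rw [hb_single]
  have h2 : ev (Col G U L p) (fun f => hb G U L v g f * hbh G U L k v f) =
      ev (Col G U L p) (fun f => hb G U L v g f * k v (f v)) := by
    have := ev_mul_hb (G := G) (L := L) p hv (hb G U L v g) (fun f => k v (f v))
    refine Eq.trans (ev_congr _ fun f _ => ?_) (this.trans (ev_congr _ fun f _ => ?_))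
    · rw [hb_single]
    · rw [hb_ind hG hv (ind_hb G U L v g)]
  have h3 : ev (Col G U L p) (fun f => g f * k v (f v)) =
      ev (Col G U L p) (fun f => (g f - hb G U L v g f) * (k v (f v) - hbh G U L k v f)) +
        ev (Col G U L p) (fun f => g f * hbh G U L k v f) := by
    have e : ev (Col G U L p)
        (fun f => (g f - hb G U L v g f) * (k v (f v) - hbh G U L k v f)) =
        ev (Col G U L p) (fun f => (g f * k v (f v) - g f * hbh G U L k v f) -
          (hb G U L v g f * k v (f v) - hb G U L v g f * hbh G U L k v f)) :=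
      ev_congr _ fun f _ => by ring
    rw [e, ev_sub, ev_sub, ev_sub, h2]
    ring
  rw [h3]
  refine add_le_add ?_ le_rfl
  refine (le_abs_self _).trans ((abs_ev_mul_le _ _ _).trans ?_)
  refine mul_le_mul_of_nonneg_left ?_ (Real.sqrt_nonneg _)
  refine Real.sqrt_le_sqrt ?_
  rw [hn_eq]
  have := ev_hb_sq_le hG p hv (fun f => k v (f v))
  refine le_trans (le_of_eq (ev_congr _ fun f _ => ?_)) this
  rw [hb_single]

/-- `N = ∑_v E[g k_v(f v)]` -/
theorem nrm_eq {A : Finset (V → C)} (hA : A.Nonempty) (U : Finset V) (g : (V → C) → ℝ) :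
    nrm A U (kk A g) = ∑ v ∈ U, ev A (fun f => g f * kk A g v (f v)) := by
  unfold nrm
  refine Finset.sum_congr rfl fun v hv => ?_
  have h1 := ev_mul_single A g v (kk A g v)
  have h2 := cen_kk hA U g v hv
  rw [h2, mul_zero, sub_zero] at h1
  rw [h1]
  exact Finset.sum_congr rfl fun c _ => by ring

theorem ev_hbh_zero {G : SimpleGraph V} {U : Finset V} {L : V → Finset C} {s : ℕ}
    (hG : Good G U L s) (p : V → C) {v : V} (hv : v ∈ U) (k : V → C → ℝ)
    (hk : ∑ c, mg (Col G U L p) v c * k v c = 0) :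
    ev (Col G U L p) (hbh G U L k v) = 0 := by
  have h1 := ev_hb hG p hv (fun f => k v (f v))
  have h2 : ev (Col G U L p) (hbh G U L k v) =
      ev (Col G U L p) (hb G U L v (fun f => k v (f v))) :=
    ev_congr _ fun f _ => by rw [hb_single]
  rw [h2, h1, ev_single _ v (k v), hk]

/-- the linearisation -/
theorem part23 {G : SimpleGraph V} {U : Finset V} {L : V → Finset C} {s : ℕ}
    (hG : Good G U L s) (p : V → C) (g : (V → C) → ℝ) :
    ∑ v ∈ U, ev (Col G U L p) (fun f => g f * hbh G U L (kk (Col G U L p) g) v f) =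
      (ev (Col G U L p) (fun f => g f * RR G U L p (kk (Col G U L p) g) f) -
        ev (Col G U L p) g * ev (Col G U L p) (RR G U L p (kk (Col G U L p) g))) -
      TT G U (Col G U L p) (kk (Col G U L p) g) := by
  have hA := Col_nonempty hG p
  set A := Col G U L p with hAdef
  set k := kk A g with hk
  have e1 : ev A (fun f => g f * RR G U L p k f) =
      ∑ v ∈ U, (ev A (fun f => g f * hbh G U L k v f) +
        ∑ u ∈ nb G U v, ev A (fun f => g f * (mg A v (f u) * k v (f u)))) := by
    have : ev A (fun f => g f * RR G U L p k f) =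
        ev A (fun f => ∑ v ∈ U, (g f * hbh G U L k v f +
          ∑ u ∈ nb G U v, g f * (mg A v (f u) * k v (f u)))) := by
      refine ev_congr _ fun f _ => ?_
      unfold RR
      rw [Finset.mul_sum]
      refine Finset.sum_congr rfl fun v _ => ?_
      rw [mul_add, Finset.mul_sum]
    rw [this, ev_sum A U (fun v f => g f * hbh G U L k v f +
          ∑ u ∈ nb G U v, g f * (mg A v (f u) * k v (f u)))]
    refine Finset.sum_congr rfl fun v _ => ?_
    rw [ev_add, ev_sum A (nb G U v) (fun u f => g f * (mg A v (f u) * k v (f u)))]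
  have e2 : ev A (RR G U L p k) =
      ∑ v ∈ U, ∑ u ∈ nb G U v, ev A (fun f => mg A v (f u) * k v (f u)) := by
    have : ev A (RR G U L p k) =
        ev A (fun f => ∑ v ∈ U, (hbh G U L k v f +
          ∑ u ∈ nb G U v, (mg A v (f u) * k v (f u)))) := rfl
    rw [this, ev_sum A U (fun v f => hbh G U L k v f +
          ∑ u ∈ nb G U v, (mg A v (f u) * k v (f u)))]
    refine Finset.sum_congr rfl fun v hv => ?_
    rw [ev_add, ev_sum A (nb G U v) (fun u f => (mg A v (f u) * k v (f u)))]
    have := ev_hbh_zero hG p hv k (cen_kk hA U g v hv)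
    have h0 : ev A (fun f => hbh G U L k v f) = 0 := this
    rw [h0, zero_add]
  have e3 : ∀ v u, ev A (fun f => g f * (mg A v (f u) * k v (f u))) =
      ev A g * ev A (fun f => mg A v (f u) * k v (f u)) +
        ∑ c, mg A u c * mg A v c * k u c * k v c := by
    intro v u
    have h1 := ev_mul_single A g u (fun c => mg A v c * k v c)
    have h2 := ev_single A u (fun c => mg A v c * k v c)
    rw [← h2] at h1
    have h3 : ∑ c, mg A u c * mg A v c * k u c * k v c =
        ∑ c, mg A u c * kk A g u c * (mg A v c * k v c) :=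
      Finset.sum_congr rfl fun c _ => by rw [hk]; ring
    rw [h3, ← h1]
    ring
  rw [e1, e2]
  unfold TT
  simp only [e3]
  rw [Finset.sum_add_distrib]
  simp only [Finset.sum_add_distrib]
  rw [Finset.mul_sum]
  simp only [Finset.mul_sum]
  ring

theorem real_part (N D W η θ t : ℝ) (hN : 0 ≤ N) (hD : 0 ≤ D) (hW : 0 ≤ W) (hη : 0 ≤ η)
    (ht : 0 < t) (hθ : θ ≤ 1 - t)
    (h : N ≤ √D * √N + √W * (η * √N) + θ * N) :
    t ^ 2 * N ≤ 2 * D + 2 * (η ^ 2 * W) := by
  rcases hN.eq_or_lt with h0 | h0
  · rw [← h0]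
    have := mul_nonneg (sq_nonneg η) hW
    nlinarith
  · have hn : 0 < √N := Real.sqrt_pos.2 h0
    have hNN : N = √N * √N := (Real.mul_self_sqrt hN).symm
    have hDD : D = √D * √D := (Real.mul_self_sqrt hD).symm
    have hWW : W = √W * √W := (Real.mul_self_sqrt hW).symm
    have h1 : t * √N ≤ √D + η * √W := by
      have h2 : (t * √N) * √N ≤ (√D + η * √W) * √N := by
        have h3 : θ * N ≤ (1 - t) * N := mul_le_mul_of_nonneg_right hθ hN
        nlinarith
      exact le_of_mul_le_mul_right h2 hn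
    have h4 : 0 ≤ t * √N := by positivity
    have h5 : (t * √N) ^ 2 ≤ (√D + η * √W) ^ 2 := pow_le_pow_left₀ h4 h1 2
    have h6 : (t * √N) ^ 2 = t ^ 2 * N := by
      rw [mul_pow, Real.sq_sqrt hN]
    have h7 : (√D + η * √W) ^ 2 ≤ 2 * (√D) ^ 2 + 2 * (η * √W) ^ 2 := by
      nlinarith [sq_nonneg (√D - η * √W)]
    rw [mul_pow, Real.sq_sqrt hD, Real.sq_sqrt hW] at h7
    linarith

end StarAux

open StarAux in
theorem star_proof (V C : Type) [Fintype V] [Fintype C] : Star V C := by
  intro G U L p s η θ g hG hq hη hθ hTT hRR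
  have hA := Col_nonempty hG p
  have hs0 : (0 : ℝ) < s := by
    have := hG.1
    exact_mod_cast (by omega : 0 < s)
  have hq0 : (0 : ℝ) < (Fintype.card C : ℝ) := by exact_mod_cast hq
  set A := Col G U L p with hAdef
  set k := kk A g with hk
  have hN0 : 0 ≤ nrm A U k :=
    Finset.sum_nonneg fun v _ => hn_nonneg A k v
  have hD0 : 0 ≤ dir G U L p g :=
    Finset.sum_nonneg fun v _ => ev_nonneg _ fun f _ => sq_nonneg _
  have hS1 : ∑ v ∈ U, √(ev A (fun f => (g f - hb G U L v g f) ^ 2)) * √(hn A k v) ≤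
      √(dir G U L p g) * √(nrm A U k) :=
    Real.sum_sqrt_mul_sqrt_le U (fun v => ev_nonneg _ fun f _ => sq_nonneg _)
      (fun v => hn_nonneg A k v)
  have hmain : nrm A U k ≤ √(dir G U L p g) * √(nrm A U k) +
      √(vr A g) * (η * √(nrm A U k)) + θ * nrm A U k := by
    have e0 := nrm_eq hA U g
    have e1 : ∑ v ∈ U, ev A (fun f => g f * k v (f v)) ≤
        ∑ v ∈ U, (√(ev A (fun f => (g f - hb G U L v g f) ^ 2)) * √(hn A k v) +
          ev A (fun f => g f * hbh G U L k v f)) :=
      Finset.sum_le_sum fun v hv => part1 hG p hv g k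
    rw [Finset.sum_add_distrib] at e1
    have e2 := part23 hG p g
    have e3 := abs_ev_mul_sub_le hA g (RR G U L p k)
    have e4 : √(vr A (RR G U L p k)) ≤ η * √(nrm A U k) := by
      calc √(vr A (RR G U L p k)) ≤ √(η ^ 2 * nrm A U k) := Real.sqrt_le_sqrt hRR
        _ = η * √(nrm A U k) := by
          rw [Real.sqrt_mul (sq_nonneg η), Real.sqrt_sq hη]
    have e5 : √(vr A g) * √(vr A (RR G U L p k)) ≤ √(vr A g) * (η * √(nrm A U k)) :=
      mul_le_mul_of_nonneg_left e4 (Real.sqrt_nonneg _)
    have e6 := le_abs_self (ev A (fun f => g f * RR G U L p k f) - ev A g * ev A (RR G U L p k))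
    have e7 := neg_abs_le (TT G U A k)
    linarith
  have ht : (0 : ℝ) < (s : ℝ) / (2 * (Fintype.card C : ℝ)) := by positivity
  have hfin := real_part _ _ _ η θ _ hN0 hD0 (vr_nonneg A g) hη ht hθ hmain
  have h8 : nrm A U k = (4 * ((Fintype.card C : ℝ) / s) ^ 2) *
      (((s : ℝ) / (2 * (Fintype.card C : ℝ))) ^ 2 * nrm A U k) := by
    field_simp
    ring
  rw [h8]
  have h9 : 0 ≤ 4 * ((Fintype.card C : ℝ) / s) ^ 2 := by positivity
  have h10 := mul_le_mul_of_nonneg_left hfin h9
  linarith

end Pool.Agent.Eps26
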