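import Pool.Agent.Lib.MP_26a019_lc.Eps.Spec

set_option autoImplicit false
set_option linter.unusedSectionVars false

/-!
# Tau: the `ta` part of the remainder
-/

open Finset Classical

namespace Pool.Agent.Eps26

open Pool.Agent.Kempe Pool.Agent.KempeMix

namespace TauAux

variable {V C : Type} [Fintype V] [Fintype C]

theorem hn_nonneg (A : Finset (V → C)) (h : V → C → ℝ) (v : V) : 0 ≤ hn A h v :=
  Finset.sum_nonneg fun c _ => mul_nonneg (mg_nonneg A v c) (sq_nonneg _)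

theorem ta_sq_le {G : SimpleGraph V} {U : Finset V} {L : V → Finset C} {s : ℕ}
    (hG : Good G U L s) (h : V → C → ℝ) {x v : V} (hx : x ∈ U) (hv : v ∈ nb G U x) (f : V → C) :
    (ta G U L h x v f) ^ 2 ≤ (m0 G U L h x v f) ^ 2 / (s : ℝ) ^ 2 := by
  have hvU : v ∈ U := (mem_nb.1 hv).1
  have hxv : x ∈ nb G U v := mem_nb_comm hx hv
  have h1 : ((s : ℝ) + 1) ≤ ((avX G U L {x} f v).card : ℝ) := by
    exact_mod_cast card_avX_nb hG hvU hxv f
  have h2 : (0 : ℝ) < s := by have := hG.1; exact_mod_cast (by omega : 0 < s)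
  have h3 : (s : ℝ) ≤ ((avX G U L {x} f v).card : ℝ) - 1 := by linarith
  have hy0 := yX_nonneg G U L {x} v (f x) f
  have hy1 := yX_le_one G U L {x} v (f x) f
  unfold ta
  rw [div_pow, mul_pow]
  have h4 : (yX G U L {x} v (f x) f) ^ 2 ≤ 1 := by nlinarith
  have h5 : (s : ℝ) ^ 2 ≤ (((avX G U L {x} f v).card : ℝ) - 1) ^ 2 :=
    pow_le_pow_left₀ h2.le h3 2
  have h6 : (yX G U L {x} v (f x) f) ^ 2 * (m0 G U L h x v f) ^ 2 ≤ (m0 G U L h x v f) ^ 2 := by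
    have := mul_le_mul_of_nonneg_right h4 (sq_nonneg (m0 G U L h x v f))
    linarith
  calc (yX G U L {x} v (f x) f) ^ 2 * (m0 G U L h x v f) ^ 2 /
        (((avX G U L {x} f v).card : ℝ) - 1) ^ 2
      ≤ (m0 G U L h x v f) ^ 2 / (((avX G U L {x} f v).card : ℝ) - 1) ^ 2 :=
        div_le_div_of_nonneg_right h6 (sq_nonneg _)
    _ ≤ (m0 G U L h x v f) ^ 2 / (s : ℝ) ^ 2 :=
        div_le_div_of_nonneg_left (sq_nonneg _) (by positivity) h5

end TauAux

open TauAux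

theorem tau_proof (V C : Type) [Fintype V] [Fintype C] : Tau V C := by
  intro G U L p s M h hG hM hyp
  set A := Col G U L p with hA
  set q : ℝ := (Fintype.card C : ℝ) with hq
  have hs : (0 : ℝ) < s := by have := hG.1; exact_mod_cast (by omega : 0 < s)
  have hq0 : 0 ≤ q := Nat.cast_nonneg _
  have hnb : ∀ x ∈ U, ((nb G U x).card : ℝ) ≤ q := by
    intro x hx
    have h0 := card_nb_le_card hG hx
    rw [hq]
    exact_mod_cast (by omega : (nb G U x).card ≤ Fintype.card C)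
  have h1 : ∀ x ∈ U, ev A (fun f => (∑ v ∈ nb G U x, ta G U L h x v f) ^ 2) ≤
      q * M / (s : ℝ) ^ 2 * ∑ v ∈ nb G U x, hn A h v := by
    intro x hx
    have e1 : ∀ f ∈ A, (∑ v ∈ nb G U x, ta G U L h x v f) ^ 2 ≤
        q / (s : ℝ) ^ 2 * ∑ v ∈ nb G U x, (m0 G U L h x v f) ^ 2 := by
      intro f _
      have e2 := sq_sum_le_card_mul_sum_sq (s := nb G U x) (f := fun v => ta G U L h x v f)
      have e3 : ∑ v ∈ nb G U x, (ta G U L h x v f) ^ 2 ≤
          ∑ v ∈ nb G U x, (m0 G U L h x v f) ^ 2 / (s : ℝ) ^ 2 :=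
        Finset.sum_le_sum fun v hv => ta_sq_le hG h hx hv f
      have e4 : 0 ≤ ∑ v ∈ nb G U x, (m0 G U L h x v f) ^ 2 / (s : ℝ) ^ 2 :=
        Finset.sum_nonneg fun v _ => by positivity
      calc (∑ v ∈ nb G U x, ta G U L h x v f) ^ 2
          ≤ ((nb G U x).card : ℝ) * ∑ v ∈ nb G U x, (ta G U L h x v f) ^ 2 := e2
        _ ≤ ((nb G U x).card : ℝ) * ∑ v ∈ nb G U x, (m0 G U L h x v f) ^ 2 / (s : ℝ) ^ 2 :=
            mul_le_mul_of_nonneg_left e3 (Nat.cast_nonneg _)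
        _ ≤ q * ∑ v ∈ nb G U x, (m0 G U L h x v f) ^ 2 / (s : ℝ) ^ 2 :=
            mul_le_mul_of_nonneg_right (hnb x hx) e4
        _ = q / (s : ℝ) ^ 2 * ∑ v ∈ nb G U x, (m0 G U L h x v f) ^ 2 := by
            rw [← Finset.sum_div]; ring
    refine (ev_mono A e1).trans ?_
    rw [ev_mul_left, ev_sum]
    have e5 : ∑ v ∈ nb G U x, ev A (fun f => (m0 G U L h x v f) ^ 2) ≤
        ∑ v ∈ nb G U x, M * hn A h v := Finset.sum_le_sum fun v hv => hyp x hx v hv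
    rw [← Finset.mul_sum] at e5
    calc q / (s : ℝ) ^ 2 * ∑ v ∈ nb G U x, ev A (fun f => (m0 G U L h x v f) ^ 2)
        ≤ q / (s : ℝ) ^ 2 * (M * ∑ v ∈ nb G U x, hn A h v) :=
          mul_le_mul_of_nonneg_left e5 (by positivity)
      _ = q * M / (s : ℝ) ^ 2 * ∑ v ∈ nb G U x, hn A h v := by ring
  have h2 : ∑ x ∈ U, ∑ v ∈ nb G U x, hn A h v ≤ q * nrm A U h := by
    rw [sum_nb_comm G U (fun _ u => hn A h u)]
    have e1 : nrm A U h = ∑ v ∈ U, hn A h v := rfl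
    rw [e1, Finset.mul_sum]
    refine Finset.sum_le_sum fun v hv => ?_
    rw [Finset.sum_const, nsmul_eq_mul]
    exact mul_le_mul_of_nonneg_right (hnb v hv) (hn_nonneg A h v)
  calc ∑ x ∈ U, ev A (fun f => (∑ v ∈ nb G U x, ta G U L h x v f) ^ 2)
      ≤ ∑ x ∈ U, q * M / (s : ℝ) ^ 2 * ∑ v ∈ nb G U x, hn A h v := Finset.sum_le_sum h1
    _ = q * M / (s : ℝ) ^ 2 * ∑ x ∈ U, ∑ v ∈ nb G U x, hn A h v := by rw [Finset.mul_sum]
    _ ≤ q * M / (s : ℝ) ^ 2 * (q * nrm A U h) :=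
        mul_le_mul_of_nonneg_left h2 (by positivity)
    _ = M * q ^ 2 / (s : ℝ) ^ 2 * nrm A U h := by ring

end Pool.Agent.Eps26
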