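import Pool.Agent.Lib.MP_26a019_lc.Eps.Spec

set_option autoImplicit false

/-!
# MP_26a019_lc, module Eps/TwoSite
-/

open Finset Classical

namespace Pool.Agent.Eps26

open Pool.Agent.Kempe Pool.Agent.KempeMix

namespace TwoSiteAux

variable {C : Type}

theorem var_pairs (D : Finset C) (F : C → ℝ) :
    ∑ a ∈ D, ∑ a' ∈ D, (F a - F a') ^ 2
      = 2 * (D.card : ℝ) * ∑ a ∈ D, (F a - (∑ a' ∈ D, F a') / (D.card : ℝ)) ^ 2 := by
  rcases D.eq_empty_or_nonempty with rfl | hD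
  · simp
  have hn : (D.card : ℝ) ≠ 0 := by
    have := hD.card_pos
    positivity
  set S1 := ∑ a ∈ D, F a with hS1
  set S2 := ∑ a ∈ D, F a ^ 2 with hS2
  have h1 : ∀ a, ∑ a' ∈ D, (F a - F a') ^ 2 = (D.card : ℝ) * F a ^ 2 - 2 * F a * S1 + S2 := by
    intro a
    have h : ∀ a', (F a - F a') ^ 2 = F a ^ 2 - 2 * F a * F a' + F a' ^ 2 := fun a' => by ring
    simp only [h]
    rw [Finset.sum_add_distrib, Finset.sum_sub_distrib, Finset.sum_const, nsmul_eq_mul,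
      ← Finset.mul_sum]
  have h2 : ∑ a ∈ D, (F a - S1 / (D.card : ℝ)) ^ 2 = S2 - S1 ^ 2 / D.card := by
    have h : ∀ a, (F a - S1 / (D.card : ℝ)) ^ 2
        = F a ^ 2 - 2 * (S1 / (D.card : ℝ)) * F a + (S1 / (D.card : ℝ)) ^ 2 := fun a => by ring
    simp only [h]
    rw [Finset.sum_add_distrib, Finset.sum_sub_distrib, Finset.sum_const, nsmul_eq_mul,
      ← Finset.mul_sum]
    rw [← hS1, ← hS2]
    field_simp
    ring
  rw [Finset.sum_congr rfl fun a _ => h1 a, h2, Finset.sum_add_distrib, Finset.sum_sub_distrib,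
    Finset.sum_const, nsmul_eq_mul, ← Finset.mul_sum]
  have h3 : ∑ a ∈ D, 2 * F a * S1 = 2 * S1 * S1 := by
    rw [← Finset.sum_mul, ← Finset.mul_sum]
  rw [h3, ← hS2]
  field_simp
  ring

theorem card_bd (B : Finset C) (a a' : C) (s : ℕ) (hs : 2 ≤ s) (hB : s + 1 ≤ B.card) :
    (s : ℝ) / 2 ≤ (((B.erase a).erase a').card : ℝ) := by
  have h1 : B.card - 1 ≤ (B.erase a).card := Finset.pred_card_le_card_erase
  have h2 : (B.erase a).card - 1 ≤ ((B.erase a).erase a').card := Finset.pred_card_le_card_erase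
  have h3 : s ≤ 2 * ((B.erase a).erase a').card := by omega
  have h4 : (s : ℝ) ≤ 2 * (((B.erase a).erase a').card : ℝ) := by exact_mod_cast h3
  linarith

theorem step2 (B : Finset C) (f : C → ℝ) (a a' : C) (s : ℕ) (hs : 2 ≤ s) (hB : s + 1 ≤ B.card) :
    ((∑ b ∈ B.erase a, f b) / ((B.erase a).card : ℝ) -
      (∑ b ∈ (B.erase a).erase a', f b) / (((B.erase a).erase a').card : ℝ)) ^ 2
    ≤ 4 / (s : ℝ) ^ 2 * (if a' ∈ B.erase a then
        (f a' - (∑ b ∈ B.erase a, f b) / ((B.erase a).card : ℝ)) ^ 2 else 0) := by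
  have hs0 : (0 : ℝ) < s := by
    have : 0 < s := by omega
    exact_mod_cast this
  by_cases h : a' ∈ B.erase a
  · rw [if_pos h]
    have hc := card_bd B a a' s hs hB
    have hsum := Finset.add_sum_erase (B.erase a) f h
    have hcard := Finset.card_erase_add_one h
    set m : ℝ := (((B.erase a).erase a').card : ℝ) with hm
    have hm0 : 0 < m := by
      have : 0 < (s : ℝ) / 2 := by positivity
      linarith
    have hn : ((B.erase a).card : ℝ) = m + 1 := by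
      rw [hm]
      exact_mod_cast hcard.symm
    rw [hn, ← hsum]
    set S0 := ∑ b ∈ (B.erase a).erase a', f b with hS0
    have hm1 : m + 1 ≠ 0 := by positivity
    have e1 : (f a' + S0) / (m + 1) - S0 / m = (f a' - (f a' + S0) / (m + 1)) / m := by
      field_simp
      ring
    rw [e1, div_pow, div_eq_inv_mul]
    refine mul_le_mul_of_nonneg_right ?_ (sq_nonneg _)
    rw [inv_eq_one_div, div_le_div_iff₀ (by positivity) (by positivity)]
    nlinarith
  · rw [if_neg h, Finset.erase_eq_of_notMem h, sub_self]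
    simp

theorem step3 (B : Finset C) (f f' : C → ℝ) (a a' : C) (s : ℕ) (hs : 2 ≤ s)
    (hB : s + 1 ≤ B.card) :
    ((∑ b ∈ (B.erase a).erase a', f b) / (((B.erase a).erase a').card : ℝ) -
      (∑ b ∈ (B.erase a).erase a', f' b) / (((B.erase a).erase a').card : ℝ)) ^ 2
    ≤ 2 / (s : ℝ) * ∑ b ∈ (B.erase a).erase a', (f b - f' b) ^ 2 := by
  have hs0 : (0 : ℝ) < s := by
    have : 0 < s := by omega
    exact_mod_cast this
  have hc := card_bd B a a' s hs hB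
  set m : ℝ := (((B.erase a).erase a').card : ℝ) with hm
  have hm0 : 0 < m := by
    have : 0 < (s : ℝ) / 2 := by positivity
    linarith
  rw [← sub_div, ← Finset.sum_sub_distrib, div_pow]
  have h1 : (∑ b ∈ (B.erase a).erase a', (f b - f' b)) ^ 2
      ≤ m * ∑ b ∈ (B.erase a).erase a', (f b - f' b) ^ 2 := sq_sum_le_card_mul_sum_sq
  have h2 : 0 ≤ ∑ b ∈ (B.erase a).erase a', (f b - f' b) ^ 2 :=
    Finset.sum_nonneg fun _ _ => sq_nonneg _
  rw [div_le_iff₀ (by positivity)]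
  refine h1.trans ?_
  have h3 : 2 / (s : ℝ) * (∑ b ∈ (B.erase a).erase a', (f b - f' b) ^ 2) * m ^ 2
      = (2 / (s : ℝ) * m) * (m * ∑ b ∈ (B.erase a).erase a', (f b - f' b) ^ 2) := by ring
  rw [h3]
  have h4 : 1 ≤ 2 / (s : ℝ) * m := by
    rw [div_mul_eq_mul_div, le_div_iff₀ hs0]
    linarith
  have h5 : 0 ≤ m * ∑ b ∈ (B.erase a).erase a', (f b - f' b) ^ 2 := by positivity
  nlinarith

theorem sum_triple (D B : Finset C) (g : C → C → ℝ) :
    ∑ a ∈ D, ∑ a' ∈ D, ∑ b ∈ (B.erase a).erase a', (g a b - g a' b) ^ 2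
      = ∑ b ∈ B, ∑ a ∈ D.erase b, ∑ a' ∈ D.erase b, (g a b - g a' b) ^ 2 := by
  have h1 : ∀ a a', ∑ b ∈ (B.erase a).erase a', (g a b - g a' b) ^ 2
      = ∑ b ∈ B, if a ≠ b ∧ a' ≠ b then (g a b - g a' b) ^ 2 else 0 := by
    intro a a'
    rw [← Finset.sum_filter]
    refine Finset.sum_congr ?_ fun _ _ => rfl
    ext b
    simp only [Finset.mem_erase, Finset.mem_filter, ne_eq]
    constructor
    · rintro ⟨h1, h2, h3⟩
      exact ⟨h3, fun h => h2 h.symm, fun h => h1 h.symm⟩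
    · rintro ⟨h1, h2, h3⟩
      exact ⟨fun h => h3 h.symm, fun h => h2 h.symm, h1⟩
  have h2 : ∀ b, ∑ a ∈ D.erase b, ∑ a' ∈ D.erase b, (g a b - g a' b) ^ 2
      = ∑ a ∈ D, ∑ a' ∈ D, if a ≠ b ∧ a' ≠ b then (g a b - g a' b) ^ 2 else 0 := by
    intro b
    rw [← Finset.filter_ne', Finset.sum_filter]
    refine Finset.sum_congr rfl fun a _ => ?_
    by_cases ha : a ≠ b
    · rw [if_pos ha, Finset.sum_filter]
      refine Finset.sum_congr rfl fun a' _ => ?_
      by_cases ha' : a' ≠ b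
      · rw [if_pos ha', if_pos ⟨ha, ha'⟩]
      · rw [if_neg ha', if_neg (fun h => ha' h.2)]
    · rw [if_neg ha]
      symm
      exact Finset.sum_eq_zero fun a' _ => if_neg (fun h => ha h.1)
  simp only [h1, h2]
  rw [Finset.sum_congr rfl fun a _ => Finset.sum_comm, Finset.sum_comm]

end TwoSiteAux

open TwoSiteAux in
theorem twoSite_proof (C : Type) : TwoSite C := by
  intro D B g s hs hD hB
  have hs0 : (0 : ℝ) < s := by
    have : 0 < s := by omega
    exact_mod_cast this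
  have hDs : (s : ℝ) ≤ (D.card : ℝ) := by
    have : s ≤ D.card := by omega
    exact_mod_cast this
  have hD0 : (0 : ℝ) < (D.card : ℝ) := hs0.trans_le hDs
  set G : C → ℝ := fun a => (∑ b ∈ B.erase a, g a b) / ((B.erase a).card : ℝ) with hG
  set W : C → C → ℝ := fun a a' => if a' ∈ B.erase a then (g a a' - G a) ^ 2 else 0 with hW
  set Q : C → C → ℝ := fun a a' => ∑ b ∈ (B.erase a).erase a', (g a b - g a' b) ^ 2 with hQ
  set X := ∑ a ∈ D, ∑ b ∈ B.erase a, (g a b - G a) ^ 2 with hX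
  set Y := ∑ b ∈ B, ∑ a ∈ D.erase b,
          (g a b - (∑ a' ∈ D.erase b, g a' b) / ((D.erase b).card : ℝ)) ^ 2 with hY
  have hX0 : 0 ≤ X := Finset.sum_nonneg fun _ _ => Finset.sum_nonneg fun _ _ => sq_nonneg _
  have hY0 : 0 ≤ Y := Finset.sum_nonneg fun _ _ => Finset.sum_nonneg fun _ _ => sq_nonneg _
  have hW0 : ∀ a a', 0 ≤ W a a' := by
    intro a a'
    simp only [hW]
    split_ifs
    · exact sq_nonneg _
    · exact le_rfl
  have hpair : ∀ a a', (G a - G a') ^ 2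
      ≤ 12 / (s : ℝ) ^ 2 * W a a' + 12 / (s : ℝ) ^ 2 * W a' a + 6 / (s : ℝ) * Q a a' := by
    intro a a'
    have h1 := step2 B (g a) a a' s hs hB
    have h2 := step2 B (g a') a' a s hs hB
    have h3 := step3 B (g a) (g a') a a' s hs hB
    rw [Finset.erase_right_comm] at h2
    set k1 := (∑ b ∈ (B.erase a).erase a', g a b) / (((B.erase a).erase a').card : ℝ)
    set k2 := (∑ b ∈ (B.erase a).erase a', g a' b) / (((B.erase a).erase a').card : ℝ)
    have h4 : (G a - G a') ^ 2 ≤ 3 * (G a - k1) ^ 2 + 3 * (G a' - k2) ^ 2 + 3 * (k1 - k2) ^ 2 := by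
      nlinarith [sq_nonneg ((G a - k1) + (G a' - k2)), sq_nonneg ((G a - k1) - (k1 - k2)),
        sq_nonneg ((G a' - k2) + (k1 - k2))]
    have e1 : (12 : ℝ) / (s : ℝ) ^ 2 = 3 * (4 / (s : ℝ) ^ 2) := by ring
    have e2 : (6 : ℝ) / (s : ℝ) = 3 * (2 / (s : ℝ)) := by ring
    rw [e1, e2]
    have h1' : (G a - k1) ^ 2 ≤ 4 / (s : ℝ) ^ 2 * W a a' := h1
    have h2' : (G a' - k2) ^ 2 ≤ 4 / (s : ℝ) ^ 2 * W a' a := h2
    have h3' : (k1 - k2) ^ 2 ≤ 2 / (s : ℝ) * Q a a' := h3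
    linarith
  have hWsum : ∑ a ∈ D, ∑ a' ∈ D, W a a' ≤ X := by
    refine Finset.sum_le_sum fun a _ => ?_
    simp only [hW]
    rw [← Finset.sum_filter]
    refine Finset.sum_le_sum_of_subset_of_nonneg ?_ fun _ _ _ => sq_nonneg _
    intro b hb
    exact (Finset.mem_filter.1 hb).2
  have hWsum' : ∑ a ∈ D, ∑ a' ∈ D, W a' a ≤ X := by
    rw [Finset.sum_comm]
    exact hWsum
  have hQsum : ∑ a ∈ D, ∑ a' ∈ D, Q a a' ≤ 2 * (D.card : ℝ) * Y := by
    simp only [hQ]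
    rw [sum_triple, hY, Finset.mul_sum]
    refine Finset.sum_le_sum fun b _ => ?_
    rw [var_pairs (D.erase b) (fun a => g a b)]
    refine mul_le_mul_of_nonneg_right ?_ (Finset.sum_nonneg fun _ _ => sq_nonneg _)
    have h1 : (D.erase b).card ≤ D.card := Finset.card_erase_le
    have h2 : ((D.erase b).card : ℝ) ≤ (D.card : ℝ) := by exact_mod_cast h1
    linarith
  have htot : 2 * (D.card : ℝ) * ∑ a ∈ D, (G a - (∑ a' ∈ D, G a') / (D.card : ℝ)) ^ 2
      ≤ 24 / (s : ℝ) ^ 2 * X + 6 / (s : ℝ) * (2 * (D.card : ℝ) * Y) := by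
    rw [← var_pairs D G]
    calc ∑ a ∈ D, ∑ a' ∈ D, (G a - G a') ^ 2
        ≤ ∑ a ∈ D, ∑ a' ∈ D, (12 / (s : ℝ) ^ 2 * W a a' + 12 / (s : ℝ) ^ 2 * W a' a
          + 6 / (s : ℝ) * Q a a') :=
          Finset.sum_le_sum fun a _ => Finset.sum_le_sum fun a' _ => hpair a a'
      _ = 12 / (s : ℝ) ^ 2 * ∑ a ∈ D, ∑ a' ∈ D, W a a'
          + 12 / (s : ℝ) ^ 2 * ∑ a ∈ D, ∑ a' ∈ D, W a' a
          + 6 / (s : ℝ) * ∑ a ∈ D, ∑ a' ∈ D, Q a a' := by
          simp only [Finset.sum_add_distrib, Finset.mul_sum]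
      _ ≤ 12 / (s : ℝ) ^ 2 * X + 12 / (s : ℝ) ^ 2 * X
          + 6 / (s : ℝ) * (2 * (D.card : ℝ) * Y) := by
          gcongr
      _ = _ := by ring
  have h2D : (0 : ℝ) < 2 * (D.card : ℝ) := by positivity
  have hfin : 2 * (D.card : ℝ) * ∑ a ∈ D, (G a - (∑ a' ∈ D, G a') / (D.card : ℝ)) ^ 2
      ≤ 2 * (D.card : ℝ) * (12 / (s : ℝ) ^ 3 * X + 6 / (s : ℝ) * Y) := by
    refine htot.trans ?_
    have h1 : 24 / (s : ℝ) ^ 2 * X ≤ 2 * (D.card : ℝ) * (12 / (s : ℝ) ^ 3 * X) := by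
      have e : 2 * (D.card : ℝ) * (12 / (s : ℝ) ^ 3 * X)
          = 24 / (s : ℝ) ^ 2 * X * ((D.card : ℝ) / s) := by
        field_simp
        ring
      rw [e]
      have h2 : 1 ≤ (D.card : ℝ) / s := by
        rw [le_div_iff₀ hs0, one_mul]
        exact hDs
      have h3 : 0 ≤ 24 / (s : ℝ) ^ 2 * X := by positivity
      nlinarith
    nlinarith
  exact le_of_mul_le_mul_left hfin h2D

end Pool.Agent.Eps26
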