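import Pool.Agent.Lib.MP_26a019_lc.Eps.Spec

set_option autoImplicit false
set_option linter.unusedVariables false
set_option linter.unusedSectionVars false

open Finset Classical

namespace Pool.Agent.Eps26

open Pool.Agent.Kempe Pool.Agent.KempeMix

namespace W4Aux

variable {V : Type} [Fintype V]

/-- the indicator of an edge of `G[U]` -/
noncomputable def ee (G : SimpleGraph V) (U : Finset V) (x v : V) : ℝ :=
  if x ∈ U ∧ v ∈ U ∧ G.Adj x v then 1 else 0

theorem ee_symm (G : SimpleGraph V) (U : Finset V) (x v : V) : ee G U x v = ee G U v x := by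
  unfold ee
  have : (x ∈ U ∧ v ∈ U ∧ G.Adj x v) ↔ (v ∈ U ∧ x ∈ U ∧ G.Adj v x) :=
    ⟨fun h => ⟨h.2.1, h.1, h.2.2.symm⟩, fun h => ⟨h.2.1, h.1, h.2.2.symm⟩⟩
  simp only [this]

/-- sums over neighbourhoods -/
theorem sum_nb (G : SimpleGraph V) (U : Finset V) {x : V} (hx : x ∈ U) (F : V → ℝ) :
    ∑ v ∈ nb G U x, F v = ∑ v ∈ U, ee G U x v * F v := by
  unfold nb
  rw [Finset.sum_filter]
  refine Finset.sum_congr rfl fun v hv => ?_
  unfold ee
  by_cases h : G.Adj x v
  · rw [if_pos h, if_pos ⟨hx, hv, h⟩, one_mul]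
  · rw [if_neg h, if_neg fun h' => h h'.2.2, zero_mul]

/-- sums over common neighbourhoods -/
theorem sum_inter (G : SimpleGraph V) (U : Finset V) {x y : V} (hx : x ∈ U) (hy : y ∈ U)
    (F : V → ℝ) : ∑ v ∈ (nb G U x) ∩ (nb G U y), F v = ∑ v ∈ U, ee G U x v * ee G U y v * F v := by
  have h1 : (nb G U x) ∩ (nb G U y) = U.filter (fun v => G.Adj x v ∧ G.Adj y v) := by
    ext v
    rw [Finset.mem_inter, mem_nb, mem_nb, Finset.mem_filter]
    tauto
  rw [h1, Finset.sum_filter]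
  refine Finset.sum_congr rfl fun v hv => ?_
  unfold ee
  by_cases h : G.Adj x v
  · by_cases h' : G.Adj y v
    · rw [if_pos ⟨h, h'⟩, if_pos ⟨hx, hv, h⟩, if_pos ⟨hy, hv, h'⟩]; ring
    · have e1 : ¬ (y ∈ U ∧ v ∈ U ∧ G.Adj y v) := fun h'' => h' h''.2.2
      rw [if_neg (fun h'' => h' h''.2), if_neg e1]
      ring
  · have e1 : ¬ (x ∈ U ∧ v ∈ U ∧ G.Adj x v) := fun h'' => h h''.2.2
    rw [if_neg (fun h'' => h h''.1), if_neg e1]
    ring

theorem kn_eq (G : SimpleGraph V) (U : Finset V) {x y : V} (hx : x ∈ U) (hy : y ∈ U) :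
    (kn G U x y : ℝ) = ∑ v ∈ U, ee G U x v * ee G U y v := by
  have h := sum_inter G U hx hy (fun _ => (1 : ℝ))
  simp only [mul_one] at h
  rw [← h]
  simp [kn]

theorem w4_eq (G : SimpleGraph V) (U : Finset V) {v : V} (hv : v ∈ U) :
    (w4 G U v : ℝ) = ∑ x ∈ U, ∑ y ∈ U, ee G U v x * ee G U v y * (kn G U x y : ℝ) := by
  unfold w4
  push_cast
  rw [sum_nb G U hv (fun x => ∑ y ∈ nb G U v, (((nb G U x ∩ nb G U y).card : ℕ) : ℝ))]
  refine Finset.sum_congr rfl fun x _ => ?_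
  rw [sum_nb G U hv (fun y => (((nb G U x ∩ nb G U y).card : ℕ) : ℝ)), Finset.mul_sum]
  refine Finset.sum_congr rfl fun y _ => ?_
  unfold kn
  ring

end W4Aux

open W4Aux in
theorem w4_proof (V : Type) [Fintype V] : W4 V := by
  intro G U
  refine ⟨fun u hu => ?_, fun F => ?_⟩
  · rw [w4_eq G U hu]
    have h1 : ∀ x ∈ U, ((kn G U x u : ℝ)) ^ 2 =
        ∑ v ∈ U, ∑ w ∈ U, ee G U u v * ee G U u w * (ee G U v x * ee G U w x) := by
      intro x hx
      rw [kn_eq G U hx hu, sq, Finset.sum_mul_sum]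
      refine Finset.sum_congr rfl fun v _ => Finset.sum_congr rfl fun w _ => ?_
      rw [ee_symm G U v x, ee_symm G U w x]
      ring
    rw [Finset.sum_congr rfl h1, Finset.sum_comm]
    refine Finset.sum_congr rfl fun v hv => ?_
    rw [Finset.sum_comm]
    refine Finset.sum_congr rfl fun w hw => ?_
    rw [kn_eq G U hv hw, Finset.mul_sum]
  · have h1 : ∀ x ∈ U, ∀ y ∈ U, (kn G U x y : ℝ) * ∑ v ∈ (nb G U x) ∩ (nb G U y), F v =
        ∑ v ∈ U, ee G U v x * ee G U v y * (kn G U x y : ℝ) * F v := by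
      intro x hx y hy
      rw [sum_inter G U hx hy, Finset.mul_sum]
      refine Finset.sum_congr rfl fun v _ => ?_
      rw [ee_symm G U v x, ee_symm G U v y]
      ring
    rw [Finset.sum_congr rfl fun x hx => Finset.sum_congr rfl fun y hy => h1 x hx y hy]
    have h2 : ∀ v ∈ U, (w4 G U v : ℝ) * F v =
        ∑ x ∈ U, ∑ y ∈ U, ee G U v x * ee G U v y * (kn G U x y : ℝ) * F v := by
      intro v hv
      rw [w4_eq G U hv, Finset.sum_mul]
      exact Finset.sum_congr rfl fun x _ => by rw [Finset.sum_mul]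
    rw [Finset.sum_congr rfl h2]
    rw [Finset.sum_comm (s := U) (t := U) (f := fun v x =>
      ∑ y ∈ U, ee G U v x * ee G U v y * (kn G U x y : ℝ) * F v)]
    refine Finset.sum_congr rfl fun x _ => ?_
    rw [Finset.sum_comm]

end Pool.Agent.Eps26
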