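import Pool.Agent.Lib.MP_26a019_lc.Eps.Spec

set_option autoImplicit false

/-!
# The mean of `ξ`
-/

open Finset Classical

namespace Pool.Agent.Eps26

open Pool.Agent.Kempe Pool.Agent.KempeMix

namespace XiMAux

variable {V C : Type} [Fintype V] [Fintype C]

/-- pointwise bounds -/
theorem pt {G : SimpleGraph V} {U : Finset V} {L : V → Finset C} {s : ℕ}
    (hG : Good G U L s) {x v : V} (hv : v ∈ U) (hx : x ∈ nb G U v) (a : C) (f : V → C) :
    pr G U L v a f - yX G U L {x} v a f / (((avX G U L {x} f v).card : ℝ) - 1) ≤ 0 ∧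
    -(1 / (s : ℝ) * ((if f x = a then (1 : ℝ) else 0) * yX G U L {x} v a f)
        + (1 / (s : ℝ)) ^ 2 * yX G U L {x} v a f) ≤
      pr G U L v a f - yX G U L {x} v a f / (((avX G U L {x} f v).card : ℝ) - 1) := by
  have hs2 : (2 : ℝ) ≤ s := by exact_mod_cast hG.1
  have hs : (0 : ℝ) < s := by linarith
  have hw : (s : ℝ) + 1 ≤ ((avX G U L {x} f v).card : ℝ) := by
    exact_mod_cast card_avX_nb hG hv hx f
  have hae := av_eq_erase (L := L) (f := f) hx
  unfold pr yX
  rw [hae]
  set W := avX G U L {x} f v with hW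
  by_cases ha : a ∈ W
  · by_cases hfx : f x = a
    · have h1 : a ∉ W.erase (f x) := by rw [hfx]; exact Finset.notMem_erase a W
      rw [if_neg h1, if_pos ha, if_pos hfx]
      have h2 : 0 < (W.card : ℝ) - 1 := by linarith
      have h3 : 1 / ((W.card : ℝ) - 1) ≤ 1 / (s : ℝ) :=
        one_div_le_one_div_of_le hs (by linarith)
      have h4 : 0 < 1 / ((W.card : ℝ) - 1) := by positivity
      have h5 : 0 ≤ (1 / (s : ℝ)) ^ 2 := by positivity
      constructor <;> linarith
    · have h1 : a ∈ W.erase (f x) := Finset.mem_erase.2 ⟨Ne.symm hfx, ha⟩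
      rw [if_pos h1, if_pos ha, if_neg hfx]
      by_cases hfW : f x ∈ W
      · have h2 : ((W.erase (f x)).card : ℝ) = (W.card : ℝ) - 1 := by
          rw [Finset.card_erase_of_mem hfW]
          have : 1 ≤ W.card := Finset.card_pos.2 ⟨_, hfW⟩
          push_cast [Nat.cast_sub this]
          ring
        rw [h2]
        have h5 : 0 ≤ (1 / (s : ℝ)) ^ 2 := by positivity
        constructor <;> linarith
      · rw [Finset.erase_eq_of_notMem hfW]
        have h2 : 0 < (W.card : ℝ) - 1 := by linarith
        have h3 : 0 < (W.card : ℝ) := by linarith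
        have h4 : 1 / ((W.card : ℝ) - 1) - 1 / (W.card : ℝ)
            = 1 / ((W.card : ℝ) * ((W.card : ℝ) - 1)) := by
          field_simp
          ring
        have h5 : 0 < 1 / ((W.card : ℝ) * ((W.card : ℝ) - 1)) := by positivity
        have h6 : 1 / ((W.card : ℝ) * ((W.card : ℝ) - 1)) ≤ (1 / (s : ℝ)) ^ 2 := by
          rw [div_pow, one_pow]
          refine one_div_le_one_div_of_le (by positivity) ?_
          nlinarith
        constructor
        · linarith
        · simp only [zero_mul, mul_zero, mul_one, zero_add]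
          linarith
  · have h1 : a ∉ W.erase (f x) := fun h => ha (Finset.mem_of_mem_erase h)
    rw [if_neg h1, if_neg ha]
    simp

end XiMAux

open XiMAux in
theorem xiM_proof (V C : Type) [Fintype V] [Fintype C] : XiM V C := by
  intro hYB G U L p s x v a hG hx hv
  have hvU : v ∈ U := nb_subset G U x hv
  have hxv : x ∈ nb G U v := mem_nb_comm hx hv
  have hs2 : (2 : ℝ) ≤ s := by exact_mod_cast hG.1
  have hs : (0 : ℝ) < s := by linarith
  set A := Col G U L p with hA
  have hne : A.Nonempty := Col_nonempty hG p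
  have e1 : ev A (xi G U L p x v a) = ev A (fun f => pr G U L v a f -
      yX G U L {x} v a f / (((avX G U L {x} f v).card : ℝ) - 1)) := by
    have : ev A (xi G U L p x v a) = mg A v a -
        ev A (fun f => yX G U L {x} v a f / (((avX G U L {x} f v).card : ℝ) - 1)) := by
      unfold xi
      rw [ev_sub, ev_const hne]
    rw [this, mg_eq hG p hvU, ev_sub]
  have hY := (hYB G U L p s v a hG hvU).1 x hx
  have h1 : ev A (xi G U L p x v a) ≤ 0 := by
    rw [e1]
    have := ev_mono A (h := fun _ => (0 : ℝ)) fun f _ => (pt hG hvU hxv a f).1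
    rwa [ev_const hne] at this
  have hind : Ind x (yX G U L {x} v a) := ind_yX G U L {x} v a (Finset.mem_singleton_self x)
  have h2 : -(4 * (Fintype.card C : ℝ) / (s : ℝ) ^ 2 * mg A v a) ≤ ev A (xi G U L p x v a) := by
    rw [e1]
    have h3 := ev_mono A (g := fun f => -(1 / (s : ℝ) * ((if f x = a then (1 : ℝ) else 0) *
      yX G U L {x} v a f) + (1 / (s : ℝ)) ^ 2 * yX G U L {x} v a f)) fun f _ =>
      (pt hG hvU hxv a f).2
    refine le_trans ?_ h3
    rw [ev_neg, ev_add, ev_mul_left, ev_mul_left, ev_color_mul hG p hx a hind]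
    have h4 : ev A (fun f => pr G U L x a f * yX G U L {x} v a f) ≤
        1 / (s : ℝ) * ev A (yX G U L {x} v a) := by
      rw [← ev_mul_left]
      exact ev_mono A fun f _ =>
        mul_le_mul_of_nonneg_right (pr_le hG hx a f) (yX_nonneg G U L {x} v a f)
    have hr : 0 < 1 / (s : ℝ) := by positivity
    have h5 := mul_le_mul_of_nonneg_left h4 hr.le
    have h6 := mul_le_mul_of_nonneg_left hY (by positivity : 0 ≤ 2 * (1 / (s : ℝ)) ^ 2)
    have h7 : 2 * (1 / (s : ℝ)) ^ 2 * (2 * (Fintype.card C : ℝ) * mg A v a)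
        = 4 * (Fintype.card C : ℝ) / (s : ℝ) ^ 2 * mg A v a := by
      field_simp
      ring
    rw [h7] at h6
    have h8 : (1 / (s : ℝ)) * (1 / (s : ℝ) * ev A (yX G U L {x} v a))
        = (1 / (s : ℝ)) ^ 2 * ev A (yX G U L {x} v a) := by ring
    rw [h8] at h5
    have h9 : ev A (fun f => yX G U L {x} v a f) = ev A (yX G U L {x} v a) := rfl
    rw [h9]
    linarith
  rw [abs_le]
  refine ⟨h2, h1.trans ?_⟩
  have := mg_nonneg A v a
  positivity

end Pool.Agent.Eps26
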