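import Pool.Agent.Lib.MP_26a019_lc.Eps.Spec

set_option autoImplicit false
set_option linter.unusedSectionVars false
set_option linter.unusedVariables false

/-!
# The means of `Φ_{x,a}`
-/

open Finset Classical

namespace Pool.Agent.Eps26

open Pool.Agent.Kempe Pool.Agent.KempeMix

namespace XiMSAux

variable {V C : Type} [Fintype V] [Fintype C]

theorem s_pos {G : SimpleGraph V} {U : Finset V} {L : V → Finset C} {s : ℕ}
    (hG : Good G U L s) : (0 : ℝ) < s := by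
  have := hG.1
  exact_mod_cast (by omega : 0 < s)

theorem card_nb_le {G : SimpleGraph V} {U : Finset V} {L : V → Finset C} {s : ℕ}
    (hG : Good G U L s) {x : V} (hx : x ∈ U) :
    ((nb G U x).card : ℝ) ≤ (Fintype.card C : ℝ) := by
  have := card_nb_le_card hG hx
  exact_mod_cast (by omega : (nb G U x).card ≤ Fintype.card C)

/-- bound for one `x` and one `a` -/
theorem one (hYB : YB V C) (hX : XiM V C) {G : SimpleGraph V} {U : Finset V}
    {L : V → Finset C} (p : V → C) {s : ℕ} (h : V → C → ℝ) (hG : Good G U L s) {x : V}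
    (hx : x ∈ U) (a : C) :
    (ev (Col G U L p) (Ph G U L p h x a)) ^ 2 ≤
      16 * (Fintype.card C : ℝ) ^ 3 / (s : ℝ) ^ 5 *
        ∑ v ∈ nb G U x, mg (Col G U L p) v a * (h v a) ^ 2 := by
  have hs := s_pos hG
  have hq : (0 : ℝ) ≤ (Fintype.card C : ℝ) := Nat.cast_nonneg _
  have hS : 0 ≤ ∑ v ∈ nb G U x, mg (Col G U L p) v a * (h v a) ^ 2 :=
    Finset.sum_nonneg fun v _ => mul_nonneg (mg_nonneg _ _ _) (sq_nonneg _)
  have h1 : ev (Col G U L p) (Ph G U L p h x a) =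
      ∑ v ∈ nb G U x, h v a * ev (Col G U L p) (xi G U L p x v a) := by
    have h0 : Ph G U L p h x a = fun f => ∑ v ∈ nb G U x, h v a * xi G U L p x v a f := rfl
    rw [h0, ev_sum]
    exact Finset.sum_congr rfl fun v _ => ev_mul_left _ _ _
  have h2 : |ev (Col G U L p) (Ph G U L p h x a)| ≤ 4 * (Fintype.card C : ℝ) / (s : ℝ) ^ 2 *
      ∑ v ∈ nb G U x, mg (Col G U L p) v a * |h v a| := by
    rw [h1, Finset.mul_sum]
    refine (Finset.abs_sum_le_sum_abs _ _).trans (Finset.sum_le_sum fun v hv => ?_)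
    rw [abs_mul]
    have h3 := hX hYB G U L p s x v a hG hx hv
    calc |h v a| * |ev (Col G U L p) (xi G U L p x v a)|
        ≤ |h v a| * (4 * (Fintype.card C : ℝ) / (s : ℝ) ^ 2 * mg (Col G U L p) v a) :=
          mul_le_mul_of_nonneg_left h3 (abs_nonneg _)
      _ = _ := by ring
  have h3 : (∑ v ∈ nb G U x, mg (Col G U L p) v a * |h v a|) ^ 2 ≤
      (∑ v ∈ nb G U x, mg (Col G U L p) v a) *
        ∑ v ∈ nb G U x, mg (Col G U L p) v a * (h v a) ^ 2 := by
    apply Finset.sum_sq_le_sum_mul_sum_of_sq_eq_mul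
    · intro v _
      exact mg_nonneg _ _ _
    · intro v _
      exact mul_nonneg (mg_nonneg _ _ _) (sq_nonneg _)
    · intro v _
      rw [mul_pow, sq_abs]
      ring
  have h4 : ∑ v ∈ nb G U x, mg (Col G U L p) v a ≤ (Fintype.card C : ℝ) / s := by
    calc ∑ v ∈ nb G U x, mg (Col G U L p) v a ≤ ∑ v ∈ nb G U x, 1 / (s : ℝ) :=
          Finset.sum_le_sum fun v hv => mg_le hG p (nb_subset G U x hv) a
      _ = ((nb G U x).card : ℝ) * (1 / (s : ℝ)) := by rw [Finset.sum_const, nsmul_eq_mul]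
      _ ≤ (Fintype.card C : ℝ) * (1 / (s : ℝ)) :=
          mul_le_mul_of_nonneg_right (card_nb_le hG hx) (by positivity)
      _ = (Fintype.card C : ℝ) / s := by ring
  calc (ev (Col G U L p) (Ph G U L p h x a)) ^ 2
      = |ev (Col G U L p) (Ph G U L p h x a)| ^ 2 := (sq_abs _).symm
    _ ≤ (4 * (Fintype.card C : ℝ) / (s : ℝ) ^ 2 *
          ∑ v ∈ nb G U x, mg (Col G U L p) v a * |h v a|) ^ 2 :=
        pow_le_pow_left₀ (abs_nonneg _) h2 2
    _ = (4 * (Fintype.card C : ℝ) / (s : ℝ) ^ 2) ^ 2 *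
          (∑ v ∈ nb G U x, mg (Col G U L p) v a * |h v a|) ^ 2 := mul_pow _ _ _
    _ ≤ (4 * (Fintype.card C : ℝ) / (s : ℝ) ^ 2) ^ 2 * ((Fintype.card C : ℝ) / s *
          ∑ v ∈ nb G U x, mg (Col G U L p) v a * (h v a) ^ 2) :=
        mul_le_mul_of_nonneg_left (h3.trans (mul_le_mul_of_nonneg_right h4 hS)) (sq_nonneg _)
    _ = 16 * (Fintype.card C : ℝ) ^ 3 / (s : ℝ) ^ 5 *
          ∑ v ∈ nb G U x, mg (Col G U L p) v a * (h v a) ^ 2 := by
        have := hs.ne'
        field_simp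
        ring

end XiMSAux

open XiMSAux in
theorem xiMS_proof (V C : Type) [Fintype V] [Fintype C] : XiMS V C := by
  intro hYB hX G U L p s h hG
  have hs := s_pos hG
  have hq : (0 : ℝ) ≤ (Fintype.card C : ℝ) := Nat.cast_nonneg _
  have hnn : ∀ v, 0 ≤ ∑ a, mg (Col G U L p) v a * (h v a) ^ 2 := fun v =>
    Finset.sum_nonneg fun a _ => mul_nonneg (mg_nonneg _ _ _) (sq_nonneg _)
  calc ∑ x ∈ U, ∑ a, (ev (Col G U L p) (Ph G U L p h x a)) ^ 2
      ≤ ∑ x ∈ U, ∑ a, 16 * (Fintype.card C : ℝ) ^ 3 / (s : ℝ) ^ 5 *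
          ∑ v ∈ nb G U x, mg (Col G U L p) v a * (h v a) ^ 2 :=
        Finset.sum_le_sum fun x hx => Finset.sum_le_sum fun a _ => one hYB hX p h hG hx a
    _ = 16 * (Fintype.card C : ℝ) ^ 3 / (s : ℝ) ^ 5 *
          ∑ x ∈ U, ∑ v ∈ nb G U x, ∑ a, mg (Col G U L p) v a * (h v a) ^ 2 := by
        rw [Finset.mul_sum]
        refine Finset.sum_congr rfl fun x _ => ?_
        rw [← Finset.mul_sum, Finset.sum_comm]
    _ = 16 * (Fintype.card C : ℝ) ^ 3 / (s : ℝ) ^ 5 *
          ∑ v ∈ U, ∑ x ∈ nb G U v, ∑ a, mg (Col G U L p) v a * (h v a) ^ 2 := by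
        rw [sum_nb_comm G U (fun x v => ∑ a, mg (Col G U L p) v a * (h v a) ^ 2)]
    _ ≤ 16 * (Fintype.card C : ℝ) ^ 3 / (s : ℝ) ^ 5 *
          ((Fintype.card C : ℝ) * nrm (Col G U L p) U h) := by
        refine mul_le_mul_of_nonneg_left ?_ (by positivity)
        rw [nrm, Finset.mul_sum]
        refine Finset.sum_le_sum fun v hv => ?_
        rw [Finset.sum_const, nsmul_eq_mul]
        exact mul_le_mul_of_nonneg_right (card_nb_le hG hv) (hnn v)
    _ = 16 * (Fintype.card C : ℝ) ^ 4 / (s : ℝ) ^ 5 * nrm (Col G U L p) U h := by ring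

end Pool.Agent.Eps26
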