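import Pool.Agent.Lib.MP_26a019_lc.Eps.Spec

set_option autoImplicit false

/-!
# The sum of the squares of `Φ_{x,f x}` (`XiS` of `Eps/Spec.lean`)
-/

open Finset Classical

namespace Pool.Agent.Eps26

open Pool.Agent.Kempe Pool.Agent.KempeMix

namespace XiSAux

variable {V C : Type} [Fintype V] [Fintype C]

theorem ind_xi (G : SimpleGraph V) (U : Finset V) (L : V → Finset C) (p : V → C) (x v : V)
    (a : C) : Ind x (xi G U L p x v a) := by
  intro f c
  have h1 := ind_yX G U L {x} v a (Finset.mem_singleton_self x) f c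
  have h2 := avX_update_of_mem G U L f v (Finset.mem_singleton_self x) c
  unfold xi
  rw [h1, h2]

theorem ind_Ph (G : SimpleGraph V) (U : Finset V) (L : V → Finset C) (p : V → C)
    (h : V → C → ℝ) (x : V) (a : C) : Ind x (Ph G U L p h x a) := by
  intro f c
  unfold Ph
  exact Finset.sum_congr rfl fun v _ => by rw [ind_xi G U L p x v a f c]

/-- one vertex -/
theorem one {G : SimpleGraph V} {U : Finset V} {L : V → Finset C} {s : ℕ}
    (hG : Good G U L s) (p : V → C) {x : V} (hx : x ∈ U) (h : V → C → ℝ) :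
    ev (Col G U L p) (fun f => (Ph G U L p h x (f x) f) ^ 2) ≤
      1 / (s : ℝ) * ∑ a, ((ev (Col G U L p) (Ph G U L p h x a)) ^ 2 +
        vr (Col G U L p) (Ph G U L p h x a)) := by
  have hne := Col_nonempty hG p
  have h1 : ev (Col G U L p) (fun f => (Ph G U L p h x (f x) f) ^ 2) =
      ev (Col G U L p) (fun f => ∑ a, (if f x = a then (1 : ℝ) else 0) *
        (Ph G U L p h x a f) ^ 2) := by
    refine ev_congr _ fun f _ => ?_
    simp
  rw [h1, ev_sum, Finset.mul_sum]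
  refine Finset.sum_le_sum fun a _ => ?_
  have hi : Ind x (fun f => (Ph G U L p h x a f) ^ 2) := fun f c => by
    simp only [ind_Ph G U L p h x a f c]
  rw [ev_color_mul hG p hx a hi]
  calc ev (Col G U L p) (fun f => pr G U L x a f * (Ph G U L p h x a f) ^ 2)
      ≤ ev (Col G U L p) (fun f => 1 / (s : ℝ) * (Ph G U L p h x a f) ^ 2) :=
        ev_mono _ fun f _ => mul_le_mul_of_nonneg_right (pr_le hG hx a f) (sq_nonneg _)
    _ = 1 / (s : ℝ) * ev (Col G U L p) (fun f => (Ph G U L p h x a f) ^ 2) :=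
        ev_mul_left _ _ _
    _ = _ := by
        rw [vr_eq hne]
        ring

end XiSAux

theorem xiS_proof (V C : Type) [Fintype V] [Fintype C] : XiS V C := by
  intro hYB hXiM hXiMS hXiV hW4 G U L p s P Q0 h hG hP hPoin hQ
  set A := Col G U L p with hA
  set q : ℝ := (Fintype.card C : ℝ) with hq
  have hs0 : (0 : ℝ) < s := by exact_mod_cast (by have := hG.1; omega : 0 < s)
  have hq0 : 0 ≤ q := Nat.cast_nonneg _
  -- first part
  have h1 : ∑ x ∈ U, ∑ a, (ev A (Ph G U L p h x a)) ^ 2 ≤ 16 * q ^ 4 / (s : ℝ) ^ 5 * nrm A U h :=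
    hXiMS hYB hXiM G U L p s h hG
  -- second part
  have h2 : ∑ x ∈ U, ∑ a, vr A (Ph G U L p h x a) ≤
      12 * P * q * Q0 / (s : ℝ) ^ 3 * nrm A U h := by
    have h3 : ∀ a : C, ∑ x ∈ U, vr A (Ph G U L p h x a) ≤
        12 * P * q * Q0 / (s : ℝ) ^ 3 * ∑ v ∈ U, mg A v a * (h v a) ^ 2 := by
      intro a
      have hw := (hW4 G U).2 (fun v => mg A v a * (h v a) ^ 2)
      calc ∑ x ∈ U, vr A (Ph G U L p h x a)
          ≤ ∑ x ∈ U, 12 * P * q / (s : ℝ) ^ 3 * ∑ y ∈ U, (kn G U x y : ℝ) *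
              ∑ v ∈ (nb G U x) ∩ (nb G U y), mg A v a * (h v a) ^ 2 :=
            Finset.sum_le_sum fun x hx => hXiV hYB G U L p s P x a h hG hx hP hPoin
        _ = 12 * P * q / (s : ℝ) ^ 3 * ∑ v ∈ U, (w4 G U v : ℝ) * (mg A v a * (h v a) ^ 2) := by
            rw [← Finset.mul_sum, hw]
        _ ≤ 12 * P * q / (s : ℝ) ^ 3 * ∑ v ∈ U, Q0 * (mg A v a * (h v a) ^ 2) := by
            refine mul_le_mul_of_nonneg_left ?_ (by positivity)
            exact Finset.sum_le_sum fun v hv => mul_le_mul_of_nonneg_right (hQ v hv)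
              (mul_nonneg (mg_nonneg A v a) (sq_nonneg _))
        _ = _ := by
            rw [← Finset.mul_sum]
            ring
    calc ∑ x ∈ U, ∑ a, vr A (Ph G U L p h x a)
        = ∑ a, ∑ x ∈ U, vr A (Ph G U L p h x a) := Finset.sum_comm
      _ ≤ ∑ a, 12 * P * q * Q0 / (s : ℝ) ^ 3 * ∑ v ∈ U, mg A v a * (h v a) ^ 2 :=
          Finset.sum_le_sum fun a _ => h3 a
      _ = 12 * P * q * Q0 / (s : ℝ) ^ 3 * ∑ a, ∑ v ∈ U, mg A v a * (h v a) ^ 2 := by
          rw [← Finset.mul_sum]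
      _ = _ := by
          rw [Finset.sum_comm]
          rfl
  calc ∑ x ∈ U, ev A (fun f => (Ph G U L p h x (f x) f) ^ 2)
      ≤ ∑ x ∈ U, 1 / (s : ℝ) * ∑ a, ((ev A (Ph G U L p h x a)) ^ 2 +
          vr A (Ph G U L p h x a)) :=
        Finset.sum_le_sum fun x hx => XiSAux.one hG p hx h
    _ = 1 / (s : ℝ) * (∑ x ∈ U, ∑ a, (ev A (Ph G U L p h x a)) ^ 2 +
          ∑ x ∈ U, ∑ a, vr A (Ph G U L p h x a)) := by
        rw [← Finset.mul_sum, ← Finset.sum_add_distrib]
        congr 1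
        exact Finset.sum_congr rfl fun x _ => Finset.sum_add_distrib
    _ ≤ 1 / (s : ℝ) * (16 * q ^ 4 / (s : ℝ) ^ 5 * nrm A U h +
          12 * P * q * Q0 / (s : ℝ) ^ 3 * nrm A U h) :=
        mul_le_mul_of_nonneg_left (add_le_add h1 h2) (by positivity)
    _ = _ := by
        field_simp

end Pool.Agent.Eps26
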