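import Pool.Agent.Lib.MP_26a019_lc.Eps.Spec

set_option autoImplicit false
set_option linter.unusedVariables false

/-!
# Bounds for the probability that a colour is available
-/

open Finset Classical

namespace Pool.Agent.Eps26

open Pool.Agent.Kempe Pool.Agent.KempeMix

namespace YBAux

variable {V C : Type} [Fintype V] [Fintype C]

theorem base {G : SimpleGraph V} {U : Finset V} {L : V → Finset C} {s : ℕ} (p : V → C)
    (hG : Good G U L s) {v : V} (hv : v ∈ U) (a : C) :
    ev (Col G U L p) (yX G U L ∅ v a) ≤ (Fintype.card C : ℝ) * mg (Col G U L p) v a := by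
  rw [mg_eq hG p hv, ← ev_mul_left]
  refine ev_mono _ fun f _ => ?_
  unfold yX pr
  rw [avX_empty]
  by_cases h : a ∈ av G U L f v
  · rw [if_pos h, if_pos h]
    have h1 := av_pos hG hv f
    have h2 : ((av G U L f v).card : ℝ) ≤ Fintype.card C := by
      exact_mod_cast Finset.card_le_univ _
    rw [mul_one_div, le_div_iff₀ h1, one_mul]
    exact h2
  · rw [if_neg h, if_neg h, mul_zero]

theorem step {G : SimpleGraph V} {U : Finset V} {L : V → Finset C} {s : ℕ} (p : V → C)
    (hG : Good G U L s) {v y : V} (hv : v ∈ U) (hy : y ∈ U) (a : C) (X : Finset V) :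
    ev (Col G U L p) (yX G U L (insert y X) v a) ≤ 2 * ev (Col G U L p) (yX G U L X v a) := by
  have h0 : 0 ≤ ev (Col G U L p) (yX G U L X v a) :=
    ev_nonneg _ fun f _ => yX_nonneg G U L X v a f
  by_cases hyX : y ∈ X
  · rw [Finset.insert_eq_of_mem hyX]
    linarith
  by_cases hyn : y ∈ nb G U v
  · -- the interesting case
    have hind : Ind y (yX G U L (insert y X) v a) :=
      ind_yX G U L _ v a (Finset.mem_insert_self y X)
    have hsplit : ∀ f ∈ Col G U L p, yX G U L X v a f =
        yX G U L (insert y X) v a f -
          (if f y = a then (1 : ℝ) else 0) * yX G U L (insert y X) v a f := by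
      intro f _
      unfold yX
      by_cases ha : a ∈ avX G U L (insert y X) f v
      · rw [if_pos ha]
        by_cases hfy : f y = a
        · have hn : a ∉ avX G U L X f v := by
            intro h
            exact (mem_avX.1 h).2 y hyn hyX hfy
          rw [if_neg hn, if_pos hfy]
          ring
        · have hn : a ∈ avX G U L X f v := by
            rw [mem_avX] at ha ⊢
            refine ⟨ha.1, fun u hu huX => ?_⟩
            by_cases huy : u = y
            · rw [huy]
              exact hfy
            · exact ha.2 u hu (by
                rw [Finset.mem_insert, not_or]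
                exact ⟨huy, huX⟩)
          rw [if_pos hn, if_neg hfy]
          ring
      · have hn : a ∉ avX G U L X f v := fun h =>
          ha (avX_mono G U L (Finset.subset_insert y X) f v h)
        rw [if_neg ha, if_neg hn]
        ring
    have h1 : ev (Col G U L p) (yX G U L X v a) =
        ev (Col G U L p) (yX G U L (insert y X) v a) -
          ev (Col G U L p) (fun f => pr G U L y a f * yX G U L (insert y X) v a f) := by
      rw [ev_congr _ hsplit, ev_sub, ev_color_mul hG p hy a hind]
    have h2 : ev (Col G U L p) (fun f => pr G U L y a f * yX G U L (insert y X) v a f) ≤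
        1 / 2 * ev (Col G U L p) (yX G U L (insert y X) v a) := by
      rw [← ev_mul_left]
      refine ev_mono _ fun f _ => ?_
      refine mul_le_mul_of_nonneg_right ((pr_le hG hy a f).trans ?_) (yX_nonneg _ _ _ _ _ _ _)
      have hs : (2 : ℝ) ≤ s := by exact_mod_cast hG.1
      exact one_div_le_one_div_of_le (by norm_num) hs
    linarith
  · have heq : ∀ f ∈ Col G U L p, yX G U L (insert y X) v a f = yX G U L X v a f := by
      intro f _
      have hav : avX G U L (insert y X) f v = avX G U L X f v := by
        ext c
        rw [mem_avX, mem_avX]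
        refine and_congr_right fun _ => forall₂_congr fun u hu => ?_
        have huy : u ≠ y := fun h => hyn (h ▸ hu)
        rw [Finset.mem_insert, not_or]
        constructor
        · intro h hX
          exact h ⟨huy, hX⟩
        · intro h hX
          exact h hX.2
      unfold yX
      rw [hav]
    rw [ev_congr _ heq]
    linarith

end YBAux

theorem yb_proof (V C : Type) [Fintype V] [Fintype C] : YB V C := by
  intro G U L p s v a hG hv
  have h1 : ∀ x ∈ U, ev (Col G U L p) (yX G U L {x} v a) ≤
      2 * (Fintype.card C : ℝ) * mg (Col G U L p) v a := by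
    intro x hx
    have hs := YBAux.step p hG hv hx a ∅
    have hb := YBAux.base p hG hv a
    rw [insert_empty_eq] at hs
    linarith
  refine ⟨h1, fun x hx y hy => ?_⟩
  have hs := YBAux.step p hG hv hx a {y}
  have hb := h1 y hy
  linarith

end Pool.Agent.Eps26
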