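import Pool.Agent.Lib.MP_26a019_lc.Eps.Final
import Pool.Agent.Lib.MP_26a019_lc.Eps.TwoSite
import Pool.Agent.Lib.MP_26a019_lc.Eps.AprCmp
import Pool.Agent.Lib.MP_26a019_lc.Eps.AprNon
import Pool.Agent.Lib.MP_26a019_lc.Eps.AprAdj
import Pool.Agent.Lib.MP_26a019_lc.Eps.Apriori
import Pool.Agent.Lib.MP_26a019_lc.Eps.ConcA
import Pool.Agent.Lib.MP_26a019_lc.Eps.W4
import Pool.Agent.Lib.MP_26a019_lc.Eps.ConcS
import Pool.Agent.Lib.MP_26a019_lc.Eps.Gen
import Pool.Agent.Lib.MP_26a019_lc.Eps.Dens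
import Pool.Agent.Lib.MP_26a019_lc.Eps.Form
import Pool.Agent.Lib.MP_26a019_lc.Eps.Loc
import Pool.Agent.Lib.MP_26a019_lc.Eps.YB
import Pool.Agent.Lib.MP_26a019_lc.Eps.M0a
import Pool.Agent.Lib.MP_26a019_lc.Eps.Del
import Pool.Agent.Lib.MP_26a019_lc.Eps.M0b
import Pool.Agent.Lib.MP_26a019_lc.Eps.M0c
import Pool.Agent.Lib.MP_26a019_lc.Eps.Tau
import Pool.Agent.Lib.MP_26a019_lc.Eps.XiM
import Pool.Agent.Lib.MP_26a019_lc.Eps.XiMS
import Pool.Agent.Lib.MP_26a019_lc.Eps.XiV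
import Pool.Agent.Lib.MP_26a019_lc.Eps.XiS
import Pool.Agent.Lib.MP_26a019_lc.Eps.RBound
import Pool.Agent.Lib.MP_26a019_lc.Eps.Star
import Pool.Agent.Lib.MP_26a019_lc.Eps.Rec
import Pool.Agent.Lib.MP_26a019_lc.Eps.Bridge
import Pool.Agent.Lib.MP_26a019_lc.Eps.NrmVr
import Pool.Agent.Lib.MP_26a019_lc.Eps.RecP
import Pool.Agent.Lib.MP_26a019_lc.Eps.Num1
import Pool.Agent.Lib.MP_26a019_lc.Eps.Num2

set_option autoImplicit false

/-!
# The main theorem: all modules together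
-/

open Finset Classical

namespace Pool.Agent.Eps26

open Pool.Agent.Kempe Pool.Agent.KempeMix

theorem main_theorem (V C : Type) [Fintype V] [Fintype C] : Main V C :=
  main_of (aprCmp_proof V C) (aprNon_proof V C) (aprAdj_proof V C) (twoSite_proof C)
    (apriori_proof V C) (rec_proof V) (bridge_proof V C) (nrmVr_proof V C) (recP_proof V C)
    (starAll_of (yb_proof V C) (m0a_proof V C) (del_proof V C) (loc_proof V C) (m0b_proof V C)
      (m0c_proof V C) (tau_proof V C) (xiM_proof V C) (xiMS_proof V C) (xiV_proof V C)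
      (w4_proof V) (xiS_proof V C) (rBound_proof V C) (concA_proof V C) (concS_proof V C)
      (gen_proof V C) (dens_proof V C) (form_proof V C) (star_proof V C) num1_proof num2_proof)

end Pool.Agent.Eps26
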