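import Pool.Agent.Lib.MP_26a019_lc.Eps.Spec

set_option autoImplicit false
set_option linter.unusedVariables false

/-!
# Assembly: `StarAll` and `Main` from the modules
-/

open Finset Classical

namespace Pool.Agent.Eps26

open Pool.Agent.Kempe Pool.Agent.KempeMix

variable {V C : Type} [Fintype V] [Fintype C]

theorem dir_nonneg (G : SimpleGraph V) (U : Finset V) (L : V → Finset C) (p : V → C)
    (g : (V → C) → ℝ) : 0 ≤ dir G U L p g :=
  Finset.sum_nonneg fun v _ => ev_nonneg _ fun f _ => sq_nonneg _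

theorem nrm_nonneg (A : Finset (V → C)) (U : Finset V) (h : V → C → ℝ) : 0 ≤ nrm A U h :=
  Finset.sum_nonneg fun v _ => Finset.sum_nonneg fun c _ =>
    mul_nonneg (mg_nonneg A v c) (sq_nonneg _)

theorem poin_mono {G : SimpleGraph V} {U : Finset V} {L : V → Finset C} {p : V → C} {P P' : ℝ}
    (h : P ≤ P') (hP : Poin G U L p P) : Poin G U L p P' := fun g =>
  (hP g).trans (mul_le_mul_of_nonneg_right h (dir_nonneg G U L p g))

theorem starAll_of (hYB : YB V C) (hM0a : M0a V C) (hDel : Del V C) (hLoc : Loc V C)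
    (hM0b : M0b V C) (hM0c : M0c V C) (hTau : Tau V C) (hXiM : XiM V C) (hXiMS : XiMS V C)
    (hXiV : XiV V C) (hW4 : W4 V) (hXiS : XiS V C) (hRB : RBound V C) (hCA : ConcA V C)
    (hCS : ConcS V C) (hGen : Gen V C) (hDens : Dens V C) (hForm : Form V C) (hStar : Star V C)
    (hN1 : Num1) (hN2 : Num2) : StarAll V C := by
  intro G U L p s Q0 hG h2s hw hQ0 hmain hP g
  have hs2 : (2 : ℝ) ≤ (s : ℝ) := by exact_mod_cast hG.1
  have hs0 : (0 : ℝ) < (s : ℝ) := by linarith
  have h2s' : 2 * (s : ℝ) ≤ (Fintype.card C : ℝ) := by exact_mod_cast h2s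
  have hqpos : 0 < Fintype.card C := by have := hG.1; omega
  have hq0 : (0 : ℝ) < (Fintype.card C : ℝ) := by exact_mod_cast hqpos
  set q : ℝ := (Fintype.card C : ℝ) with hq
  have hqs : (2 : ℝ) ≤ q / s := by rw [le_div_iff₀ hs0]; linarith
  set P : ℝ := 112 * (q / s) ^ 5 with hPdef
  have hP1 : (1 : ℝ) ≤ P := by
    have : (1 : ℝ) ≤ (q / s) ^ 5 := one_le_pow₀ (by linarith)
    rw [hPdef]; linarith
  have hP0 : (0 : ℝ) ≤ P := by linarith
  set A := Col G U L p with hA
  have hne : A.Nonempty := Col_nonempty hG p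
  set k := kk A g with hk
  have hcen : Cen A U k := cen_kk hne U g
  have hnn : 0 ≤ nrm A U k := nrm_nonneg A U k
  -- densities
  have hdens : ∀ u ∈ U, ∀ c, mg A u c * ((nb G U u).card : ℝ) * sm G U A u c ≤
      (√(1 - (s : ℝ) / q)) ^ 2 := by
    intro u hu c
    have h1 : (s : ℝ) / q ≤ 1 := by rw [div_le_one hq0]; linarith
    rw [Real.sq_sqrt (by linarith)]
    refine hDens G U L p s u (√(8 * P * Q0 / (s : ℝ) ^ 3) + q / (s : ℝ) ^ 2) (√(P * q)) hG hu h2s
      (by positivity) (by positivity) (fun c => ?_) ?_ ?_ c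
    · refine (hGen G U L p s u c hG hu).trans ?_
      refine add_le_add_left (Real.sqrt_le_sqrt ?_) _ |>.trans (le_of_eq rfl)
      refine (hCS hW4 G U L p s P u c hG hu hP0 hP).trans ?_
      refine div_le_div_of_nonneg_right ?_ (by positivity)
      exact mul_le_mul_of_nonneg_left (hw u hu) (by positivity)
    · exact Real.sqrt_le_sqrt (hCA G U L p s P u hG hu hP0 hP)
    · have := hN1 q s Q0 hs2 h2s' hQ0 hmain
      exact this
  have hform : |TT G U A k| ≤ √(1 - (s : ℝ) / q) * nrm A U k :=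
    hForm G U A k _ (Real.sqrt_nonneg _) hdens
  -- remainder
  have hXi := hXiS hYB hXiM hXiMS hXiV hW4 G U L p s P Q0 k hG hP0 hP hw
  have hTa := hTau G U L p s (32 * P * q ^ 2 / (s : ℝ) ^ 3) k hG (by positivity)
    (fun x hx v hv => hM0c hYB hM0a hDel hLoc hM0b G U L p s P x v k hG hx hv hP1 hP
      (hcen v ((mem_nb.1 hv).1)))
  have hR := hRB hLoc G U L p s P Q0 k hG hP1 hQ0 hP hXi hTa
  set E2 : ℝ := P ^ 2 * (24 * q * Q0 / (s : ℝ) ^ 4 + 80 * q ^ 4 / (s : ℝ) ^ 5) with hE2
  have hE20 : 0 ≤ E2 := by rw [hE2]; positivity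
  have hθ : √(1 - (s : ℝ) / q) ≤ 1 - (s : ℝ) / (2 * q) := by
    have h1 : (s : ℝ) / q ≤ 1 := by rw [div_le_one hq0]; linarith
    have h2 : (s : ℝ) / (2 * q) = (s : ℝ) / q / 2 := by field_simp
    rw [h2]
    refine Real.sqrt_le_iff.2 ⟨by linarith, ?_⟩
    nlinarith [sq_nonneg ((s : ℝ) / q)]
  have hS := hStar G U L p s (√E2) (√(1 - (s : ℝ) / q)) g hG hqpos (Real.sqrt_nonneg _) hθ hform
    (by rw [Real.sq_sqrt hE20]; exact hR)
  rw [Real.sq_sqrt hE20] at hS
  refine hS.trans ?_
  have hn2 := hN2 q s Q0 hs2 h2s' hQ0 hmain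
  have hv := vr_nonneg A g
  have : 8 * (q / s) ^ 2 * E2 ≤ 1 / 2 := hn2
  nlinarith [mul_le_mul_of_nonneg_right this hv]

theorem poin_empty (G : SimpleGraph V) (L : V → Finset C) (p : V → C) (P : ℝ) :
    Poin G ∅ L p P := by
  intro g
  have hA : Col G ∅ L p = {p} := by
    ext f
    rw [mem_Col, Finset.mem_singleton]
    constructor
    · rintro ⟨h, _⟩
      exact funext fun v => h v (Finset.notMem_empty v)
    · rintro rfl
      exact ⟨fun _ _ => rfl, by simp, by simp⟩
  unfold dir vr ev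
  rw [hA]
  simp

theorem main_of (hCmp : AprCmp V C) (hNon : AprNon V C) (hAdj : AprAdj V C) (hTS : TwoSite C)
    (hApr : Apriori V C) (hRec : Rec V) (hBr : Bridge V C) (hNV : NrmVr V C) (hRP : RecP V C)
    (hSA : StarAll V C) : Main V C := by
  have key : ∀ (n : ℕ) (G : SimpleGraph V) (U : Finset V) (L : V → Finset C) (p : V → C) (s : ℕ)
      (Q0 : ℝ), U.card = n → Good G U L s → 2 * s ≤ Fintype.card C →
      (∀ v ∈ U, (w4 G U v : ℝ) ≤ Q0) → 0 ≤ Q0 →
      40000000 * (Q0 + (Fintype.card C : ℝ) ^ 2) * (Fintype.card C : ℝ) ^ 14 ≤ (s : ℝ) ^ 17 →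
      Poin G U L p (16 * ((Fintype.card C : ℝ) / s) ^ 2) := by
    intro n
    induction n using Nat.strong_induction_on with
    | _ n ih =>
    intro G U L p s Q0 hn hG h2s hw hQ0 hmain
    have hs2 : (2 : ℝ) ≤ (s : ℝ) := by exact_mod_cast hG.1
    have hs0 : (0 : ℝ) < (s : ℝ) := by linarith
    have h2s' : 2 * (s : ℝ) ≤ (Fintype.card C : ℝ) := by exact_mod_cast h2s
    set q : ℝ := (Fintype.card C : ℝ) with hq
    have hqs : (2 : ℝ) ≤ q / s := by rw [le_div_iff₀ hs0]; linarith
    -- a priori inequality for all instances of size at most `n`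
    have hall : ∀ (T : Finset V) (L' : V → Finset C) (f : V → C), T.card ≤ n → Good G T L' s →
        (∀ v ∈ T, (w4 G T v : ℝ) ≤ Q0) → Poin G T L' f (112 * (q / s) ^ 5) := by
      intro T L' f hT hGT hwT
      rcases T.eq_empty_or_nonempty with rfl | ⟨v, hv⟩
      · exact poin_empty G L' f _
      · have hc : (T.erase v).card < n := lt_of_lt_of_le (Finset.card_erase_lt_of_mem hv) hT
        have hP := ih _ hc G (T.erase v) L' f s Q0 rfl (good_mono (Finset.erase_subset v T) hGT) h2s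
          (fun u hu => le_trans (by
            have : w4 G (T.erase v) u ≤ w4 G T u := by
              unfold w4
              have hsub := nb_mono (G := G) (Finset.erase_subset v T)
              calc ∑ x ∈ nb G (T.erase v) u, ∑ y ∈ nb G (T.erase v) u,
                    (nb G (T.erase v) x ∩ nb G (T.erase v) y).card
                  ≤ ∑ x ∈ nb G (T.erase v) u, ∑ y ∈ nb G (T.erase v) u,
                    (nb G T x ∩ nb G T y).card :=
                    Finset.sum_le_sum fun x _ => Finset.sum_le_sum fun y _ =>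
                      Finset.card_le_card (Finset.inter_subset_inter (hsub x) (hsub y))
                _ ≤ ∑ x ∈ nb G (T.erase v) u, ∑ y ∈ nb G T u, (nb G T x ∩ nb G T y).card :=
                    Finset.sum_le_sum fun x _ => Finset.sum_le_sum_of_subset (hsub u)
                _ ≤ ∑ x ∈ nb G T u, ∑ y ∈ nb G T u, (nb G T x ∩ nb G T y).card :=
                    Finset.sum_le_sum_of_subset (hsub u)
            exact_mod_cast this) (hwT u (Finset.mem_of_mem_erase hu))) hQ0 hmain
        have h1 := hApr hCmp hNon hAdj hTS G T L' f s v _ hGT hv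
          (by nlinarith [hqs] : (1 : ℝ) ≤ 16 * (q / s) ^ 2) hP
        have h2 : 7 * (q / s) ^ 3 * (16 * (q / s) ^ 2) = 112 * (q / s) ^ 5 := by ring
        rw [h2] at h1
        exact h1
    have hfin := hRP hRec hBr hNV G U L p s (1 / 2) (8 * (q / s) ^ 2) hG (by norm_num)
      (by norm_num) (by positivity) (fun T hT f hf g => by
        obtain ⟨-, hGT, hw4, -⟩ := hBr G U L p s T f hG hT hf
        have hwT : ∀ v ∈ T, (w4 G T v : ℝ) ≤ Q0 := fun v hv =>
          le_trans (by exact_mod_cast hw4 v hv) (hw v (hT hv))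
        exact hSA G T _ f s Q0 hGT h2s hwT hQ0 hmain
          (hall T _ f (hn ▸ Finset.card_le_card hT) hGT hwT) g)
    have h3 : 8 * (q / s) ^ 2 / (1 - 1 / 2) = 16 * (q / s) ^ 2 := by ring
    rw [h3] at hfin
    exact hfin
  intro G U L p s Q0 hG h2s hw hQ0 hmain
  exact key U.card G U L p s Q0 rfl hG h2s hw hQ0 hmain

end Pool.Agent.Eps26
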