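import Pool.Agent.Lib.MP_26a019_lc.Eps.Defs

set_option autoImplicit false
set_option linter.unusedSectionVars false
set_option linter.unusedVariables false

/-!
# Basic library: means, variances, list colourings, heat bath
-/

open Finset Classical

namespace Pool.Agent.Eps26

open Pool.Agent.Kempe Pool.Agent.KempeMix

variable {V C : Type} [Fintype V] [Fintype C]

section mean

variable (A : Finset (V → C))

theorem ev_add (g h : (V → C) → ℝ) : ev A (fun f => g f + h f) = ev A g + ev A h := by
  unfold ev; rw [Finset.sum_add_distrib, add_div]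

theorem ev_sub (g h : (V → C) → ℝ) : ev A (fun f => g f - h f) = ev A g - ev A h := by
  unfold ev; rw [Finset.sum_sub_distrib, sub_div]

theorem ev_neg (g : (V → C) → ℝ) : ev A (fun f => - g f) = - ev A g := by
  unfold ev; rw [Finset.sum_neg_distrib, neg_div]

theorem ev_mul_left (c : ℝ) (g : (V → C) → ℝ) : ev A (fun f => c * g f) = c * ev A g := by
  unfold ev; rw [← Finset.mul_sum, mul_div_assoc]

theorem ev_mul_right (c : ℝ) (g : (V → C) → ℝ) : ev A (fun f => g f * c) = ev A g * c := by
  unfold ev; rw [← Finset.sum_mul]; ring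

theorem ev_const {A : Finset (V → C)} (hA : A.Nonempty) (c : ℝ) : ev A (fun _ => c) = c := by
  unfold ev
  rw [Finset.sum_const, nsmul_eq_mul]
  have : (A.card : ℝ) ≠ 0 := by exact_mod_cast (Finset.card_pos.2 hA).ne'
  field_simp

theorem ev_sum {ι : Type} (s : Finset ι) (g : ι → (V → C) → ℝ) :
    ev A (fun f => ∑ i ∈ s, g i f) = ∑ i ∈ s, ev A (g i) := by
  unfold ev
  rw [Finset.sum_comm, Finset.sum_div]

theorem ev_mono {g h : (V → C) → ℝ} (H : ∀ f ∈ A, g f ≤ h f) : ev A g ≤ ev A h := by
  unfold ev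
  exact div_le_div_of_nonneg_right (Finset.sum_le_sum H) (Nat.cast_nonneg _)

theorem ev_congr {g h : (V → C) → ℝ} (H : ∀ f ∈ A, g f = h f) : ev A g = ev A h := by
  unfold ev
  rw [Finset.sum_congr rfl H]

theorem ev_nonneg {g : (V → C) → ℝ} (H : ∀ f ∈ A, 0 ≤ g f) : 0 ≤ ev A g := by
  unfold ev
  exact div_nonneg (Finset.sum_nonneg H) (Nat.cast_nonneg _)

theorem abs_ev_le (g : (V → C) → ℝ) : |ev A g| ≤ ev A (fun f => |g f|) := by
  unfold ev
  rw [abs_div, Nat.abs_cast]
  exact div_le_div_of_nonneg_right (Finset.abs_sum_le_sum_abs _ _) (Nat.cast_nonneg _)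

theorem ev_cs (g h : (V → C) → ℝ) :
    (ev A (fun f => g f * h f)) ^ 2 ≤ ev A (fun f => (g f) ^ 2) * ev A (fun f => (h f) ^ 2) := by
  unfold ev
  rw [div_pow, div_mul_div_comm, ← sq]
  exact div_le_div_of_nonneg_right (Finset.sum_mul_sq_le_sq_mul_sq _ _ _) (sq_nonneg _)

theorem abs_ev_mul_le (g h : (V → C) → ℝ) :
    |ev A (fun f => g f * h f)| ≤
      √(ev A (fun f => (g f) ^ 2)) * √(ev A (fun f => (h f) ^ 2)) := by
  rw [← Real.sqrt_mul (ev_nonneg A fun f _ => sq_nonneg _)]
  exact Real.abs_le_sqrt (ev_cs A g h)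

theorem ev_sq_le {A : Finset (V → C)} (hA : A.Nonempty) (g : (V → C) → ℝ) :
    (ev A g) ^ 2 ≤ ev A (fun f => (g f) ^ 2) := by
  have h := ev_cs A g (fun _ => 1)
  simp only [mul_one, one_pow] at h
  rwa [ev_const hA, mul_one] at h

theorem vr_nonneg (g : (V → C) → ℝ) : 0 ≤ vr A g := ev_nonneg A fun f _ => sq_nonneg _

/-- `E (g - c)^2 = Var g + (E g - c)^2` -/
theorem ev_sub_sq {A : Finset (V → C)} (hA : A.Nonempty) (g : (V → C) → ℝ) (c : ℝ) :
    ev A (fun f => (g f - c) ^ 2) = vr A g + (ev A g - c) ^ 2 := by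
  have h1 : ev A (fun f => (g f - c) ^ 2) =
      ev A (fun f => (g f - ev A g) ^ 2 + (2 * (ev A g - c)) * (g f - ev A g) +
        (ev A g - c) ^ 2) := ev_congr A fun f _ => by ring
  rw [h1, ev_add, ev_add, ev_mul_left, ev_sub, ev_const hA, ev_const hA]
  unfold vr
  ring

theorem vr_le {A : Finset (V → C)} (hA : A.Nonempty) (g : (V → C) → ℝ) (c : ℝ) :
    vr A g ≤ ev A (fun f => (g f - c) ^ 2) := by
  rw [ev_sub_sq hA]; nlinarith [sq_nonneg (ev A g - c)]

theorem vr_eq {A : Finset (V → C)} (hA : A.Nonempty) (g : (V → C) → ℝ) :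
    vr A g = ev A (fun f => (g f) ^ 2) - (ev A g) ^ 2 := by
  have h := ev_sub_sq hA g 0
  simp only [sub_zero] at h
  linarith

theorem vr_le_sq {A : Finset (V → C)} (hA : A.Nonempty) (g : (V → C) → ℝ) :
    vr A g ≤ ev A (fun f => (g f) ^ 2) := by
  rw [vr_eq hA]; nlinarith [sq_nonneg (ev A g)]

theorem vr_add_const {A : Finset (V → C)} (hA : A.Nonempty) (g : (V → C) → ℝ) (c : ℝ) :
    vr A (fun f => g f + c) = vr A g := by
  unfold vr
  rw [ev_add, ev_const hA]
  exact ev_congr A fun f _ => by ring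

theorem vr_congr {g h : (V → C) → ℝ} (H : ∀ f ∈ A, g f = h f) : vr A g = vr A h := by
  unfold vr
  rw [ev_congr A H]
  exact ev_congr A fun f hf => by rw [H f hf]

/-- `E (g (h - E h)) ≤ sd g * sd h` -/
theorem abs_ev_mul_sub_le {A : Finset (V → C)} (hA : A.Nonempty) (g h : (V → C) → ℝ) :
    |ev A (fun f => g f * h f) - ev A g * ev A h| ≤ √(vr A g) * √(vr A h) := by
  have h1 : ev A (fun f => g f * h f) - ev A g * ev A h =
      ev A (fun f => (g f - ev A g) * (h f - ev A h)) := by
    have : ev A (fun f => (g f - ev A g) * (h f - ev A h)) =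
        ev A (fun f => g f * h f - (ev A h) * g f - (ev A g) * h f + ev A g * ev A h) :=
      ev_congr A fun f _ => by ring
    rw [this, ev_add, ev_sub, ev_sub, ev_mul_left, ev_mul_left, ev_const hA]
    ring
  rw [h1]
  exact abs_ev_mul_le A _ _

end mean

section structure_

theorem mem_nb {G : SimpleGraph V} {U : Finset V} {v u : V} :
    u ∈ nb G U v ↔ u ∈ U ∧ G.Adj v u := by
  unfold nb; rw [Finset.mem_filter]

theorem mem_nb_comm {G : SimpleGraph V} {U : Finset V} {v u : V} (hv : v ∈ U)
    (h : u ∈ nb G U v) : v ∈ nb G U u := mem_nb.2 ⟨hv, (mem_nb.1 h).2.symm⟩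

theorem nb_subset (G : SimpleGraph V) (U : Finset V) (v : V) : nb G U v ⊆ U :=
  Finset.filter_subset _ _

theorem nb_mono {G : SimpleGraph V} {U' U : Finset V} (h : U' ⊆ U) (v : V) :
    nb G U' v ⊆ nb G U v := Finset.filter_subset_filter _ h

theorem self_notMem_nb (G : SimpleGraph V) (U : Finset V) (v : V) : v ∉ nb G U v := fun h =>
  G.loopless.irrefl v (mem_nb.1 h).2

/-- `∑_{v∈U} ∑_{u∈nb v} F v u = ∑_{v∈U} ∑_{u∈nb v} F u v` -/
theorem sum_nb_comm (G : SimpleGraph V) (U : Finset V) (F : V → V → ℝ) :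
    ∑ v ∈ U, ∑ u ∈ nb G U v, F v u = ∑ v ∈ U, ∑ u ∈ nb G U v, F u v := by
  unfold nb
  simp only [Finset.sum_filter]
  rw [Finset.sum_comm]
  refine Finset.sum_congr rfl fun v _ => Finset.sum_congr rfl fun u _ => ?_
  by_cases h : G.Adj u v
  · rw [if_pos h, if_pos h.symm]
  · rw [if_neg h, if_neg fun h' => h h'.symm]

theorem card_nb_le_card {G : SimpleGraph V} {U : Finset V} {L : V → Finset C} {s : ℕ}
    (hG : Good G U L s) {v : V} (hv : v ∈ U) : (nb G U v).card + s ≤ Fintype.card C :=
  (hG.2 v hv).trans (Finset.card_le_univ _)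

theorem mem_av {G : SimpleGraph V} {U : Finset V} {L : V → Finset C} {f : V → C} {v : V} {c : C} :
    c ∈ av G U L f v ↔ c ∈ L v ∧ ∀ u ∈ nb G U v, f u ≠ c := by
  unfold av; rw [Finset.mem_filter]

theorem mem_avX {G : SimpleGraph V} {U : Finset V} {L : V → Finset C} {X : Finset V} {f : V → C}
    {v : V} {c : C} : c ∈ avX G U L X f v ↔ c ∈ L v ∧ ∀ u ∈ nb G U v, u ∉ X → f u ≠ c := by
  unfold avX; rw [Finset.mem_filter]

theorem avX_empty (G : SimpleGraph V) (U : Finset V) (L : V → Finset C) (f : V → C) (v : V) :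
    avX G U L ∅ f v = av G U L f v := by
  ext c; rw [mem_avX, mem_av]; simp

theorem avX_mono (G : SimpleGraph V) (U : Finset V) (L : V → Finset C) {X Y : Finset V}
    (h : X ⊆ Y) (f : V → C) (v : V) : avX G U L X f v ⊆ avX G U L Y f v := by
  intro c hc
  rw [mem_avX] at hc ⊢
  exact ⟨hc.1, fun u hu hY => hc.2 u hu fun hX => hY (h hX)⟩

theorem av_subset_avX (G : SimpleGraph V) (U : Finset V) (L : V → Finset C) (X : Finset V)
    (f : V → C) (v : V) : av G U L f v ⊆ avX G U L X f v := by
  rw [← avX_empty]; exact avX_mono G U L (Finset.empty_subset _) f v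

/-- general lower bound for the number of available colours -/
theorem card_avX_ge {G : SimpleGraph V} {U : Finset V} {L : V → Finset C} {s : ℕ}
    (hG : Good G U L s) {v : V} (hv : v ∈ U) (X : Finset V) (f : V → C) :
    s + ((nb G U v) ∩ X).card ≤ (avX G U L X f v).card := by
  have h1 : (L v) \ (((nb G U v) \ X).image f) ⊆ avX G U L X f v := by
    intro c hc
    rw [Finset.mem_sdiff] at hc
    rw [mem_avX]
    refine ⟨hc.1, fun u hu hX h => hc.2 ?_⟩
    exact Finset.mem_image.2 ⟨u, Finset.mem_sdiff.2 ⟨hu, hX⟩, h⟩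
  have h2 := Finset.card_le_card h1
  have h3 : (L v).card - (((nb G U v) \ X).image f).card ≤
      ((L v) \ (((nb G U v) \ X).image f)).card := Finset.le_card_sdiff _ _
  have h4 : (((nb G U v) \ X).image f).card ≤ ((nb G U v) \ X).card := Finset.card_image_le
  have h5 : ((nb G U v) \ X).card + ((nb G U v) ∩ X).card = (nb G U v).card :=
    Finset.card_sdiff_add_card_inter _ _
  have h6 := hG.2 v hv
  omega

theorem card_avX {G : SimpleGraph V} {U : Finset V} {L : V → Finset C} {s : ℕ}
    (hG : Good G U L s) {v : V} (hv : v ∈ U) (X : Finset V) (f : V → C) :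
    s ≤ (avX G U L X f v).card := le_trans (Nat.le_add_right _ _) (card_avX_ge hG hv X f)

theorem card_av {G : SimpleGraph V} {U : Finset V} {L : V → Finset C} {s : ℕ}
    (hG : Good G U L s) {v : V} (hv : v ∈ U) (f : V → C) : s ≤ (av G U L f v).card := by
  rw [← avX_empty]; exact card_avX hG hv ∅ f

theorem card_avX_nb {G : SimpleGraph V} {U : Finset V} {L : V → Finset C} {s : ℕ}
    (hG : Good G U L s) {v x : V} (hv : v ∈ U) (hx : x ∈ nb G U v) (f : V → C) :
    s + 1 ≤ (avX G U L {x} f v).card := by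
  have h := card_avX_ge hG hv {x} f
  rw [Finset.inter_singleton_of_mem hx, Finset.card_singleton] at h
  exact h

theorem av_pos {G : SimpleGraph V} {U : Finset V} {L : V → Finset C} {s : ℕ}
    (hG : Good G U L s) {v : V} (hv : v ∈ U) (f : V → C) :
    (0 : ℝ) < ((av G U L f v).card : ℝ) := by
  have h1 := card_av hG hv f
  have h2 := hG.1
  exact_mod_cast (by omega : 0 < (av G U L f v).card)

theorem good_mono {G : SimpleGraph V} {U' U : Finset V} {L : V → Finset C} {s : ℕ}
    (h : U' ⊆ U) (hG : Good G U L s) : Good G U' L s :=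
  ⟨hG.1, fun v hv => by
    have h1 := hG.2 v (h hv)
    have h2 := Finset.card_le_card (nb_mono (G := G) h v)
    omega⟩

/-- With the neighbour `x` of `v` taken into account. -/
theorem av_eq_erase {G : SimpleGraph V} {U : Finset V} {L : V → Finset C} {f : V → C} {v x : V}
    (hx : x ∈ nb G U v) : av G U L f v = (avX G U L {x} f v).erase (f x) := by
  ext c
  rw [mem_av, Finset.mem_erase, mem_avX]
  constructor
  · rintro ⟨h1, h2⟩
    exact ⟨fun h => h2 x hx h.symm, h1, fun u hu _ => h2 u hu⟩
  · rintro ⟨h1, h2, h3⟩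
    refine ⟨h2, fun u hu h => ?_⟩
    by_cases hux : u = x
    · subst hux; exact h1 h.symm
    · exact h3 u hu (by simpa using hux) h

theorem av_update_self (G : SimpleGraph V) (U : Finset V) (L : V → Finset C) (f : V → C) (v : V)
    (c : C) : av G U L (Function.update f v c) v = av G U L f v := by
  ext a
  rw [mem_av, mem_av]
  refine and_congr_right fun _ => forall₂_congr fun u hu => ?_
  have : u ≠ v := fun h => self_notMem_nb G U v (h ▸ hu)
  rw [Function.update_of_ne this]

theorem avX_update_self (G : SimpleGraph V) (U : Finset V) (L : V → Finset C) (X : Finset V)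
    (f : V → C) (v : V) (c : C) :
    avX G U L X (Function.update f v c) v = avX G U L X f v := by
  ext a
  rw [mem_avX, mem_avX]
  refine and_congr_right fun _ => forall₂_congr fun u hu => ?_
  have : u ≠ v := fun h => self_notMem_nb G U v (h ▸ hu)
  rw [Function.update_of_ne this]

theorem avX_update_of_mem (G : SimpleGraph V) (U : Finset V) (L : V → Finset C) {X : Finset V}
    (f : V → C) (v : V) {x : V} (hx : x ∈ X) (c : C) :
    avX G U L X (Function.update f x c) v = avX G U L X f v := by
  ext a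
  rw [mem_avX, mem_avX]
  refine and_congr_right fun _ => forall₂_congr fun u _ => ?_
  refine forall_congr' fun hu => ?_
  have : u ≠ x := fun h => hu (h ▸ hx)
  rw [Function.update_of_ne this]

theorem avX_update_of_notMem (G : SimpleGraph V) (U : Finset V) (L : V → Finset C) (X : Finset V)
    (f : V → C) (v : V) {x : V} (hx : x ∉ nb G U v) (c : C) :
    avX G U L X (Function.update f x c) v = avX G U L X f v := by
  ext a
  rw [mem_avX, mem_avX]
  refine and_congr_right fun _ => forall₂_congr fun u hu => ?_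
  have : u ≠ x := fun h => hx (h ▸ hu)
  rw [Function.update_of_ne this]

theorem av_update_of_notMem (G : SimpleGraph V) (U : Finset V) (L : V → Finset C)
    (f : V → C) (v : V) {x : V} (hx : x ∉ nb G U v) (c : C) :
    av G U L (Function.update f x c) v = av G U L f v := by
  rw [← avX_empty, ← avX_empty, avX_update_of_notMem G U L ∅ f v hx c]

theorem mem_Col {G : SimpleGraph V} {U : Finset V} {L : V → Finset C} {p f : V → C} :
    f ∈ Col G U L p ↔ (∀ v, v ∉ U → f v = p v) ∧ (∀ v ∈ U, f v ∈ L v) ∧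
      ∀ u ∈ U, ∀ w ∈ U, G.Adj u w → f u ≠ f w := by
  unfold Col; simp

theorem self_mem_av {G : SimpleGraph V} {U : Finset V} {L : V → Finset C} {p f : V → C}
    (hf : f ∈ Col G U L p) {v : V} (hv : v ∈ U) : f v ∈ av G U L f v := by
  rw [mem_Col] at hf
  rw [mem_av]
  exact ⟨hf.2.1 v hv, fun u hu => hf.2.2 u (mem_nb.1 hu).1 v hv (mem_nb.1 hu).2.symm⟩

theorem update_mem {G : SimpleGraph V} {U : Finset V} {L : V → Finset C} {p f : V → C}
    (hf : f ∈ Col G U L p) {v : V} (hv : v ∈ U) {c : C} (hc : c ∈ av G U L f v) :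
    Function.update f v c ∈ Col G U L p := by
  rw [mem_Col] at hf ⊢
  rw [mem_av] at hc
  refine ⟨fun u hu => ?_, fun u hu => ?_, fun u hu w hw huw => ?_⟩
  · have : u ≠ v := fun h => hu (h ▸ hv)
    rw [Function.update_of_ne this]; exact hf.1 u hu
  · by_cases h : u = v
    · subst h; rw [Function.update_self]; exact hc.1
    · rw [Function.update_of_ne h]; exact hf.2.1 u hu
  · by_cases h1 : u = v
    · subst h1
      have h2 : w ≠ u := huw.ne'
      rw [Function.update_self, Function.update_of_ne h2]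
      exact (hc.2 w (mem_nb.2 ⟨hw, huw⟩)).symm
    · by_cases h2 : w = v
      · subst h2
        rw [Function.update_self, Function.update_of_ne h1]
        exact hc.2 u (mem_nb.2 ⟨hu, huw.symm⟩)
      · rw [Function.update_of_ne h1, Function.update_of_ne h2]
        exact hf.2.2 u hu w hw huw

/-- extension of a colouring of `G[U \ v]` -/
theorem update_mem_of_erase {G : SimpleGraph V} {U : Finset V} {L : V → Finset C} {p f : V → C}
    {v : V} (hv : v ∈ U) (hf : f ∈ Col G (U.erase v) L p) {c : C} (hc : c ∈ av G U L f v) :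
    Function.update f v c ∈ Col G U L p := by
  rw [mem_Col] at hf ⊢
  rw [mem_av] at hc
  refine ⟨fun u hu => ?_, fun u hu => ?_, fun u hu w hw huw => ?_⟩
  · have : u ≠ v := fun h => hu (h ▸ hv)
    rw [Function.update_of_ne this]; exact hf.1 u fun h => hu (Finset.mem_of_mem_erase h)
  · by_cases h : u = v
    · subst h; rw [Function.update_self]; exact hc.1
    · rw [Function.update_of_ne h]; exact hf.2.1 u (Finset.mem_erase.2 ⟨h, hu⟩)
  · by_cases h1 : u = v
    · subst h1
      have h2 : w ≠ u := huw.ne'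
      rw [Function.update_self, Function.update_of_ne h2]
      exact (hc.2 w (mem_nb.2 ⟨hw, huw⟩)).symm
    · by_cases h2 : w = v
      · subst h2
        rw [Function.update_self, Function.update_of_ne h1]
        exact hc.2 u (mem_nb.2 ⟨hu, huw.symm⟩)
      · rw [Function.update_of_ne h1, Function.update_of_ne h2]
        exact hf.2.2 u (Finset.mem_erase.2 ⟨h1, hu⟩) w (Finset.mem_erase.2 ⟨h2, hw⟩) huw

/-- restriction of a colouring of `G[U]` to `U \ v` -/
theorem update_mem_erase {G : SimpleGraph V} {U : Finset V} {L : V → Finset C} {p f : V → C}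
    {v : V} (hf : f ∈ Col G U L p) :
    Function.update f v (p v) ∈ Col G (U.erase v) L p := by
  rw [mem_Col] at hf ⊢
  refine ⟨fun u hu => ?_, fun u hu => ?_, fun u hu w hw huw => ?_⟩
  · by_cases h : u = v
    · subst h; rw [Function.update_self]
    · rw [Function.update_of_ne h]
      exact hf.1 u fun h' => hu (Finset.mem_erase.2 ⟨h, h'⟩)
  · rw [Finset.mem_erase] at hu
    rw [Function.update_of_ne hu.1]; exact hf.2.1 u hu.2
  · rw [Finset.mem_erase] at hu hw
    rw [Function.update_of_ne hu.1, Function.update_of_ne hw.1]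
    exact hf.2.2 u hu.2 w hw.2 huw

/-- sums over colourings of `G[U]` through colourings of `G[U \ v]` -/
theorem sum_Col_erase (G : SimpleGraph V) (U : Finset V) (L : V → Finset C) (p : V → C) {v : V}
    (hv : v ∈ U) (F : (V → C) → ℝ) :
    ∑ f ∈ Col G U L p, F f =
      ∑ f ∈ Col G (U.erase v) L p, ∑ c ∈ av G U L f v, F (Function.update f v c) := by
  rw [Finset.sum_sigma' (Col G (U.erase v) L p) (fun f => av G U L f v)
    (fun f c => F (Function.update f v c))]
  refine Finset.sum_bij' (fun f _ => (⟨Function.update f v (p v), f v⟩ : (_ : V → C) × C))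
    (fun x _ => Function.update x.1 v x.2) ?_ ?_ ?_ ?_ ?_
  · intro f hf
    rw [Finset.mem_sigma]
    refine ⟨update_mem_erase hf, ?_⟩
    have := self_mem_av hf hv
    simpa only [av_update_self] using this
  · rintro ⟨f, c⟩ hx
    rw [Finset.mem_sigma] at hx
    exact update_mem_of_erase hv hx.1 hx.2
  · intro f _
    simp
  · rintro ⟨f, c⟩ hx
    rw [Finset.mem_sigma] at hx
    have h1 : f v = p v := (mem_Col.1 hx.1).1 v (Finset.notMem_erase v U)
    simp only [Function.update_idem, Function.update_self]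
    rw [← h1, Function.update_eq_self]
  · intro f _
    simp

theorem Col_nonempty {G : SimpleGraph V} {U : Finset V} {L : V → Finset C} {s : ℕ}
    (hG : Good G U L s) (p : V → C) : (Col G U L p).Nonempty := by
  induction U using Finset.induction_on with
  | empty => exact ⟨p, mem_Col.2 ⟨fun _ _ => rfl, by simp, by simp⟩⟩
  | insert v U hv ih =>
    have h1 : (insert v U).erase v = U := Finset.erase_insert hv
    obtain ⟨f, hf⟩ := ih (good_mono (Finset.subset_insert v U) hG)
    have h2 := card_av hG (Finset.mem_insert_self v U) f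
    have h3 := hG.1
    obtain ⟨c, hc⟩ : (av G (insert v U) L f v).Nonempty := Finset.card_pos.1 (by omega)
    refine ⟨Function.update f v c, update_mem_of_erase (Finset.mem_insert_self v U) ?_ hc⟩
    rw [h1]; exact hf

end structure_

section heatbath

theorem ind_hb (G : SimpleGraph V) (U : Finset V) (L : V → Finset C) (v : V)
    (g : (V → C) → ℝ) : Ind v (hb G U L v g) := by
  intro f c
  unfold hb
  rw [av_update_self]
  simp only [Function.update_idem]

theorem ind_pr (G : SimpleGraph V) (U : Finset V) (L : V → Finset C) (v : V) (c : C) :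
    Ind v (pr G U L v c) := by
  intro f a
  unfold pr
  rw [av_update_self]

theorem ind_hbh (G : SimpleGraph V) (U : Finset V) (L : V → Finset C) (h : V → C → ℝ) (v : V) :
    Ind v (hbh G U L h v) := by
  intro f c
  unfold hbh
  rw [av_update_self]

theorem hb_ind {G : SimpleGraph V} {U : Finset V} {L : V → Finset C} {s : ℕ}
    (hG : Good G U L s) {v : V} (hv : v ∈ U) {φ : (V → C) → ℝ} (hφ : Ind v φ) (f : V → C) :
    hb G U L v φ f = φ f := by
  unfold hb
  rw [Finset.sum_congr rfl fun c _ => hφ f c, Finset.sum_const, nsmul_eq_mul]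
  have := (av_pos hG hv f).ne'
  field_simp

theorem hb_ind_mul (G : SimpleGraph V) (U : Finset V) (L : V → Finset C) (v : V)
    {φ : (V → C) → ℝ} (hφ : Ind v φ) (g : (V → C) → ℝ) (f : V → C) :
    hb G U L v (fun f' => φ f' * g f') f = φ f * hb G U L v g f := by
  unfold hb
  simp only [hφ f]
  rw [← Finset.mul_sum, mul_div_assoc]

theorem hb_add (G : SimpleGraph V) (U : Finset V) (L : V → Finset C) (v : V)
    (g h : (V → C) → ℝ) (f : V → C) :
    hb G U L v (fun f' => g f' + h f') f = hb G U L v g f + hb G U L v h f := by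
  unfold hb; rw [Finset.sum_add_distrib, add_div]

theorem hb_single (G : SimpleGraph V) (U : Finset V) (L : V → Finset C) (h : V → C → ℝ) (v : V)
    (f : V → C) : hb G U L v (fun f' => h v (f' v)) f = hbh G U L h v f := by
  unfold hb hbh
  simp only [Function.update_self]

theorem hb_indicator (G : SimpleGraph V) (U : Finset V) (L : V → Finset C) (v : V) (c : C)
    (f : V → C) : hb G U L v (fun f' => if f' v = c then (1 : ℝ) else 0) f = pr G U L v c f := by
  unfold hb pr
  simp only [Function.update_self]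
  rw [Finset.sum_ite_eq']
  split_ifs <;> simp

/-- reversibility -/
theorem sum_rev (G : SimpleGraph V) (U : Finset V) (L : V → Finset C) (p : V → C) {v : V}
    (hv : v ∈ U) (F : (V → C) → (V → C) → ℝ) :
    ∑ f ∈ Col G U L p, (∑ c ∈ av G U L f v, F f (Function.update f v c)) /
        ((av G U L f v).card : ℝ) =
      ∑ f ∈ Col G U L p, (∑ c ∈ av G U L f v, F (Function.update f v c) f) /
        ((av G U L f v).card : ℝ) := by
  have h1 : ∀ H : (V → C) → C → ℝ, ∑ f ∈ Col G U L p, (∑ c ∈ av G U L f v, H f c) /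
      ((av G U L f v).card : ℝ) = ∑ x ∈ (Col G U L p).sigma (fun f => av G U L f v),
        H x.1 x.2 / ((av G U L x.1 v).card : ℝ) := by
    intro H
    rw [Finset.sum_sigma]
    exact Finset.sum_congr rfl fun f _ => by rw [Finset.sum_div]
  rw [h1 (fun f c => F f (Function.update f v c)), h1 (fun f c => F (Function.update f v c) f)]
  refine Finset.sum_bij' (fun x _ => (⟨Function.update x.1 v x.2, x.1 v⟩ : (_ : V → C) × C))
    (fun x _ => (⟨Function.update x.1 v x.2, x.1 v⟩ : (_ : V → C) × C)) ?_ ?_ ?_ ?_ ?_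
  · rintro ⟨f, c⟩ hx
    rw [Finset.mem_sigma] at hx ⊢
    refine ⟨update_mem hx.1 hv hx.2, ?_⟩
    simpa only [av_update_self] using self_mem_av hx.1 hv
  · rintro ⟨f, c⟩ hx
    rw [Finset.mem_sigma] at hx ⊢
    refine ⟨update_mem hx.1 hv hx.2, ?_⟩
    simpa only [av_update_self] using self_mem_av hx.1 hv
  · rintro ⟨f, c⟩ _
    simp
  · rintro ⟨f, c⟩ _
    simp
  · rintro ⟨f, c⟩ _
    simp only [av_update_self, Function.update_idem, Function.update_eq_self]

theorem ev_rev (G : SimpleGraph V) (U : Finset V) (L : V → Finset C) (p : V → C) {v : V}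
    (hv : v ∈ U) (F : (V → C) → (V → C) → ℝ) :
    ev (Col G U L p) (fun f => (∑ c ∈ av G U L f v, F f (Function.update f v c)) /
        ((av G U L f v).card : ℝ)) =
      ev (Col G U L p) (fun f => (∑ c ∈ av G U L f v, F (Function.update f v c) f) /
        ((av G U L f v).card : ℝ)) := by
  unfold ev
  rw [sum_rev G U L p hv F]

theorem ev_mul_hb {G : SimpleGraph V} {U : Finset V} {L : V → Finset C} (p : V → C) {v : V}
    (hv : v ∈ U) (g h : (V → C) → ℝ) :
    ev (Col G U L p) (fun f => g f * hb G U L v h f) =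
      ev (Col G U L p) (fun f => hb G U L v g f * h f) := by
  have := ev_rev G U L p hv (fun f f' => g f * h f')
  refine Eq.trans (ev_congr _ fun f _ => ?_) (this.trans (ev_congr _ fun f _ => ?_))
  · unfold hb; rw [← Finset.mul_sum, mul_div_assoc]
  · unfold hb; rw [← Finset.sum_mul]; ring

theorem ev_hb {G : SimpleGraph V} {U : Finset V} {L : V → Finset C} {s : ℕ}
    (hG : Good G U L s) (p : V → C) {v : V} (hv : v ∈ U) (g : (V → C) → ℝ) :
    ev (Col G U L p) (hb G U L v g) = ev (Col G U L p) g := by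
  have h := ev_mul_hb (G := G) (L := L) p hv (fun _ => (1 : ℝ)) g
  have h2 : ∀ f, hb G U L v (fun _ => (1 : ℝ)) f = 1 := fun f => hb_ind hG hv (fun _ _ => rfl) f
  simp only [one_mul, h2] at h
  exact h

/-- if `φ` does not depend on `f v`, `g` may be replaced by its heat bath average -/
theorem ev_ind_mul {G : SimpleGraph V} {U : Finset V} {L : V → Finset C} {s : ℕ}
    (hG : Good G U L s) (p : V → C) {v : V} (hv : v ∈ U) {φ : (V → C) → ℝ} (hφ : Ind v φ)
    (g : (V → C) → ℝ) :
    ev (Col G U L p) (fun f => g f * φ f) =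
      ev (Col G U L p) (fun f => hb G U L v g f * φ f) := by
  rw [← ev_mul_hb p hv]
  exact ev_congr _ fun f _ => by rw [hb_ind hG hv hφ]

theorem ev_color_mul {G : SimpleGraph V} {U : Finset V} {L : V → Finset C} {s : ℕ}
    (hG : Good G U L s) (p : V → C) {v : V} (hv : v ∈ U) (c : C) {φ : (V → C) → ℝ}
    (hφ : Ind v φ) :
    ev (Col G U L p) (fun f => (if f v = c then (1 : ℝ) else 0) * φ f) =
      ev (Col G U L p) (fun f => pr G U L v c f * φ f) := by
  rw [ev_ind_mul hG p hv hφ]
  exact ev_congr _ fun f _ => by rw [hb_indicator]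

/-- orthogonality: `E (g - φ)^2 = E (g - P_v g)^2 + E (P_v g - φ)^2` -/
theorem ev_sq_split {G : SimpleGraph V} {U : Finset V} {L : V → Finset C} {s : ℕ}
    (hG : Good G U L s) (p : V → C) {v : V} (hv : v ∈ U) {φ : (V → C) → ℝ} (hφ : Ind v φ)
    (g : (V → C) → ℝ) :
    ev (Col G U L p) (fun f => (g f - φ f) ^ 2) =
      ev (Col G U L p) (fun f => (g f - hb G U L v g f) ^ 2) +
        ev (Col G U L p) (fun f => (hb G U L v g f - φ f) ^ 2) := by
  have hi : Ind v (fun f => hb G U L v g f - φ f) := fun f c => by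
    simp only [ind_hb G U L v g f c, hφ f c]
  have h0 := ev_ind_mul hG p hv hi g
  have h1 : ev (Col G U L p) (fun f => (g f - hb G U L v g f) * (hb G U L v g f - φ f)) = 0 := by
    have : ev (Col G U L p) (fun f => (g f - hb G U L v g f) * (hb G U L v g f - φ f)) =
        ev (Col G U L p) (fun f => g f * (hb G U L v g f - φ f) -
          hb G U L v g f * (hb G U L v g f - φ f)) := ev_congr _ fun f _ => by ring
    rw [this, ev_sub, h0, sub_self]
  have h2 : ev (Col G U L p) (fun f => (g f - φ f) ^ 2) =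
      ev (Col G U L p) (fun f => (g f - hb G U L v g f) ^ 2 + (hb G U L v g f - φ f) ^ 2 +
        2 * ((g f - hb G U L v g f) * (hb G U L v g f - φ f))) := ev_congr _ fun f _ => by ring
  rw [h2, ev_add, ev_add, ev_mul_left, h1]
  ring

theorem ev_sub_hb_sq_le {G : SimpleGraph V} {U : Finset V} {L : V → Finset C} {s : ℕ}
    (hG : Good G U L s) (p : V → C) {v : V} (hv : v ∈ U) {φ : (V → C) → ℝ} (hφ : Ind v φ)
    (g : (V → C) → ℝ) :
    ev (Col G U L p) (fun f => (g f - hb G U L v g f) ^ 2) ≤
      ev (Col G U L p) (fun f => (g f - φ f) ^ 2) := by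
  rw [ev_sq_split hG p hv hφ g]
  exact le_add_of_nonneg_right (ev_nonneg _ fun f _ => sq_nonneg _)

theorem ev_hb_sq_le {G : SimpleGraph V} {U : Finset V} {L : V → Finset C} {s : ℕ}
    (hG : Good G U L s) (p : V → C) {v : V} (hv : v ∈ U) (g : (V → C) → ℝ) :
    ev (Col G U L p) (fun f => (g f - hb G U L v g f) ^ 2) ≤
      ev (Col G U L p) (fun f => (g f) ^ 2) := by
  have := ev_sub_hb_sq_le hG p hv (φ := fun _ => 0) (fun _ _ => rfl) g
  simpa using this

/-- mean over the recolourings of `v` -/
theorem ev_sub_hb_sq_le_avg {G : SimpleGraph V} {U : Finset V} {L : V → Finset C} {s : ℕ}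
    (hG : Good G U L s) (p : V → C) {v : V} (hv : v ∈ U) (g : (V → C) → ℝ) :
    ev (Col G U L p) (fun f => (g f - hb G U L v g f) ^ 2) ≤
      ev (Col G U L p) (fun f => (∑ c ∈ av G U L f v, (g f - g (Function.update f v c)) ^ 2) /
        ((av G U L f v).card : ℝ)) := by
  refine ev_mono _ fun f _ => ?_
  have hp := av_pos hG hv f
  have h1 : g f - hb G U L v g f =
      (∑ c ∈ av G U L f v, (g f - g (Function.update f v c))) / ((av G U L f v).card : ℝ) := by
    unfold hb
    rw [Finset.sum_sub_distrib, Finset.sum_const, nsmul_eq_mul]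
    field_simp
  rw [h1, div_pow, div_le_div_iff₀ (by positivity) hp]
  have h2 := sq_sum_le_card_mul_sum_sq (s := av G U L f v)
    (f := fun c => g f - g (Function.update f v c))
  nlinarith [h2, hp]

theorem pr_nonneg (G : SimpleGraph V) (U : Finset V) (L : V → Finset C) (v : V) (c : C)
    (f : V → C) : 0 ≤ pr G U L v c f := by
  unfold pr; split_ifs <;> positivity

theorem pr_le {G : SimpleGraph V} {U : Finset V} {L : V → Finset C} {s : ℕ}
    (hG : Good G U L s) {v : V} (hv : v ∈ U) (c : C) (f : V → C) :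
    pr G U L v c f ≤ 1 / (s : ℝ) := by
  have h1 : (s : ℝ) ≤ ((av G U L f v).card : ℝ) := by exact_mod_cast card_av hG hv f
  have h2 : (0 : ℝ) < s := by have := hG.1; exact_mod_cast (by omega : 0 < s)
  unfold pr
  split_ifs
  · exact one_div_le_one_div_of_le h2 h1
  · positivity

theorem sum_pr {G : SimpleGraph V} {U : Finset V} {L : V → Finset C} {s : ℕ}
    (hG : Good G U L s) {v : V} (hv : v ∈ U) (f : V → C) : ∑ c, pr G U L v c f = 1 := by
  unfold pr
  rw [← Finset.sum_filter, Finset.filter_mem_eq_inter, Finset.univ_inter, Finset.sum_const,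
    nsmul_eq_mul]
  have := (av_pos hG hv f).ne'
  field_simp

theorem sum_pr_mul (G : SimpleGraph V) (U : Finset V) (L : V → Finset C) (v : V)
    (f : V → C) (h : C → ℝ) :
    ∑ c, pr G U L v c f * h c = (∑ c ∈ av G U L f v, h c) / ((av G U L f v).card : ℝ) := by
  unfold pr
  rw [Finset.sum_div]
  simp only [ite_mul, zero_mul]
  rw [← Finset.sum_filter, Finset.filter_mem_eq_inter, Finset.univ_inter]
  exact Finset.sum_congr rfl fun c _ => by ring

theorem mg_eq {G : SimpleGraph V} {U : Finset V} {L : V → Finset C} {s : ℕ}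
    (hG : Good G U L s) (p : V → C) {v : V} (hv : v ∈ U) (c : C) :
    mg (Col G U L p) v c = ev (Col G U L p) (pr G U L v c) := by
  have h := ev_color_mul hG p hv c (φ := fun _ => (1 : ℝ)) (fun _ _ => rfl)
  simp only [mul_one] at h
  exact h

theorem mg_nonneg (A : Finset (V → C)) (v : V) (c : C) : 0 ≤ mg A v c :=
  ev_nonneg A fun f _ => by split_ifs <;> norm_num

theorem mg_le {G : SimpleGraph V} {U : Finset V} {L : V → Finset C} {s : ℕ}
    (hG : Good G U L s) (p : V → C) {v : V} (hv : v ∈ U) (c : C) :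
    mg (Col G U L p) v c ≤ 1 / (s : ℝ) := by
  rw [mg_eq hG p hv]
  refine (ev_mono _ fun f _ => pr_le hG hv c f).trans ?_
  rw [ev_const (Col_nonempty hG p)]

/-- the mean of a function of `f v` -/
theorem ev_single (A : Finset (V → C)) (v : V) (h : C → ℝ) :
    ev A (fun f => h (f v)) = ∑ c, mg A v c * h c := by
  have h1 : ∀ f ∈ A, h (f v) = ∑ c, (if f v = c then (1 : ℝ) else 0) * h c := by
    intro f _
    simp
  rw [ev_congr A h1, ev_sum]
  refine Finset.sum_congr rfl fun c _ => ?_
  rw [ev_mul_right]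
  rfl

theorem sum_mg {A : Finset (V → C)} (hA : A.Nonempty) (v : V) : ∑ c, mg A v c = 1 := by
  have h := ev_single A v (fun _ => (1 : ℝ))
  rw [ev_const hA] at h
  simp only [mul_one] at h
  exact h.symm

/-- `mg A v c * E[g | f v = c] = E[g 1(f v = c)]` -/
theorem mg_mul_ev (A : Finset (V → C)) (g : (V → C) → ℝ) (v : V) (c : C) :
    mg A v c * ev (A.filter (fun f => f v = c)) g =
      ev A (fun f => (if f v = c then (1 : ℝ) else 0) * g f) := by
  unfold mg ev
  simp only [ite_mul, one_mul, zero_mul]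
  rw [← Finset.sum_filter, ← Finset.sum_filter, Finset.sum_const, nsmul_eq_mul, mul_one]
  by_cases h : (A.filter (fun f => f v = c)).card = 0
  · rw [Finset.card_eq_zero] at h
    rw [h]; simp
  · have h1 : ((A.filter (fun f => f v = c)).card : ℝ) ≠ 0 := by exact_mod_cast h
    have h2 : (A.card : ℝ) ≠ 0 := by
      have : (A.filter (fun f => f v = c)).card ≤ A.card := Finset.card_filter_le _ _
      exact_mod_cast (by omega : A.card ≠ 0)
    field_simp

/-- covariance of `g` with a function of `f v` -/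
theorem ev_mul_single (A : Finset (V → C)) (g : (V → C) → ℝ) (v : V) (h : C → ℝ) :
    ev A (fun f => g f * h (f v)) - ev A g * ∑ c, mg A v c * h c =
      ∑ c, mg A v c * kk A g v c * h c := by
  have h1 : ∀ f ∈ A, g f * h (f v) =
      ∑ c, ((if f v = c then (1 : ℝ) else 0) * g f) * h c := by
    intro f _
    rw [Finset.sum_eq_single (f v)]
    · rw [if_pos rfl]; ring
    · intro c _ hc
      rw [if_neg (Ne.symm hc)]; ring
    · intro h; exact absurd (Finset.mem_univ _) h
  rw [ev_congr A h1, ev_sum, Finset.mul_sum, ← Finset.sum_sub_distrib]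
  refine Finset.sum_congr rfl fun c _ => ?_
  rw [ev_mul_right, ← mg_mul_ev]
  unfold kk
  ring

/-- the family `kk A g` is centred -/
theorem cen_kk {A : Finset (V → C)} (hA : A.Nonempty) (U : Finset V) (g : (V → C) → ℝ) :
    Cen A U (kk A g) := by
  intro v _
  have h := ev_mul_single A g v (fun _ => (1 : ℝ))
  simp only [mul_one] at h
  rw [sum_mg hA, mul_one, sub_self] at h
  exact h.symm

theorem ind_yX (G : SimpleGraph V) (U : Finset V) (L : V → Finset C) (X : Finset V) (v : V)
    (c : C) {x : V} (hx : x ∈ X) : Ind x (yX G U L X v c) := by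
  intro f a
  unfold yX
  rw [avX_update_of_mem G U L f v hx a]

theorem ind_yX_self (G : SimpleGraph V) (U : Finset V) (L : V → Finset C) (X : Finset V) (v : V)
    (c : C) : Ind v (yX G U L X v c) := by
  intro f a
  unfold yX
  rw [avX_update_self]

theorem yX_nonneg (G : SimpleGraph V) (U : Finset V) (L : V → Finset C) (X : Finset V) (v : V)
    (c : C) (f : V → C) : 0 ≤ yX G U L X v c f := by
  unfold yX; split_ifs <;> norm_num

theorem yX_le_one (G : SimpleGraph V) (U : Finset V) (L : V → Finset C) (X : Finset V) (v : V)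
    (c : C) (f : V → C) : yX G U L X v c f ≤ 1 := by
  unfold yX; split_ifs <;> norm_num

end heatbath

end Pool.Agent.Eps26
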