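import Pool.Agent.Lib.MP_26a019_lc.Mix.MDefs

set_option autoImplicit false

/-!
# Definitions for the theorem: q ≥ (1+ε)Δ, few 4-cycles, Poincaré constant independent of Δ and n

An *instance* is `(G, U, L, p)`: `G` a graph on `V`, `U` the set of free vertices, `L v` the list of
`v`, `p` the (irrelevant) values outside `U`. Only the edges inside `U` matter.
`ev A g` is the mean and `vr A g` the variance of `g` under the uniform law on the finite set `A`
(from `Mix/MDefs.lean`).
-/

open Finset Classical

namespace Pool.Agent.Eps26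

open Pool.Agent.Kempe Pool.Agent.KempeMix

variable {V C : Type} [Fintype V] [Fintype C]

/-- neighbours of `v` in `U` -/
noncomputable def nb (G : SimpleGraph V) (U : Finset V) (v : V) : Finset V :=
  U.filter (fun u => G.Adj v u)

/-- list colourings of `G[U]`, equal to `p` outside `U` -/
noncomputable def Col (G : SimpleGraph V) (U : Finset V) (L : V → Finset C) (p : V → C) :
    Finset (V → C) :=
  univ.filter (fun f => (∀ v, v ∉ U → f v = p v) ∧ (∀ v ∈ U, f v ∈ L v) ∧
    ∀ u ∈ U, ∀ w ∈ U, G.Adj u w → f u ≠ f w)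

/-- colours of `L v` which are not used by the neighbours of `v` in `U` that are not in `X` -/
noncomputable def avX (G : SimpleGraph V) (U : Finset V) (L : V → Finset C) (X : Finset V)
    (f : V → C) (v : V) : Finset C :=
  (L v).filter (fun c => ∀ u ∈ nb G U v, u ∉ X → f u ≠ c)

/-- available colours at `v` -/
noncomputable def av (G : SimpleGraph V) (U : Finset V) (L : V → Finset C) (f : V → C) (v : V) :
    Finset C :=
  (L v).filter (fun c => ∀ u ∈ nb G U v, f u ≠ c)

/-- heat bath (conditional expectation given all colours except the colour of `v`) -/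
noncomputable def hb (G : SimpleGraph V) (U : Finset V) (L : V → Finset C) (v : V)
    (g : (V → C) → ℝ) (f : V → C) : ℝ :=
  (∑ c ∈ av G U L f v, g (Function.update f v c)) / ((av G U L f v).card : ℝ)

/-- heat bath probability of the colour `c` at `v` -/
noncomputable def pr (G : SimpleGraph V) (U : Finset V) (L : V → Finset C) (v : V) (c : C)
    (f : V → C) : ℝ :=
  if c ∈ av G U L f v then 1 / ((av G U L f v).card : ℝ) else 0

/-- probability that `v` has colour `c`, uniform law on `A` -/
noncomputable def mg (A : Finset (V → C)) (v : V) (c : C) : ℝ :=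
  ev A (fun f => if f v = c then (1 : ℝ) else 0)

/-- (unnormalised) Dirichlet form: sum of the expected conditional variances -/
noncomputable def dir (G : SimpleGraph V) (U : Finset V) (L : V → Finset C) (p : V → C)
    (g : (V → C) → ℝ) : ℝ :=
  ∑ v ∈ U, ev (Col G U L p) (fun f => (g f - hb G U L v g f) ^ 2)

/-- The class of instances: slack at least `s ≥ 2` at every free vertex. -/
def Good (G : SimpleGraph V) (U : Finset V) (L : V → Finset C) (s : ℕ) : Prop :=
  2 ≤ s ∧ ∀ v ∈ U, (nb G U v).card + s ≤ (L v).card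

/-- number of closed walks of length 4 from `v` in `G[U]` -/
noncomputable def w4 (G : SimpleGraph V) (U : Finset V) (v : V) : ℕ :=
  ∑ x ∈ nb G U v, ∑ y ∈ nb G U v, ((nb G U x) ∩ (nb G U y)).card

/-- Poincaré inequality with constant `P` -/
def Poin (G : SimpleGraph V) (U : Finset V) (L : V → Finset C) (p : V → C) (P : ℝ) : Prop :=
  ∀ g : (V → C) → ℝ, vr (Col G U L p) g ≤ P * dir G U L p g

/-- `E[g | f v = c] - E g` -/
noncomputable def kk (A : Finset (V → C)) (g : (V → C) → ℝ) (v : V) (c : C) : ℝ :=
  ev (A.filter (fun f => f v = c)) g - ev A g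

/-- squared norm of a family `h v : C → ℝ` -/
noncomputable def nrm (A : Finset (V → C)) (U : Finset V) (h : V → C → ℝ) : ℝ :=
  ∑ v ∈ U, ∑ c, mg A v c * (h v c) ^ 2

/-- all `h v` have mean zero -/
def Cen (A : Finset (V → C)) (U : Finset V) (h : V → C → ℝ) : Prop :=
  ∀ v ∈ U, ∑ c, mg A v c * h v c = 0

/-- expected number of neighbours of `u` with colour `c` -/
noncomputable def sm (G : SimpleGraph V) (U : Finset V) (A : Finset (V → C)) (u : V) (c : C) : ℝ :=
  ∑ v ∈ nb G U u, mg A v c

/-- mean of `h v` over the available colours: `P_v (h v)` -/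
noncomputable def hbh (G : SimpleGraph V) (U : Finset V) (L : V → Finset C) (h : V → C → ℝ) (v : V)
    (f : V → C) : ℝ :=
  (∑ c ∈ av G U L f v, h v c) / ((av G U L f v).card : ℝ)

/-- mean of `h v` over the colours available when the neighbour `x` is ignored -/
noncomputable def m0 (G : SimpleGraph V) (U : Finset V) (L : V → Finset C) (h : V → C → ℝ)
    (x v : V) (f : V → C) : ℝ :=
  (∑ c ∈ avX G U L {x} f v, h v c) / ((avX G U L {x} f v).card : ℝ)

/-- indicator that `c` is available at `v` when the neighbours in `X` are ignored -/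
noncomputable def yX (G : SimpleGraph V) (U : Finset V) (L : V → Finset C) (X : Finset V) (v : V)
    (c : C) (f : V → C) : ℝ :=
  if c ∈ avX G U L X f v then 1 else 0

/-- `ξ`: `p_v(a) - Y_a / (A - 1)`, with `Y`, `A` computed without the neighbour `x` -/
noncomputable def xi (G : SimpleGraph V) (U : Finset V) (L : V → Finset C) (p : V → C) (x v : V)
    (a : C) (f : V → C) : ℝ :=
  mg (Col G U L p) v a - yX G U L {x} v a f / (((avX G U L {x} f v).card : ℝ) - 1)

/-- `τ`: `Y_{f x} m0 / (A - 1)` -/
noncomputable def ta (G : SimpleGraph V) (U : Finset V) (L : V → Finset C) (h : V → C → ℝ)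
    (x v : V) (f : V → C) : ℝ :=
  yX G U L {x} v (f x) f * m0 G U L h x v f / (((avX G U L {x} f v).card : ℝ) - 1)

/-- the remainder of the linearisation of `∑ P_v (h v)` -/
noncomputable def RR (G : SimpleGraph V) (U : Finset V) (L : V → Finset C) (p : V → C)
    (h : V → C → ℝ) (f : V → C) : ℝ :=
  ∑ v ∈ U, (hbh G U L h v f + ∑ u ∈ nb G U v, mg (Col G U L p) v (f u) * h v (f u))

/-- number of common neighbours -/
noncomputable def kn (G : SimpleGraph V) (U : Finset V) (x y : V) : ℕ :=
  ((nb G U x) ∩ (nb G U y)).card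

/-- squared norm of one function `h v` -/
noncomputable def hn (A : Finset (V → C)) (h : V → C → ℝ) (v : V) : ℝ :=
  ∑ c, mg A v c * (h v c) ^ 2

/-- `Y_{f x} (m0 - h_v(f x)) / (A - 1)`: the difference `P_v h_v - m0` -/
noncomputable def de (G : SimpleGraph V) (U : Finset V) (L : V → Finset C) (h : V → C → ℝ)
    (x v : V) (f : V → C) : ℝ :=
  yX G U L {x} v (f x) f * (m0 G U L h x v f - h v (f x)) /
    (((avX G U L {x} f v).card : ℝ) - 1)

/-- `Φ_{x,a} = ∑_{v ~ x} h_v(a) ξ_v(a)` -/
noncomputable def Ph (G : SimpleGraph V) (U : Finset V) (L : V → Finset C) (p : V → C)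
    (h : V → C → ℝ) (x : V) (a : C) (f : V → C) : ℝ :=
  ∑ v ∈ nb G U x, h v a * xi G U L p x v a f

/-- the indicator that no neighbour of `u` has the colour `c` -/
noncomputable def no (G : SimpleGraph V) (U : Finset V) (u : V) (c : C) (f : V → C) : ℝ :=
  if ∀ v ∈ nb G U u, f v ≠ c then 1 else 0

/-- the bilinear form of the linearised heat bath: `∑_v ∑_{u ~ v} ∑_c p_u p_v k_u k_v` -/
noncomputable def TT (G : SimpleGraph V) (U : Finset V) (A : Finset (V → C)) (k : V → C → ℝ) : ℝ :=
  ∑ v ∈ U, ∑ u ∈ nb G U v, ∑ c, mg A u c * mg A v c * k u c * k v c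

/-- `φ` does not depend on the colour of `v` -/
def Ind (v : V) (φ : (V → C) → ℝ) : Prop := ∀ f c, φ (Function.update f v c) = φ f

end Pool.Agent.Eps26
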