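import Pool.Agent.Lib.MP_26a019_lc.Eps.Spec

set_option autoImplicit false
set_option linter.unusedVariables false

/-! The local density bound. -/

open Finset Classical

namespace Pool.Agent.Eps26

open Pool.Agent.Kempe Pool.Agent.KempeMix

namespace DensAux

variable {V C : Type} [Fintype V] [Fintype C]

theorem exp_neg_ge (x : ℝ) : Real.exp (-1) * (2 - x) ≤ Real.exp (-x) := by
  have h1 : Real.exp (-x) = Real.exp (-1) * Real.exp (1 - x) := by
    rw [← Real.exp_add]; congr 1; ring
  rw [h1]
  refine mul_le_mul_of_nonneg_left ?_ (Real.exp_pos _).le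
  have := Real.add_one_le_exp (1 - x)
  linarith

theorem mul_exp_neg_le (x : ℝ) : x * Real.exp (-x) ≤ Real.exp (-1) := by
  have h1 : Real.exp (-1) = Real.exp (x - 1) * Real.exp (-x) := by
    rw [← Real.exp_add]; congr 1; ring
  rw [h1]
  refine mul_le_mul_of_nonneg_right ?_ (Real.exp_pos _).le
  have := Real.add_one_le_exp (x - 1)
  linarith

/-- pure arithmetic -/
theorem arith (q s l d m σ EA e1 V1 : ℝ) (hs : 0 < s) (hq : 2 * s ≤ q) (hlq : l ≤ q) (hd : 0 ≤ d)
    (hdl : d + s ≤ l) (hm : 0 ≤ m) (hσ : 0 ≤ σ) (hσq : σ ≤ q / s) (h1 : 0 ≤ e1) (hV : 0 ≤ V1)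
    (hEA : Real.exp (-1) * (2 * l - d) - l * e1 ≤ EA)
    (hmE : m * EA ≤ Real.exp (-σ) + e1 + V1 / s)
    (hE : e1 + q / s * (e1 + V1 / s) ≤ s / (6 * q)) :
    m * d * σ ≤ 1 - s / q := by
  have hq0 : 0 < q := by linarith
  set e2 : ℝ := q / s * (e1 + V1 / s) with he2
  have he2' : 0 ≤ e2 := by positivity
  set X : ℝ := m * d * σ with hX
  have hX0 : 0 ≤ X := by positivity
  have hE' : 6 * q * (e1 + e2) ≤ s := by
    rw [le_div_iff₀ (by positivity)] at hE; linarith
  -- (3)
  have h3 : X * EA ≤ d * (Real.exp (-1) + e2) := by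
    have a1 : X * EA = d * (σ * (m * EA)) := by rw [hX]; ring
    rw [a1]
    refine mul_le_mul_of_nonneg_left ?_ hd
    have a2 : σ * (m * EA) ≤ σ * (Real.exp (-σ) + e1 + V1 / s) :=
      mul_le_mul_of_nonneg_left hmE hσ
    have a3 : σ * (e1 + V1 / s) ≤ e2 := by
      rw [he2]; exact mul_le_mul_of_nonneg_right hσq (by positivity)
    have a4 := mul_exp_neg_le σ
    nlinarith
  -- (4)
  set E : ℝ := Real.exp 1 with hEdef
  have hE1 : Real.exp (-1) * E = 1 := by rw [hEdef, ← Real.exp_add]; norm_num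
  have hE0 : 0 < E := Real.exp_pos 1
  have hE3 : E ≤ 3 := by rw [hEdef]; have := Real.exp_one_lt_d9; linarith
  have h4 : X * (2 * l - d - E * (l * e1)) ≤ d * (1 + E * e2) := by
    have b1 : X * (Real.exp (-1) * (2 * l - d) - l * e1) ≤ d * (Real.exp (-1) + e2) :=
      (mul_le_mul_of_nonneg_left hEA hX0).trans h3
    have b2 := mul_le_mul_of_nonneg_right b1 hE0.le
    have b3 : X * (Real.exp (-1) * (2 * l - d) - l * e1) * E =
        X * ((Real.exp (-1) * E) * (2 * l - d) - E * (l * e1)) := by ring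
    have b4 : d * (Real.exp (-1) + e2) * E = d * (Real.exp (-1) * E + E * e2) := by ring
    rw [b3, b4, hE1, one_mul] at b2
    exact b2
  have hl0 : 0 ≤ l := by linarith
  have c1 : E * (l * e1) ≤ 3 * (q * e1) := by
    have c2 : l * e1 ≤ q * e1 := mul_le_mul_of_nonneg_right hlq h1
    have c3 : E * (l * e1) ≤ 3 * (l * e1) := mul_le_mul_of_nonneg_right hE3 (by positivity)
    linarith
  have c4 : d * (E * e2) ≤ 3 * (q * e2) := by
    have c5 : d * (E * e2) ≤ q * (E * e2) :=
      mul_le_mul_of_nonneg_right (by linarith) (by positivity)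
    have c6 : E * e2 ≤ 3 * e2 := mul_le_mul_of_nonneg_right hE3 he2'
    have c7 : q * (E * e2) ≤ q * (3 * e2) := mul_le_mul_of_nonneg_left c6 hq0.le
    linarith
  set ε : ℝ := s / q with hε
  have hε0 : 0 < ε := by positivity
  have hεq : ε * q = s := by rw [hε]; field_simp
  have hε1 : ε ≤ 1 / 2 := by rw [hε, div_le_iff₀ hq0]; linarith
  have hB : 0 < 2 * l - d - E * (l * e1) := by
    have : q * e1 ≤ q * (e1 + e2) := mul_le_mul_of_nonneg_left (by linarith) hq0.le
    nlinarith
  have hεl : ε * l ≤ s := by rw [← hεq]; exact mul_le_mul_of_nonneg_left hlq hε0.le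
  have hεs : ε * s ≤ s / 2 := by nlinarith
  have d1 : d * (1 + E * e2) ≤ (1 - ε) * (2 * l - d - E * (l * e1)) := by
    have d2 : (1 - ε) * (l + s - 3 * (q * e1)) ≤ (1 - ε) * (2 * l - d - E * (l * e1)) :=
      mul_le_mul_of_nonneg_left (by linarith) (by linarith)
    have d3 : (1 - ε) * (l + s - 3 * (q * e1)) ≥ (l + s) - ε * l - ε * s - 3 * (q * e1) := by
      have : 0 ≤ ε * (q * e1) := by positivity
      nlinarith
    nlinarith
  have h5 : X * (2 * l - d - E * (l * e1)) ≤ (1 - ε) * (2 * l - d - E * (l * e1)) := h4.trans d1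
  exact le_of_mul_le_mul_right h5 hB

theorem card_av_eq (G : SimpleGraph V) (U : Finset V) (L : V → Finset C) (u : V) (f : V → C) :
    ((av G U L f u).card : ℝ) = ∑ a ∈ L u, no G U u a f := by
  unfold av no
  rw [Finset.card_filter, Nat.cast_sum]
  refine Finset.sum_congr rfl fun a _ => ?_
  push_cast
  rfl

end DensAux

open DensAux in
theorem dens_proof (V C : Type) [Fintype V] [Fintype C] : Dens V C := by
  intro G U L p s u e1 V1 hG hu hq h1 hV hno hvr hE c
  set A := Col G U L p with hA
  have hne : A.Nonempty := Col_nonempty hG p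
  have hs : (0 : ℝ) < s := by have := hG.1; exact_mod_cast (by omega : 0 < s)
  have hdl : ((nb G U u).card : ℝ) + s ≤ ((L u).card : ℝ) := by exact_mod_cast hG.2 u hu
  have hlq : ((L u).card : ℝ) ≤ (Fintype.card C : ℝ) := by exact_mod_cast Finset.card_le_univ _
  have hm := mg_nonneg A u c
  have hσ0 : ∀ a, 0 ≤ sm G U A u a := fun a => Finset.sum_nonneg fun v _ => mg_nonneg A v a
  have hσq : sm G U A u c ≤ (Fintype.card C : ℝ) / s := by
    have a1 : sm G U A u c ≤ ∑ v ∈ nb G U u, 1 / (s : ℝ) :=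
      Finset.sum_le_sum fun v hv => mg_le hG p (nb_subset G U u hv) c
    rw [Finset.sum_const, nsmul_eq_mul, mul_one_div] at a1
    exact a1.trans (div_le_div_of_nonneg_right (by linarith) hs.le)
  -- (1)
  have hsum : ∑ a ∈ L u, sm G U A u a ≤ ((nb G U u).card : ℝ) := by
    have a1 : ∑ a ∈ L u, sm G U A u a ≤ ∑ a, sm G U A u a :=
      Finset.sum_le_sum_of_subset_of_nonneg (Finset.subset_univ _) fun a _ _ => hσ0 a
    have a2 : ∑ a, sm G U A u a = ((nb G U u).card : ℝ) := by
      unfold sm
      rw [Finset.sum_comm]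
      rw [Finset.sum_congr rfl fun v _ => sum_mg hne v]
      simp
    linarith
  have hEAeq : ev A (fun f => ((av G U L f u).card : ℝ)) = ∑ a ∈ L u, ev A (no G U u a) := by
    rw [← ev_sum]
    exact ev_congr A fun f _ => card_av_eq G U L u f
  have hEA : Real.exp (-1) * (2 * ((L u).card : ℝ) - ((nb G U u).card : ℝ)) -
      ((L u).card : ℝ) * e1 ≤ ev A (fun f => ((av G U L f u).card : ℝ)) := by
    rw [hEAeq]
    have a1 : ∀ a ∈ L u, Real.exp (-1) * (2 - sm G U A u a) - e1 ≤ ev A (no G U u a) := by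
      intro a _
      have b1 := (abs_le.1 (hno a)).1
      have b2 := exp_neg_ge (sm G U A u a)
      linarith
    have a2 := Finset.sum_le_sum a1
    rw [Finset.sum_sub_distrib, ← Finset.mul_sum, Finset.sum_sub_distrib, Finset.sum_const,
      Finset.sum_const, nsmul_eq_mul, nsmul_eq_mul] at a2
    refine le_trans ?_ a2
    have a3 : 0 < Real.exp (-1) := Real.exp_pos _
    nlinarith
  -- (2)
  have hmE : mg A u c * ev A (fun f => ((av G U L f u).card : ℝ)) ≤
      Real.exp (-(sm G U A u c)) + e1 + V1 / s := by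
    set EA := ev A (fun f => ((av G U L f u).card : ℝ)) with hEAdef
    rw [mg_eq hG p hu c, ← hA, ← ev_mul_right]
    have b1 : ∀ f ∈ A, pr G U L u c f * EA ≤ no G U u c f +
        1 / (s : ℝ) * |((av G U L f u).card : ℝ) - EA| := by
      intro f _
      have c1 : pr G U L u c f * ((av G U L f u).card : ℝ) ≤ no G U u c f := by
        have hp := av_pos hG hu f
        unfold pr no
        by_cases hc : c ∈ av G U L f u
        · rw [if_pos hc, if_pos (mem_av.1 hc).2]
          rw [one_div, inv_mul_cancel₀ hp.ne']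
        · rw [if_neg hc, zero_mul]
          split_ifs <;> norm_num
      have c2 : pr G U L u c f * (EA - ((av G U L f u).card : ℝ)) ≤
          1 / (s : ℝ) * |((av G U L f u).card : ℝ) - EA| := by
        have c3 := pr_le hG hu c f
        have c4 := pr_nonneg G U L u c f
        calc pr G U L u c f * (EA - ((av G U L f u).card : ℝ))
            ≤ pr G U L u c f * |((av G U L f u).card : ℝ) - EA| := by
              refine mul_le_mul_of_nonneg_left ?_ c4
              rw [abs_sub_comm]; exact le_abs_self _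
          _ ≤ _ := mul_le_mul_of_nonneg_right c3 (abs_nonneg _)
      have c5 : pr G U L u c f * EA = pr G U L u c f * ((av G U L f u).card : ℝ) +
          pr G U L u c f * (EA - ((av G U L f u).card : ℝ)) := by ring
      linarith
    have b2 := ev_mono A b1
    rw [ev_add, ev_mul_left] at b2
    have b3 : ev A (fun f => |((av G U L f u).card : ℝ) - EA|) ≤ V1 := by
      refine le_trans ?_ hvr
      refine Real.le_sqrt_of_sq_le ?_
      refine (ev_sq_le hne _).trans ?_
      unfold vr
      exact ev_mono A fun f _ => by rw [sq_abs]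
    have b4 : 1 / (s : ℝ) * ev A (fun f => |((av G U L f u).card : ℝ) - EA|) ≤ V1 / s := by
      rw [one_div, ← div_eq_inv_mul]
      exact div_le_div_of_nonneg_right b3 hs.le
    have b5 := (abs_le.1 (hno c)).2
    linarith
  exact arith (Fintype.card C : ℝ) s ((L u).card : ℝ) ((nb G U u).card : ℝ) (mg A u c)
    (sm G U A u c) (ev A (fun f => ((av G U L f u).card : ℝ))) e1 V1 hs (by exact_mod_cast hq) hlq
    (Nat.cast_nonneg _) hdl hm (hσ0 c) hσq h1 hV hEA hmE hE

end Pool.Agent.Eps26
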