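import Pool.Agent.Lib.MP_26a019_lc.Eps.Assembly
import Pool.Agent.Lib.MP_26a019_lc.Mix.MTower
import Pool.Agent.Lib.MP_26a019_lc.Mix.MMix

set_option autoImplicit false
set_option linter.unusedVariables false

/-!
# From the class to proper colourings and mixing time
-/

open Finset Classical

namespace Pool.Agent.Eps26

open Pool.Agent.Kempe Pool.Agent.KempeMix

variable {V C : Type} [Fintype V] [Fintype C]

/-- twice the number of 4-cycles through `v`: the number of `(x, y, w)` with `v x w y` a 4-cycle -/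
noncomputable def c4 (G : SimpleGraph V) (v : V) : ℕ :=
  ((univ : Finset (V × V × V)).filter (fun t => G.Adj v t.1 ∧ G.Adj v t.2.1 ∧ t.1 ≠ t.2.1 ∧
    t.2.2 ≠ v ∧ G.Adj t.1 t.2.2 ∧ G.Adj t.2.1 t.2.2)).card

theorem PC_eq (G : SimpleGraph V) (p : V → C) :
    PC G C = Col G univ (fun _ => univ) p := by
  ext f
  rw [mem_Col]
  unfold PC Proper
  simp

theorem good_univ {G : SimpleGraph V} {s Δ : ℕ} (hs : 2 ≤ s)
    (hΔ : ∀ v, (univ.filter (fun u => G.Adj v u)).card ≤ Δ) (hq : Δ + s ≤ Fintype.card C) :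
    Good G univ (fun _ => (univ : Finset C)) s := by
  refine ⟨hs, fun v _ => ?_⟩
  have h := hΔ v
  rw [Finset.card_univ]
  unfold nb
  omega

theorem w4_le {G : SimpleGraph V} {Δ : ℕ}
    (hΔ : ∀ v, (univ.filter (fun u => G.Adj v u)).card ≤ Δ) (v : V) :
    w4 G univ v ≤ c4 G v + 2 * Δ ^ 2 := by
  have hnb : ∀ v, nb G univ v = univ.filter (fun u => G.Adj v u) := fun v => rfl
  have hd : ∀ v, (nb G univ v).card ≤ Δ := fun v => by rw [hnb]; exact hΔ v
  -- the set of closed walks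
  have h1 : w4 G univ v = ((univ : Finset (V × V × V)).filter (fun t => G.Adj v t.1 ∧
      G.Adj v t.2.1 ∧ G.Adj t.1 t.2.2 ∧ G.Adj t.2.1 t.2.2)).card := by
    unfold w4
    rw [Finset.card_filter, ← Finset.univ_product_univ, Finset.sum_product]
    rw [hnb, Finset.sum_filter]
    refine Finset.sum_congr rfl fun x _ => ?_
    rw [← Finset.univ_product_univ, Finset.sum_product]
    by_cases hx : G.Adj v x
    · rw [if_pos hx, Finset.sum_filter]
      refine Finset.sum_congr rfl fun y _ => ?_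
      by_cases hy : G.Adj v y
      · rw [if_pos hy, Finset.card_eq_sum_ones, hnb, hnb, ← Finset.filter_and, Finset.sum_filter]
        refine Finset.sum_congr rfl fun w _ => ?_
        simp [hx, hy]
      · rw [if_neg hy]
        symm
        refine Finset.sum_eq_zero fun w _ => ?_
        simp [hy]
    · rw [if_neg hx]
      symm
      refine Finset.sum_eq_zero fun y _ => Finset.sum_eq_zero fun w _ => ?_
      simp [hx]
  rw [h1]
  set S := (univ : Finset (V × V × V)).filter (fun t => G.Adj v t.1 ∧ G.Adj v t.2.1 ∧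
    t.1 ≠ t.2.1 ∧ t.2.2 ≠ v ∧ G.Adj t.1 t.2.2 ∧ G.Adj t.2.1 t.2.2) with hS
  set D1 := (nb G univ v).sigma (fun x => nb G univ x) with hD1
  set D2 := (nb G univ v) ×ˢ (nb G univ v) with hD2
  have hsub : (univ : Finset (V × V × V)).filter (fun t => G.Adj v t.1 ∧
      G.Adj v t.2.1 ∧ G.Adj t.1 t.2.2 ∧ G.Adj t.2.1 t.2.2) ⊆
      S ∪ (D1.image (fun x => (x.1, x.1, x.2)) ∪ D2.image (fun x => (x.1, x.2, v))) := by
    rintro ⟨x, y, w⟩ ht
    rw [Finset.mem_filter] at ht
    obtain ⟨-, hx, hy, hxw, hyw⟩ := ht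
    simp only [Finset.mem_union]
    by_cases hxy : x = y
    · right; left
      subst hxy
      refine Finset.mem_image.2 ⟨⟨x, w⟩, ?_, rfl⟩
      rw [hD1, Finset.mem_sigma]
      exact ⟨mem_nb.2 ⟨Finset.mem_univ _, hx⟩, mem_nb.2 ⟨Finset.mem_univ _, hxw⟩⟩
    · by_cases hwv : w = v
      · right; right
        subst hwv
        refine Finset.mem_image.2 ⟨(x, y), ?_, rfl⟩
        rw [hD2, Finset.mem_product]
        exact ⟨mem_nb.2 ⟨Finset.mem_univ _, hx⟩, mem_nb.2 ⟨Finset.mem_univ _, hy⟩⟩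
      · left
        rw [hS, Finset.mem_filter]
        exact ⟨Finset.mem_univ _, hx, hy, hxy, hwv, hxw, hyw⟩
  have h2 := Finset.card_le_card hsub
  have h3 := Finset.card_union_le S
    (D1.image (fun x => (x.1, x.1, x.2)) ∪ D2.image (fun x => (x.1, x.2, v)))
  have h4 := Finset.card_union_le (D1.image (fun x => (x.1, x.1, x.2)))
    (D2.image (fun x => (x.1, x.2, v)))
  have h5 : (D1.image (fun x => ((x.1, x.1, x.2) : V × V × V))).card ≤ Δ ^ 2 := by
    refine Finset.card_image_le.trans ?_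
    rw [hD1, Finset.card_sigma]
    refine (Finset.sum_le_card_nsmul _ _ Δ fun x _ => hd x).trans ?_
    rw [smul_eq_mul, pow_two]
    exact Nat.mul_le_mul_right _ (hd v)
  have h6 : (D2.image (fun x => ((x.1, x.2, v) : V × V × V))).card ≤ Δ ^ 2 := by
    refine Finset.card_image_le.trans ?_
    rw [hD2, Finset.card_product, pow_two]
    exact Nat.mul_le_mul (hd v) (hd v)
  have h7 : S.card = c4 G v := rfl
  omega

/-- the conditional expectation given everything but the colour of `v` is the heat bath -/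
theorem cls_compl_singleton {G : SimpleGraph V} {U : Finset V} {L : V → Finset C} {p f : V → C}
    {v : V} (hf : f ∈ Col G U L p) (hv : v ∈ U) (g : (V → C) → ℝ) :
    cE (Col G U L p) ({v}ᶜ) g f = hb G U L v g f := by
  have h1 : cls (Col G U L p) ({v}ᶜ) f = (av G U L f v).image (Function.update f v) := by
    ext f'
    rw [MTower.mem_cls, Finset.mem_image]
    constructor
    · rintro ⟨h1, h2⟩
      have h3 : f' = Function.update f v (f' v) := by
        funext u
        by_cases hu : u = v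
        · subst hu; simp
        · rw [Function.update_of_ne hu]
          exact h2 u (by simpa using hu)
      refine ⟨f' v, ?_, h3.symm⟩
      have h4 := self_mem_av h1 hv
      rw [h3, av_update_self] at h4
      simpa using h4
    · rintro ⟨c, hc, rfl⟩
      refine ⟨update_mem hf hv hc, fun u hu => ?_⟩
      have : u ≠ v := by simpa using hu
      rw [Function.update_of_ne this]
  unfold cE ev hb
  rw [h1, Finset.sum_image, Finset.card_image_of_injective]
  · intro a b hab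
    have := congrFun hab v
    simpa using this
  · intro a _ b _ hab
    have := congrFun hab v
    simpa using this

theorem aa_of_poin {G : SimpleGraph V} {p : V → C} {B : ℝ}
    (hne : (PC G C).Nonempty)
    (hP : Poin G univ (fun _ => (univ : Finset C)) p B) (g : (V → C) → ℝ) :
    aa (PC G C) g ∅ ≤ B * ∑ v, aa (PC G C) g ({v}ᶜ) := by
  rw [PC_eq G p] at hne ⊢
  have hN : (0 : ℝ) < ((Col G univ (fun _ => (univ : Finset C)) p).card : ℝ) := by
    exact_mod_cast Finset.card_pos.2 hne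
  have h := hP g
  have h1 : aa (Col G univ (fun _ => (univ : Finset C)) p) g ∅ =
      ((Col G univ (fun _ => (univ : Finset C)) p).card : ℝ) *
        vr (Col G univ (fun _ => (univ : Finset C)) p) g := by
    unfold aa vr
    have : ∀ f, cE (Col G univ (fun _ => (univ : Finset C)) p) ∅ g f =
        ev (Col G univ (fun _ => (univ : Finset C)) p) g := by
      intro f
      unfold cE cls
      simp
    simp only [this]
    conv_rhs => rw [ev]
    field_simp
  have h2 : ∀ v, aa (Col G univ (fun _ => (univ : Finset C)) p) g ({v}ᶜ) =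
      ((Col G univ (fun _ => (univ : Finset C)) p).card : ℝ) *
        ev (Col G univ (fun _ => (univ : Finset C)) p)
          (fun f => (g f - hb G univ (fun _ => (univ : Finset C)) v g f) ^ 2) := by
    intro v
    unfold aa
    rw [Finset.sum_congr rfl fun f hf => by
      rw [cls_compl_singleton hf (Finset.mem_univ v) g]]
    unfold ev
    field_simp
  rw [h1, Finset.sum_congr rfl fun v _ => h2 v, ← Finset.mul_sum]
  unfold dir at h
  calc _ ≤ ((Col G univ (fun _ => (univ : Finset C)) p).card : ℝ) *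
        (B * ∑ v, ev (Col G univ (fun _ => (univ : Finset C)) p)
          (fun f => (g f - hb G univ (fun _ => (univ : Finset C)) v g f) ^ 2)) :=
        mul_le_mul_of_nonneg_left h hN.le
    _ = _ := by ring

theorem mix_main (hM : Main V C) [Nonempty V] (G : SimpleGraph V) (s Δ : ℕ) (Q : ℝ)
    (hs : 2 ≤ s) (h2s : 2 * s ≤ Fintype.card C)
    (hΔ : ∀ v, (univ.filter (fun u => G.Adj v u)).card ≤ Δ) (hq : Δ + s ≤ Fintype.card C)
    (hQ : ∀ v, (c4 G v : ℝ) ≤ Q)
    (hmain : 40000000 * (Q + 3 * (Fintype.card C : ℝ) ^ 2) * (Fintype.card C : ℝ) ^ 14 ≤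
      (s : ℝ) ^ 17)
    (t : ℕ) (ht : (Fintype.card V : ℝ) * (16 * ((Fintype.card C : ℝ) / s) ^ 2) *
      Real.log (4 * (Fintype.card C : ℝ) ^ (Fintype.card V)) ≤ t)
    (f0 : {f : V → C // f ∈ PC G C}) : tvd G C t f0 ≤ 1 / 4 := by
  have hG : Good G univ (fun _ => (univ : Finset C)) s := good_univ hs hΔ hq
  have hs0 : (0 : ℝ) < (s : ℝ) := by exact_mod_cast (by omega : 0 < s)
  have h2s' : 2 * (s : ℝ) ≤ (Fintype.card C : ℝ) := by exact_mod_cast h2s
  obtain ⟨v0⟩ := ‹Nonempty V›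
  have : Nonempty V := ⟨v0⟩
  have hQ0 : 0 ≤ Q := le_trans (Nat.cast_nonneg _) (hQ v0)
  have hΔq : (Δ : ℝ) ≤ (Fintype.card C : ℝ) := by exact_mod_cast (by omega : Δ ≤ Fintype.card C)
  have hP := hM G univ (fun _ => (univ : Finset C)) f0.1 s (Q + 2 * (Fintype.card C : ℝ) ^ 2) hG
    h2s (fun v _ => by
      have h1 : (w4 G univ v : ℝ) ≤ (c4 G v : ℝ) + 2 * (Δ : ℝ) ^ 2 := by
        exact_mod_cast w4_le hΔ v
      have h2 : (Δ : ℝ) ^ 2 ≤ (Fintype.card C : ℝ) ^ 2 :=
        pow_le_pow_left₀ (Nat.cast_nonneg _) hΔq 2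
      linarith [hQ v]) (by positivity) (by
      have : Q + 2 * (Fintype.card C : ℝ) ^ 2 + (Fintype.card C : ℝ) ^ 2 =
        Q + 3 * (Fintype.card C : ℝ) ^ 2 := by ring
      rw [this]; exact hmain)
  refine mix_of_poincare G (16 * ((Fintype.card C : ℝ) / s) ^ 2) ?_
    (aa_of_poin ⟨f0.1, f0.2⟩ hP) t ht f0
  have : (2 : ℝ) ≤ (Fintype.card C : ℝ) / s := by rw [le_div_iff₀ hs0]; linarith
  nlinarith

/-- no 4-cycles and `s ≥ 3 q^(16/17)` -/
theorem mix_c4free (hM : Main V C) [Nonempty V] (G : SimpleGraph V) (s Δ : ℕ)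
    (hs : 2 ≤ s) (h2s : 2 * s ≤ Fintype.card C)
    (hΔ : ∀ v, (univ.filter (fun u => G.Adj v u)).card ≤ Δ) (hq : Δ + s ≤ Fintype.card C)
    (hQ : ∀ v, c4 G v = 0)
    (hmain : 3 ^ 17 * (Fintype.card C) ^ 16 ≤ s ^ 17)
    (t : ℕ) (ht : (Fintype.card V : ℝ) * (16 * ((Fintype.card C : ℝ) / s) ^ 2) *
      Real.log (4 * (Fintype.card C : ℝ) ^ (Fintype.card V)) ≤ t)
    (f0 : {f : V → C // f ∈ PC G C}) : tvd G C t f0 ≤ 1 / 4 := by
  refine mix_main hM G s Δ 0 hs h2s hΔ hq (fun v => by rw [hQ v]; simp) ?_ t ht f0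
  have h1 : (3 : ℝ) ^ 17 * (Fintype.card C : ℝ) ^ 16 ≤ (s : ℝ) ^ 17 := by exact_mod_cast hmain
  have h2 : 40000000 * (0 + 3 * (Fintype.card C : ℝ) ^ 2) * (Fintype.card C : ℝ) ^ 14 =
      120000000 * (Fintype.card C : ℝ) ^ 16 := by ring
  rw [h2]
  refine le_trans ?_ h1
  exact mul_le_mul_of_nonneg_right (by norm_num) (by positivity)

/-- the `(1+ε)`-form -/
theorem mix_eps (hM : ∀ (V C : Type) [Fintype V] [Fintype C], Main V C) (ε : ℝ) (hε : 0 < ε) :
    ∃ δ : ℝ, 0 < δ ∧ ∃ q0 K : ℝ, ∀ (V C : Type) [Fintype V] [Fintype C] [Nonempty V]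
      (G : SimpleGraph V) (Δ : ℕ), (∀ v, (univ.filter (fun u => G.Adj v u)).card ≤ Δ) →
      (1 + ε) * (Δ : ℝ) ≤ (Fintype.card C : ℝ) → q0 ≤ (Fintype.card C : ℝ) →
      (∀ v, (c4 G v : ℝ) ≤ δ * (Fintype.card C : ℝ) ^ 3) →
      ∀ t : ℕ, K * (Fintype.card V : ℝ) ^ 2 * Real.log (Fintype.card C : ℝ) ≤ t →
        ∀ f0 : {f : V → C // f ∈ PC G C}, tvd G C t f0 ≤ 1 / 4 := by
  set e : ℝ := min ε 1 with he
  have he0 : 0 < e := lt_min hε one_pos
  have he1 : e ≤ 1 := min_le_right _ _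
  have heε : e ≤ ε := min_le_left _ _
  refine ⟨(e / 4) ^ 17 / 80000000, by positivity, 240000000 * (4 / e) ^ 17, 512 / e ^ 2, ?_⟩
  intro V C _ _ _ G Δ hΔ hq hq0 hQ t ht f0
  set q : ℝ := (Fintype.card C : ℝ) with hqdef
  have hbig : (4 : ℝ) / e ≥ 4 := by rw [ge_iff_le, le_div_iff₀ he0]; linarith
  have hq1 : 8 / e ≤ q := by
    refine le_trans ?_ hq0
    have h1 : (1 : ℝ) ≤ (4 / e) ^ 16 := one_le_pow₀ (by linarith)
    have h2 : (8 : ℝ) / e = 2 * (4 / e) := by ring
    have h3 : 240000000 * (4 / e) ^ 17 = 240000000 * (4 / e) ^ 16 * (4 / e) := by ring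
    rw [h2, h3]
    refine mul_le_mul_of_nonneg_right (by linarith) (by positivity)
  have hq8 : (8 : ℝ) ≤ q := by
    refine le_trans ?_ hq1
    rw [le_div_iff₀ he0]; linarith
  have hqp : 0 < q := by linarith
  have heq : 8 ≤ e * q := by
    rw [div_le_iff₀ he0] at hq1; linarith
  set s : ℕ := ⌊e / 2 * q⌋₊ with hs
  have hs1 : (s : ℝ) ≤ e / 2 * q := Nat.floor_le (by positivity)
  have hs2 : e / 2 * q < s + 1 := Nat.lt_floor_add_one _
  have hs3 : e / 4 * q ≤ s := by linarith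
  have hs4 : 2 ≤ s := by
    have : (2 : ℝ) ≤ (s : ℝ) := by linarith
    exact_mod_cast this
  have hs5 : 2 * s ≤ Fintype.card C := by
    have : 2 * (s : ℝ) ≤ q := by nlinarith
    have : ((2 * s : ℕ) : ℝ) ≤ ((Fintype.card C : ℕ) : ℝ) := by push_cast; exact this
    exact_mod_cast this
  have hΔs : Δ + s ≤ Fintype.card C := by
    have h1 : (1 + e) * (Δ : ℝ) ≤ q := by
      refine le_trans ?_ hq
      exact mul_le_mul_of_nonneg_right (by linarith) (Nat.cast_nonneg _)
    have h2 : (Δ : ℝ) + s ≤ q := by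
      have h3 : (1 + e) * ((Δ : ℝ) + s) ≤ (1 + e) * q := by nlinarith
      exact le_of_mul_le_mul_left h3 (by linarith)
    have : ((Δ + s : ℕ) : ℝ) ≤ ((Fintype.card C : ℕ) : ℝ) := by push_cast; exact h2
    exact_mod_cast this
  refine mix_main (hM V C) G s Δ _ hs4 hs5 hΔ hΔs hQ ?_ t ?_ f0
  · have h1 : (e / 4 * q) ^ 17 ≤ (s : ℝ) ^ 17 := pow_le_pow_left₀ (by positivity) hs3 17
    refine le_trans ?_ h1
    have h2 : 240000000 ≤ (e / 4) ^ 17 * q := by
      have h3 : (e / 4) ^ 17 * (240000000 * (4 / e) ^ 17) ≤ (e / 4) ^ 17 * q :=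
        mul_le_mul_of_nonneg_left hq0 (by positivity)
      have h4 : (e / 4) ^ 17 * (240000000 * (4 / e) ^ 17) = 240000000 := by
        rw [div_pow, div_pow]; field_simp
      linarith
    have h5 : 40000000 * ((e / 4) ^ 17 / 80000000 * q ^ 3 + 3 * q ^ 2) * q ^ 14 =
        (1 / 2) * ((e / 4) ^ 17 * q ^ 17) + (1 / 2) * (240000000 * q ^ 16) := by ring
    have h6 : 240000000 * q ^ 16 ≤ (e / 4) ^ 17 * q ^ 17 := by
      have : (e / 4) ^ 17 * q ^ 17 = (e / 4) ^ 17 * q * q ^ 16 := by ring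
      rw [this]
      exact mul_le_mul_of_nonneg_right h2 (by positivity)
    rw [h5, mul_pow]
    linarith
  · refine le_trans ?_ ht
    have hs0 : (0 : ℝ) < (s : ℝ) := by exact_mod_cast (by omega : 0 < s)
    have hn1 : (1 : ℝ) ≤ (Fintype.card V : ℝ) := by
      exact_mod_cast Fintype.card_pos
    have hqs : q / s ≤ 4 / e := by
      rw [div_le_div_iff₀ hs0 he0]; linarith
    have hqs2 : 16 * (q / s) ^ 2 ≤ 256 / e ^ 2 := by
      have h1 : (q / s) ^ 2 ≤ (4 / e) ^ 2 := pow_le_pow_left₀ (by positivity) hqs 2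
      have h2 : (256 : ℝ) / e ^ 2 = 16 * (4 / e) ^ 2 := by ring
      rw [h2]; linarith
    have hlog0 : 0 ≤ Real.log q := Real.log_nonneg (by linarith)
    have hlog : Real.log (4 * q ^ (Fintype.card V)) ≤ 2 * (Fintype.card V : ℝ) * Real.log q := by
      rw [Real.log_mul (by norm_num) (by positivity), Real.log_pow]
      have h1 : Real.log 4 ≤ Real.log q := Real.log_le_log (by norm_num) (by linarith)
      nlinarith [mul_le_mul_of_nonneg_right hn1 hlog0]
    have hlogn : 0 ≤ Real.log (4 * q ^ (Fintype.card V)) := by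
      refine Real.log_nonneg ?_
      have : (1 : ℝ) ≤ q ^ (Fintype.card V) := one_le_pow₀ (by linarith)
      linarith
    calc (Fintype.card V : ℝ) * (16 * (q / s) ^ 2) * Real.log (4 * q ^ (Fintype.card V))
        ≤ (Fintype.card V : ℝ) * (256 / e ^ 2) * (2 * (Fintype.card V : ℝ) * Real.log q) := by
          refine mul_le_mul (mul_le_mul_of_nonneg_left hqs2 (by positivity)) hlog hlogn
            (by positivity)
      _ = 512 / e ^ 2 * (Fintype.card V : ℝ) ^ 2 * Real.log q := by ring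

end Pool.Agent.Eps26
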