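import Pool.Agent.Lib.MP_26a019_lc.Eps.Basic

set_option autoImplicit false
set_option linter.unusedVariables false

/-!
# Statements of the modules (MP_26a019_lc, theorem on q ≥ (1+ε)Δ with few 4-cycles)

Every `def X : Prop` is one module: prove `theorem x_proof : X V C` (for the given types) in the
file `Eps/X.lean`, importing only `Eps/Spec.lean` (and what you need of Mathlib). All modules are
independent of each other. Notation: `q = Fintype.card C`, `r = 1/s`, `A = Col G U L p`,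
`E = ev A`, `Var = vr A`, `P_v = hb G U L v` (heat bath at `v`), `p_v(c) = mg A v c`.

`Basic.lean` contains (all proved): linearity/monotonicity/Cauchy-Schwarz for `ev`, `vr_le`, `vr_eq`,
`ev_sub_sq`, `abs_ev_mul_sub_le` (covariance bound), `sum_nb_comm`, `card_avX_ge`, `card_av`,
`card_avX_nb`, `av_eq_erase`, `av_update_self`, `avX_update_of_mem`, `avX_update_of_notMem`,
`sum_Col_erase`, `Col_nonempty`, `update_mem`, `hb_ind`, `hb_ind_mul`, `hb_add`, `hb_single`,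
`sum_rev`/`ev_rev` (reversibility), `ev_mul_hb`, `ev_hb`, `ev_ind_mul`, `ev_color_mul`
(`E[1(f v = c) φ] = E[pr_v(c) φ]` if `φ` does not depend on `f v`), `ev_sq_split`,
`ev_sub_hb_sq_le` (`E(g-P_v g)^2 ≤ E(g-φ)^2` for every `φ` not depending on `f v`),
`ev_sub_hb_sq_le_avg`, `pr_le`, `sum_pr`, `mg_eq`, `mg_le`, `ev_single`, `sum_mg`, `mg_mul_ev`,
`ev_mul_single`, `cen_kk`.
-/

open Finset Classical

namespace Pool.Agent.Eps26

open Pool.Agent.Kempe Pool.Agent.KempeMix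

/-! ## Part 1: a priori Poincaré inequality when one vertex is added -/

/-- **TwoSite** (finite sets only). Write `G a` = mean of `g a ·` over `B.erase a`, `H b` = mean of
`g · b` over `D.erase b`, `K` = mean of `G` over `D`.
Proof. `∑_{a∈D} (G a - K)^2 = (1/(2|D|)) ∑_{a,a'∈D} (G a - G a')^2`. Let `a ≠ a'` in `D` and
`C0 = (B.erase a).erase a'`; `|C0| ≥ |B| - 2 ≥ s - 1 ≥ s/2` (and `≥ 1`). Let `k(a)`, `k(a')` be the
means of `g a ·`, `g a' ·` over `C0`. Then `(G a - G a')^2 ≤ 3(G a - k a)^2 + 3(G a' - k a')^2 +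
3(k a - k a')^2`. (i) If `a' ∉ B` then `G a = k a`. If `a' ∈ B` then, with `n = |B.erase a| =
|C0| + 1`, `G a - k a = (g a a' - G a)/(n-1)`, so `(G a - k a)^2 ≤ (4/s^2) (g a a' - G a)^2`;
summing over `a' ∈ D`: `≤ (4/s^2) ∑_{b ∈ B.erase a} (g a b - G a)^2`. Same for the second term.
(ii) `(k a - k a')^2 ≤ (1/|C0|) ∑_{b∈C0} (g a b - g a' b)^2 ≤ (2/s) ∑_{b ∈ B, b≠a, b≠a'}
(g a b - g a' b)^2`; summing over `a, a'`: for each `b ∈ B`, `∑_{a,a' ∈ D.erase b}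
(g a b - g a' b)^2 = 2 |D.erase b| ∑_{a∈D.erase b} (g a b - H b)^2 ≤ 2 |D| ∑ ...`.
Total: `∑_{a,a'} (G a - G a')^2 ≤ (24/s^2) ∑_a ∑_b (g a b - G a)^2 + (12 |D|/s) ∑_b ∑_a
(g a b - H b)^2`; divide by `2|D|` and use `|D| ≥ s`. -/
def TwoSite (C : Type) : Prop :=
  ∀ (D B : Finset C) (g : C → C → ℝ) (s : ℕ), 2 ≤ s → s + 1 ≤ D.card → s + 1 ≤ B.card →
    ∑ a ∈ D, ((∑ b ∈ B.erase a, g a b) / ((B.erase a).card : ℝ) -
        (∑ a' ∈ D, (∑ b ∈ B.erase a', g a' b) / ((B.erase a').card : ℝ)) / (D.card : ℝ)) ^ 2 ≤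
      12 / (s : ℝ) ^ 3 * ∑ a ∈ D, ∑ b ∈ B.erase a,
          (g a b - (∑ b' ∈ B.erase a, g a b') / ((B.erase a).card : ℝ)) ^ 2 +
      6 / (s : ℝ) * ∑ b ∈ B, ∑ a ∈ D.erase b,
          (g a b - (∑ a' ∈ D.erase b, g a' b) / ((D.erase b).card : ℝ)) ^ 2

/-- **AprCmp** Comparison of the laws with and without the vertex `v`, for `φ ≥ 0` not depending on
`f v`. Proof: by `sum_Col_erase`, `∑_{Col U} φ = ∑_{f ∈ Col (U.erase v)} |av f v| φ f` and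
`|Col U| = ∑_{f ∈ Col (U.erase v)} |av f v|`, with `s ≤ |av f v| ≤ q`. -/
def AprCmp (V C : Type) [Fintype V] [Fintype C] : Prop :=
  ∀ (G : SimpleGraph V) (U : Finset V) (L : V → Finset C) (p : V → C) (s : ℕ) (v : V)
    (φ : (V → C) → ℝ), Good G U L s → v ∈ U → Ind v φ → (∀ f, 0 ≤ φ f) →
    ev (Col G U L p) φ ≤ (Fintype.card C : ℝ) / s * ev (Col G (U.erase v) L p) φ ∧
    ev (Col G (U.erase v) L p) φ ≤ (Fintype.card C : ℝ) / s * ev (Col G U L p) φ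

/-- **AprNon** The vertex `x ≠ v` is not adjacent to `v`. Proof: `nb G (U.erase v) x = nb G U x`, so
the heat bath at `x` is the same in both instances, and `P_x`, `P_v` commute (`av f[v→c] x = av f x`,
`av f[x→c] v = av f v`, `Function.update_comm`). So the left integrand is `(P_v (g - P_x g))^2 ≤
P_v ((g - P_x g)^2)` (Cauchy-Schwarz for the mean over `av f v`), which does not depend on `f v`.
Second inequality of `AprCmp` (hypothesis `h`), then `ev_hb`: `E P_v ψ = E ψ`. -/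
def AprNon (V C : Type) [Fintype V] [Fintype C] : Prop :=
  AprCmp V C →
  ∀ (G : SimpleGraph V) (U : Finset V) (L : V → Finset C) (p : V → C) (s : ℕ) (v x : V)
    (g : (V → C) → ℝ), Good G U L s → v ∈ U → x ∈ U.erase v → x ∉ nb G U v →
    ev (Col G (U.erase v) L p)
      (fun f => (hb G U L v g f - hb G (U.erase v) L x (hb G U L v g) f) ^ 2) ≤
    (Fintype.card C : ℝ) / s * ev (Col G U L p) (fun f => (g f - hb G U L x g f) ^ 2)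

/-- **AprAdj** The vertex `x` is adjacent to `v`. Proof: let `U1 = U.erase v`, `U2 = U1.erase x`.
For `f ∈ Col U2` (so `f v = p v`, `f x = p x`) let `D = avX G U L {v} f x` and
`B = avX G U L {x} f v`; both have at least `s+1` elements (`card_avX_nb`) and do not depend on
`f x`, `f v`. Put `g' a b = g (f[x→a][v→b])`. Then `av G U1 L f x = D`, `av G U L (f[x→a]) v =
B.erase a` (as `a` blocks the colour `a` at `v`), `av G U L (f[v→b]) x = D.erase b`. By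
`sum_Col_erase` twice, `∑_{Col U1} F = ∑_{f∈Col U2} ∑_{a∈D} F (f[x→a])` and `∑_{Col U} F =
∑_{f∈Col U2} ∑_{a∈D} ∑_{b∈B.erase a} F (f[x→a][v→b]) = ∑_{f∈Col U2} ∑_{b∈B} ∑_{a∈D.erase b} ...`.
Apply `TwoSite` to `g'` for every `f`, sum over `f ∈ Col U2`:
`∑_{Col U1} (G - P'_x G)^2 ≤ (12/s^3) ∑_{Col U} (g - P_v g)^2 + (6/s) ∑_{Col U} (g - P_x g)^2`.
Divide by `|Col U1| ≥ |Col U| / q` (each `f ∈ Col U1` has at most `q` extensions). -/
def AprAdj (V C : Type) [Fintype V] [Fintype C] : Prop :=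
  TwoSite C →
  ∀ (G : SimpleGraph V) (U : Finset V) (L : V → Finset C) (p : V → C) (s : ℕ) (v x : V)
    (g : (V → C) → ℝ), Good G U L s → v ∈ U → x ∈ nb G U v →
    ev (Col G (U.erase v) L p)
      (fun f => (hb G U L v g f - hb G (U.erase v) L x (hb G U L v g) f) ^ 2) ≤
    6 * (Fintype.card C : ℝ) / s * ev (Col G U L p) (fun f => (g f - hb G U L x g f) ^ 2) +
    12 * (Fintype.card C : ℝ) / (s : ℝ) ^ 3 *
      ev (Col G U L p) (fun f => (g f - hb G U L v g f) ^ 2)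

/-- **Apriori** The a priori inequality. Proof: let `G' = P_v g`, `A' = Col (U.erase v)`.
`Var g = E(g - P_v g)^2 + E (P_v g - E g)^2` (`ev_sq_split` with `φ = E g`), and
`E (G' - c)^2` with `c = ev A' G'`: `E(P_v g - E g)^2 = vr A G' ≤ E(G' - c)^2 ≤ (q/s) vr A' G'` by
`AprCmp` (first part). `vr A' G' ≤ P ∑_{x ∈ U.erase v} ev A' (G' - P'_x G')^2` by the hypothesis
`Poin`, and each term is at most `(6q/s) E(g-P_x g)^2 + (12q/s^3) E(g-P_v g)^2 1[x ∈ nb v]` by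
`AprNon`, `AprAdj`. As `|nb v| ≤ q`, the coefficient of `E(g-P_v g)^2` is at most
`1 + 12 P q^3/s^4 ≤ 7 P (q/s)^3` (`s ≥ 2`, `q ≥ s`, `P ≥ 1`), the others are at most
`6 P (q/s)^2 ≤ 7 P (q/s)^3`. (`q ≥ s` because `v ∈ U`, `card_nb_le_card`.) -/
def Apriori (V C : Type) [Fintype V] [Fintype C] : Prop :=
  AprCmp V C → AprNon V C → AprAdj V C → TwoSite C →
  ∀ (G : SimpleGraph V) (U : Finset V) (L : V → Finset C) (p : V → C) (s : ℕ) (v : V) (P : ℝ),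
    Good G U L s → v ∈ U → 1 ≤ P → Poin G (U.erase v) L p P →
    Poin G U L p (7 * ((Fintype.card C : ℝ) / s) ^ 3 * P)

/-! ## Part 2: concentration, local densities, the linear part -/

/-- **ConcA** Proof: Poincaré for `g = |av f u|`. If `x ∉ nb u` the term is `0` (`g` does not depend
on `f x`). If `x ∈ nb u`: `|av f u| = |W| - 1[f x ∈ W]`, `W = avX {x} f u` does not depend on `f x`,
so by `ev_sub_hb_sq_le` with `φ = |W|` the term is at most `1`. `|nb u| ≤ q`. -/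
def ConcA (V C : Type) [Fintype V] [Fintype C] : Prop :=
  ∀ (G : SimpleGraph V) (U : Finset V) (L : V → Finset C) (p : V → C) (s : ℕ) (P : ℝ) (u : V),
    Good G U L s → u ∈ U → 0 ≤ P → Poin G U L p P →
    vr (Col G U L p) (fun f => ((av G U L f u).card : ℝ)) ≤ P * (Fintype.card C : ℝ)

/-- **W4** Double counting. (1) `∑_{x∈U} k(x,u)^2 = w4 u` for `k = kn`; (2) the same with weights.
Proof: (1) `k(x,u)^2 = ∑_{v,v' ∈ nb u} 1[x ~ v] 1[x ~ v']`, swap the sums. (2)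
`∑_{x,y∈U} k(x,y) ∑_{v ∈ nb x ∩ nb y} F v = ∑_{v∈U} F v ∑_{x,y∈nb v} k(x,y)` and
`∑_{x,y ∈ nb v} k(x,y) = w4 v` by definition. -/
def W4 (V : Type) [Fintype V] : Prop :=
  ∀ (G : SimpleGraph V) (U : Finset V),
    (∀ u ∈ U, ∑ x ∈ U, ((kn G U x u : ℝ)) ^ 2 = (w4 G U u : ℝ)) ∧
    ∀ F : V → ℝ, ∑ x ∈ U, ∑ y ∈ U, (kn G U x y : ℝ) * ∑ v ∈ (nb G U x) ∩ (nb G U y), F v =
      ∑ v ∈ U, (w4 G U v : ℝ) * F v

/-- **ConcS** Proof: let `S f = ∑_{v ∈ nb u} pr_v(c)(f)`. Poincaré: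
`Var S ≤ P ∑_{x∈U} E(S-P_x S)^2`. For `x ∈ U` use `ev_sub_hb_sq_le_avg`:
`E(S - P_x S)^2 ≤ E[mean over b ∈ av f x of (S f - S f[x→b])^2]`. Only the `v ∈ nb u ∩ nb x`
contribute to `S f - S f[x→b]` (`av_update_of_notMem`, `av_update_self`). For such `v` let
`W = avX {x} f v` (not changed by recolouring `x`), `|W| ≥ s+1`, `av f v = W.erase (f x)`,
`av f[x→b] v = W.erase b`. If `c ∉ W` both `pr` vanish; if `c ∈ W`, `c ≠ f x`, `c ≠ b` the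
difference is at most `1/(w-1) - 1/w ≤ r^2`; in all cases it is at most `r` in absolute value and
if `c ∈ {f x, b}` that is what we use. So `|S f - S f[x→b]| ≤ k (r^2 + r 1[f x = c] +
r 1[b = c])`, `k = kn x u`; the square is at most `k^2 · (3 r^4 + 3 r^2 1[f x = c] +
3 r^2 1[b=c])`. Mean: `E 1[f x = c] = mg x c ≤ r` and `E[mean_b 1[b=c]] = E pr_x(c) ≤ r`.
So the `x`-term is at most `k^2 (3 r^4 + 6 r^3) ≤ 8 k^2 r^3` (`r ≤ 1/2`). Sum over `x` with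
`W4` (1). -/
def ConcS (V C : Type) [Fintype V] [Fintype C] : Prop :=
  W4 V →
  ∀ (G : SimpleGraph V) (U : Finset V) (L : V → Finset C) (p : V → C) (s : ℕ) (P : ℝ) (u : V)
    (c : C), Good G U L s → u ∈ U → 0 ≤ P → Poin G U L p P →
    vr (Col G U L p) (fun f => ∑ v ∈ nb G U u, pr G U L v c f) ≤
      8 * P * (w4 G U u : ℝ) / (s : ℝ) ^ 3

/-- **Gen** Poisson type estimate for `P(no neighbour of u has colour c)`.
Proof: let `N f = #{v ∈ nb u : f v = c}`, `S = ∑_{v∈nb u} pr_v(c)`, `σ = sm u c = E S = E N`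
(`mg_eq`), `φ(z) = E z^N` for `z ∈ [0,1]`. `φ(1) = 1`, `φ(0) = E no` (`0^0 = 1`).
`φ'(z) = E[N z^(N-1)] = ∑_v E[1(f v = c) z^(N_v)]`, `N_v = #{v' ∈ nb u, v' ≠ v : f v' = c}`
(if `f v = c`, `N - 1 = N_v`). `z^(N_v)` does not depend on `f v`, so by `ev_color_mul` the term is
`E[pr_v(c) z^(N_v)]`, and `|E[pr_v(c)(z^(N_v) - z^N)]| ≤ E[pr_v(c) 1(f v = c)] = E[pr_v(c)^2] ≤
r mg v c` (again `ev_color_mul`; `z^(N_v) = z^N` if `f v ≠ c`). So `|φ'(z) - E[S z^N]| ≤ r σ`, and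
`|E[S z^N] - σ φ(z)| ≤ √(Var S) √(Var z^N) ≤ √(Var S)` (`abs_ev_mul_sub_le`, `Var z^N ≤ E z^(2N) ≤
1`). `σ ≤ |nb u| r ≤ q/s`. So `|φ' - σ φ| ≤ e1 := √(Var S) + q/s^2`. Let `ψ(z) = φ(z) e^(-σ z)`:
`|ψ'| ≤ e1`, so `|ψ(1) - ψ(0)| ≤ e1`, i.e. `|e^(-σ) - φ(0)| ≤ e1`. -/
def Gen (V C : Type) [Fintype V] [Fintype C] : Prop :=
  ∀ (G : SimpleGraph V) (U : Finset V) (L : V → Finset C) (p : V → C) (s : ℕ) (u : V)
    (c : C), Good G U L s → u ∈ U →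
    |ev (Col G U L p) (no G U u c) - Real.exp (-(sm G U (Col G U L p) u c))| ≤
      √(vr (Col G U L p) (fun f => ∑ v ∈ nb G U u, pr G U L v c f)) +
        (Fintype.card C : ℝ) / (s : ℝ) ^ 2

/-- **Dens** The local density bound. Proof: let `l = |L u|`, `d = |nb u|`, `d + s ≤ l ≤ q`,
`ε = s/q ≤ 1/2`, `σ_a = sm u a`, `A_u = |av f u| = ∑_{a∈L u} no u a f`. If `c ∉ L u` then
`mg u c = 0`. Let `c ∈ L u`.
(1) `E A_u = ∑_{a ∈ L u} E no ≥ ∑_{a∈L u} (e^{-σ_a} - e1) ≥ e^{-1}(2l - d) - l e1`, since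
`e^{-x} ≥ e^{-1}(2 - x)` and `∑_a σ_a ≤ d` (`sum_mg`).
(2) `mg u c · E A_u = E[Y/A_u] E A_u ≤ E Y + (1/s) E|A_u - E A_u| ≤ E Y + V1/s`, `Y = no u c`
(`mg_eq`: `mg u c = E pr_u(c) = E[Y/A_u]` as `c ∈ L u`; `Y/A_u · E A_u = Y + Y (E A_u - A_u)/A_u`,
`A_u ≥ s`, `E|A_u - E A_u| ≤ √Var`). So `mg u c · E A_u ≤ e^{-σ_c} + e1 + V1/s`.
(3) Multiply by `d σ_c`, `σ_c e^{-σ_c} ≤ e^{-1}`, `σ_c ≤ d/s ≤ q/s`:
`d σ_c mg u c · E A_u ≤ d (e^{-1} + e2)`, `e2 = (q/s)(e1 + V1/s)`.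
(4) With `e = exp 1 < 3`: `d σ_c mg u c (2l - d - e l e1) ≤ d (1 + e e2)`, and
`d (1 + e e2) ≤ (1-ε)(l + s - e l e1) ≤ (1 - ε)(2l - d - e l e1)` because `d ≤ l - s`,
`(1-ε)(l+s) - (l-s) = 2s - ε(l+s) ≥ s (1-ε) ≥ s/2 ≥ e q (e1+e2) ≥ e l (e1 + e2)` (`e (e1+e2) ≤
3 · s/(6q)`). Also `l + s - e l e1 > 0`. -/
def Dens (V C : Type) [Fintype V] [Fintype C] : Prop :=
  ∀ (G : SimpleGraph V) (U : Finset V) (L : V → Finset C) (p : V → C) (s : ℕ) (u : V)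
    (e1 V1 : ℝ), Good G U L s → u ∈ U → 2 * s ≤ Fintype.card C → 0 ≤ e1 → 0 ≤ V1 →
    (∀ c, |ev (Col G U L p) (no G U u c) - Real.exp (-(sm G U (Col G U L p) u c))| ≤ e1) →
    √(vr (Col G U L p) (fun f => ((av G U L f u).card : ℝ))) ≤ V1 →
    e1 + (Fintype.card C : ℝ) / s * (e1 + V1 / s) ≤ (s : ℝ) / (6 * (Fintype.card C : ℝ)) →
    ∀ c, mg (Col G U L p) u c * ((nb G U u).card : ℝ) * sm G U (Col G U L p) u c ≤
      1 - (s : ℝ) / (Fintype.card C : ℝ)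

/-- **Form** The linearised heat bath is a contraction. Proof: `|p_u p_v k_u k_v| ≤
√(p_u p_v) (p_u k_u^2 + p_v k_v^2)/2`; by symmetry (`sum_nb_comm`) the sum is at most
`∑_v ∑_c p_v k_v^2 · √p_v ∑_{u∈nb v} √p_u`, and `√p_v ∑_{u∈nb v} √p_u ≤ √(p_v |nb v| ∑_{u∈nb v} p_u)
≤ θ` (Cauchy-Schwarz and the hypothesis). -/
def Form (V C : Type) [Fintype V] [Fintype C] : Prop :=
  ∀ (G : SimpleGraph V) (U : Finset V) (A : Finset (V → C)) (k : V → C → ℝ) (θ : ℝ), 0 ≤ θ →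
    (∀ u ∈ U, ∀ c, mg A u c * ((nb G U u).card : ℝ) * sm G U A u c ≤ θ ^ 2) →
    |TT G U A k| ≤ θ * nrm A U k

/-! ## Part 3: the remainder `RR` of the linearisation -/

/-- **Loc** The part of `RR` which depends on `f x`. Proof: split the sum over `v ∈ U` in `RR` into
`v ∉ nb x` and `v ∈ nb x` (`v ∈ nb x ↔ x ∈ nb v` for `v ∈ U`). For `v ∉ nb x` (in particular
`v = x`) the summand does not depend on `f x` (`ind_hbh` for `v = x`, `av_update_of_notMem` else;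
`x ∉ nb v` so `f u`, `u ∈ nb v`, is not changed). For `v ∈ nb x`, put `W = avX {x} f v`, `a = f x`:
`av f v = W.erase a`, so `hbh v f = m0 + Y_a (m0 - h v a)/(|W| - 1) = m0 + de` (if `a ∉ W` then
`hbh = m0`; if `a ∈ W`: `hbh = (|W| m0 - h v a)/(|W|-1)`). Hence the summand is
`m0 + ∑_{u ∈ nb v, u ≠ x} p_v(f u) h v (f u) + [p_v(a) h v a - Y_a h v a/(|W|-1) + Y_a m0/(|W|-1)]
= (independent of f x) + h v a · xi x v a + ta x v`. (`m0`, `W` do not depend on `f x`: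
`avX_update_of_mem`.) -/
def Loc (V C : Type) [Fintype V] [Fintype C] : Prop :=
  ∀ (G : SimpleGraph V) (U : Finset V) (L : V → Finset C) (p : V → C) (s : ℕ) (x : V)
    (h : V → C → ℝ), Good G U L s → x ∈ U →
    Ind x (fun f => RR G U L p h f -
      (Ph G U L p h x (f x) f + ∑ v ∈ nb G U x, ta G U L h x v f)) ∧
    ∀ v ∈ nb G U x, ∀ f, hbh G U L h v f = m0 G U L h x v f + de G U L h x v f

/-- **YB** Bounds for the probability that a colour is available. Proof: (1) `E yX ∅ v a =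
E 1[a ∈ av f v] ≤ q E pr_v(a) = q mg v a` (`1[a∈av] ≤ q · 1[a ∈ av]/|av|`). (2) If `y ∈ X` or
`y ∉ nb v` then `yX (insert y X) = yX X` (and `E yX ≥ 0`). If `y ∈ nb v`, `y ∉ X`:
`yX X v a f = yX (insert y X) v a f · (1 - 1[f y = a])` and `yX (insert y X) v a` does not depend
on `f y`, so by `ev_color_mul` `E yX X = E[yX (insert y X) (1 - pr_y(a))] ≥ (1/2) E yX (insert y X)`
(`pr ≤ 1/s ≤ 1/2`). (3),(4): combine. -/
def YB (V C : Type) [Fintype V] [Fintype C] : Prop :=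
  ∀ (G : SimpleGraph V) (U : Finset V) (L : V → Finset C) (p : V → C) (s : ℕ) (v : V) (a : C),
    Good G U L s → v ∈ U →
    (∀ x ∈ U, ev (Col G U L p) (yX G U L {x} v a) ≤
      2 * (Fintype.card C : ℝ) * mg (Col G U L p) v a) ∧
    (∀ x ∈ U, ∀ y ∈ U, ev (Col G U L p) (yX G U L {x, y} v a) ≤
      4 * (Fintype.card C : ℝ) * mg (Col G U L p) v a)

/-- **M0a** Proof: `m0^2 ≤ (1/|W|) ∑_{c∈W} h^2 ≤ (1/s) ∑_c Y_c h_c^2` with `W = avX {x} f v`,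
`|W| ≥ s`, `Y_c = yX {x} v c`; take `E` and use `YB`. -/
def M0a (V C : Type) [Fintype V] [Fintype C] : Prop :=
  YB V C →
  ∀ (G : SimpleGraph V) (U : Finset V) (L : V → Finset C) (p : V → C) (s : ℕ) (x v : V)
    (h : V → C → ℝ), Good G U L s → x ∈ U → v ∈ nb G U x →
    ev (Col G U L p) (fun f => (m0 G U L h x v f) ^ 2) ≤
      2 * (Fintype.card C : ℝ) / s * hn (Col G U L p) h v

/-- **Del** Proof: `|W| - 1 ≥ s`, `Y^2 = Y`, so `de^2 ≤ r^2 Y_{f x} (m0 - h(f x))^2 ≤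
2 r^2 m0^2 + 2 r^2 Y_{f x} h(f x)^2`. `E m0^2 ≤ 2 q r hn` (`M0a`). `E[Y_{f x} h(f x)^2] =
∑_a E[1(f x = a) Y_a] h_a^2 = ∑_a E[pr_x(a) Y_a] h_a^2 ≤ r ∑_a 2 q p_v(a) h_a^2 = 2 q r hn`
(`ev_color_mul`, as `Y_a = yX {x} v a` does not depend on `f x`; `YB`). Total `8 q r^3 hn`. -/
def Del (V C : Type) [Fintype V] [Fintype C] : Prop :=
  YB V C → M0a V C →
  ∀ (G : SimpleGraph V) (U : Finset V) (L : V → Finset C) (p : V → C) (s : ℕ) (x v : V)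
    (h : V → C → ℝ), Good G U L s → x ∈ U → v ∈ nb G U x →
    ev (Col G U L p) (fun f => (de G U L h x v f) ^ 2) ≤
      8 * (Fintype.card C : ℝ) / (s : ℝ) ^ 3 * hn (Col G U L p) h v

/-- **M0b** Proof: `E hbh_v = E h_v(f v) = ∑ p h = 0` (`hb_single`, `ev_hb`, `ev_single`), so
`E hbh^2 = Var hbh ≤ P ∑_{x∈U} E(hbh - P_x hbh)^2`. If `x ∉ nb v` (or `x = v`) the term is `0`. If
`x ∈ nb v`: `hbh = m0 + de` (`Loc`), `m0 = m0 x v` does not depend on `f x`, so the term is at most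
`E de^2 ≤ 8 q r^3 hn` (`ev_sub_hb_sq_le` with `φ = m0`, `Del`). `|nb v| ≤ q`. -/
def M0b (V C : Type) [Fintype V] [Fintype C] : Prop :=
  YB V C → M0a V C → Del V C → Loc V C →
  ∀ (G : SimpleGraph V) (U : Finset V) (L : V → Finset C) (p : V → C) (s : ℕ) (P : ℝ) (v : V)
    (h : V → C → ℝ), Good G U L s → v ∈ U → 0 ≤ P → Poin G U L p P →
    ∑ c, mg (Col G U L p) v c * h v c = 0 →
    ev (Col G U L p) (fun f => (hbh G U L h v f) ^ 2) ≤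
      8 * P * (Fintype.card C : ℝ) ^ 2 / (s : ℝ) ^ 3 * hn (Col G U L p) h v

/-- **M0c** Proof: `m0 = hbh - de` (`Loc`), `m0^2 ≤ 2 hbh^2 + 2 de^2`, `M0b` and `Del`:
`16 P q^2 r^3 + 16 q r^3 ≤ 32 P q^2 r^3` (`P ≥ 1`, `q ≥ 1`). -/
def M0c (V C : Type) [Fintype V] [Fintype C] : Prop :=
  YB V C → M0a V C → Del V C → Loc V C → M0b V C →
  ∀ (G : SimpleGraph V) (U : Finset V) (L : V → Finset C) (p : V → C) (s : ℕ) (P : ℝ) (x v : V)
    (h : V → C → ℝ), Good G U L s → x ∈ U → v ∈ nb G U x → 1 ≤ P → Poin G U L p P →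
    ∑ c, mg (Col G U L p) v c * h v c = 0 →
    ev (Col G U L p) (fun f => (m0 G U L h x v f) ^ 2) ≤
      32 * P * (Fintype.card C : ℝ) ^ 2 / (s : ℝ) ^ 3 * hn (Col G U L p) h v

/-- **Tau** Given the bound `E m0^2 ≤ M hn` (hypothesis). Proof: `|ta| ≤ r |m0|`
(`0 ≤ Y ≤ 1`, `|W| - 1 ≥ s`), `(∑_{v∈nb x} ta)^2 ≤ |nb x| ∑ ta^2 ≤ q r^2 ∑_{v∈nb x} m0^2`. Take
`E`, sum over `x ∈ U`, swap (`sum_nb_comm`), `∑_{x∈nb v} 1 ≤ q`. -/
def Tau (V C : Type) [Fintype V] [Fintype C] : Prop :=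
  ∀ (G : SimpleGraph V) (U : Finset V) (L : V → Finset C) (p : V → C) (s : ℕ) (M : ℝ)
    (h : V → C → ℝ), Good G U L s → 0 ≤ M →
    (∀ x ∈ U, ∀ v ∈ nb G U x, ev (Col G U L p) (fun f => (m0 G U L h x v f) ^ 2) ≤
      M * hn (Col G U L p) h v) →
    ∑ x ∈ U, ev (Col G U L p) (fun f => (∑ v ∈ nb G U x, ta G U L h x v f) ^ 2) ≤
      M * (Fintype.card C : ℝ) ^ 2 / (s : ℝ) ^ 2 * nrm (Col G U L p) U h

/-- **XiM** The mean of `ξ`. Proof: `mg v a = E pr_v(a)` (`mg_eq`). With `W = avX {x} f v`,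
`w = |W| ≥ s+1`, `Y = 1[a ∈ W]`, `av f v = W.erase (f x)`:
`pr_v(a) - Y/(w-1)` is `0` if `a ∉ W` or if `f x ∈ W`, `f x ≠ a`; it is `-1/(w-1)` if `f x = a ∈ W`
and `1/w - 1/(w-1) ≥ -r^2` if `a ∈ W`, `f x ∉ W`. So `0 ≥ E ξ ≥ -E[Y (r 1(f x = a) + r^2)] =
-E[Y (r pr_x(a) + r^2)] ≥ -2 r^2 E Y ≥ -4 q r^2 mg v a` (`ev_color_mul`, `YB`). -/
def XiM (V C : Type) [Fintype V] [Fintype C] : Prop :=
  YB V C →
  ∀ (G : SimpleGraph V) (U : Finset V) (L : V → Finset C) (p : V → C) (s : ℕ) (x v : V) (a : C),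
    Good G U L s → x ∈ U → v ∈ nb G U x →
    |ev (Col G U L p) (xi G U L p x v a)| ≤
      4 * (Fintype.card C : ℝ) / (s : ℝ) ^ 2 * mg (Col G U L p) v a

/-- **XiMS** Proof: `|E Φ_{x,a}| ≤ 4 q r^2 ∑_{v∈nb x} p_v(a) |h_v(a)|` (`XiM`), and by
Cauchy-Schwarz `(∑_v p_v |h_v|)^2 ≤ (∑_{v∈nb x} p_v) ∑_{v∈nb x} p_v h_v^2 ≤ q r ∑_{v∈nb x} p_v h_v^2`
(`p_v ≤ r`, `|nb x| ≤ q`). Sum over `a`, `x` and swap (`sum_nb_comm`), `∑_{x∈nb v} 1 ≤ q`. -/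
def XiMS (V C : Type) [Fintype V] [Fintype C] : Prop :=
  YB V C → XiM V C →
  ∀ (G : SimpleGraph V) (U : Finset V) (L : V → Finset C) (p : V → C) (s : ℕ)
    (h : V → C → ℝ), Good G U L s →
    ∑ x ∈ U, ∑ a, (ev (Col G U L p) (Ph G U L p h x a)) ^ 2 ≤
      16 * (Fintype.card C : ℝ) ^ 4 / (s : ℝ) ^ 5 * nrm (Col G U L p) U h

/-- **XiV** The variance of `Φ_{x,a}`. Proof: Poincaré; let `y ∈ U`. If `y = x`, `Φ_{x,a}` does not
depend on `f x` (`ind_yX`, `avX_update_of_mem`) and the term is `0`. Let `y ≠ x`. For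
`v ∈ nb x`, `v ∉ nb y` (so `y ∉ nb v`): `ξ_v` does not depend on `f y` (`avX_update_of_notMem`, also
for `v = y`, `avX_update_self`). For `v ∈ nb x ∩ nb y` let `W' = avX {x,y} f v` (does not depend on
`f y`), `w' ≥ s + 2` (`card_avX_ge`), `W = avX {x} f v = W'.erase (f y)`; let
`b_v = 1[a∈W']/(w'-2)`. Then `|Y_a/(|W|-1) - b_v| ≤ 1[a ∈ W'] (r 1[f y = a] + r^2)` (equal if
`f y ∈ W'`, `f y ≠ a`; `1/(w'-2) ≤ r` if `f y = a`; `1/(w'-2) - 1/(w'-1) ≤ r^2` if `f y ∉ W'`).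
By `ev_sub_hb_sq_le` with `φ` = `Φ_{x,a}` with `Y_a/(|W|-1)` replaced by `b_v` for these `v`,
`E(Φ - P_y Φ)^2 ≤ E(∑_{v ∈ nb x ∩ nb y} h_v(a) D_v)^2 ≤ k ∑_v h_v(a)^2 E D_v^2`, `k = kn x y`,
`D_v^2 ≤ 1[a∈W'] (2 r^2 1[f y = a] + 2 r^4)`, `E D_v^2 ≤ (2 r^3 + 2 r^4) E 1[a∈W'] ≤
3 r^3 · 4 q p_v(a)` (`ev_color_mul`: `E[1(a∈W') 1(f y = a)] = E[1(a∈W') pr_y(a)]`; `YB`). -/
def XiV (V C : Type) [Fintype V] [Fintype C] : Prop :=
  YB V C →
  ∀ (G : SimpleGraph V) (U : Finset V) (L : V → Finset C) (p : V → C) (s : ℕ) (P : ℝ) (x : V)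
    (a : C) (h : V → C → ℝ), Good G U L s → x ∈ U → 0 ≤ P → Poin G U L p P →
    vr (Col G U L p) (Ph G U L p h x a) ≤
      12 * P * (Fintype.card C : ℝ) / (s : ℝ) ^ 3 *
        ∑ y ∈ U, (kn G U x y : ℝ) *
          ∑ v ∈ (nb G U x) ∩ (nb G U y), mg (Col G U L p) v a * (h v a) ^ 2

/-- **XiS** Proof: `Φ_{x,a}` does not depend on `f x`, so `E[Φ_{x,f x}^2] =
∑_a E[1(f x = a) Φ_{x,a}^2] = ∑_a E[pr_x(a) Φ_{x,a}^2] ≤ r ∑_a E Φ_{x,a}^2 =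
r ∑_a ((E Φ)^2 + Var Φ)` (`ev_color_mul`, `pr_le`, `vr_eq`). Sum over `x`; first part: `XiMS`.
Second: `XiV` and `W4` (2) with `F v = mg v a (h v a)^2`, `w4 ≤ Q0`; sum over `a`. -/
def XiS (V C : Type) [Fintype V] [Fintype C] : Prop :=
  YB V C → XiM V C → XiMS V C → XiV V C → W4 V →
  ∀ (G : SimpleGraph V) (U : Finset V) (L : V → Finset C) (p : V → C) (s : ℕ) (P Q0 : ℝ)
    (h : V → C → ℝ), Good G U L s → 0 ≤ P → Poin G U L p P → (∀ v ∈ U, (w4 G U v : ℝ) ≤ Q0) →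
    ∑ x ∈ U, ev (Col G U L p) (fun f => (Ph G U L p h x (f x) f) ^ 2) ≤
      (16 * (Fintype.card C : ℝ) ^ 4 / (s : ℝ) ^ 6 +
        12 * P * (Fintype.card C : ℝ) * Q0 / (s : ℝ) ^ 4) * nrm (Col G U L p) U h

/-- **RBound** Proof: Poincaré, `Loc` and `ev_sub_hb_sq_le`: `E(R - P_x R)^2 ≤
E(Φ_{x,f x} + ∑ ta)^2 ≤ 2 E Φ_{x,f x}^2 + 2 E(∑ ta)^2`. Sum over `x`; hypotheses (1), (2) with
`M = 32 P q^2 r^3`. `2 P (16 q^4 r^6 + 12 P q Q0 r^4 + 32 P q^4 r^5) ≤ P^2 (24 q Q0 r^4 +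
80 q^4 r^5)` (`P ≥ 1`, `r ≤ 1/2`). -/
def RBound (V C : Type) [Fintype V] [Fintype C] : Prop :=
  Loc V C →
  ∀ (G : SimpleGraph V) (U : Finset V) (L : V → Finset C) (p : V → C) (s : ℕ) (P Q0 : ℝ)
    (h : V → C → ℝ), Good G U L s → 1 ≤ P → 0 ≤ Q0 → Poin G U L p P →
    ∑ x ∈ U, ev (Col G U L p) (fun f => (Ph G U L p h x (f x) f) ^ 2) ≤
      (16 * (Fintype.card C : ℝ) ^ 4 / (s : ℝ) ^ 6 +
        12 * P * (Fintype.card C : ℝ) * Q0 / (s : ℝ) ^ 4) * nrm (Col G U L p) U h →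
    ∑ x ∈ U, ev (Col G U L p) (fun f => (∑ v ∈ nb G U x, ta G U L h x v f) ^ 2) ≤
      32 * P * (Fintype.card C : ℝ) ^ 2 / (s : ℝ) ^ 3 * (Fintype.card C : ℝ) ^ 2 / (s : ℝ) ^ 2 *
        nrm (Col G U L p) U h →
    vr (Col G U L p) (RR G U L p h) ≤
      P ^ 2 * (24 * (Fintype.card C : ℝ) * Q0 / (s : ℝ) ^ 4 +
        80 * (Fintype.card C : ℝ) ^ 4 / (s : ℝ) ^ 5) * nrm (Col G U L p) U h

/-! ## Part 4: the smoothing inequality and the vertex recursion -/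

/-- **Star** Proof: let `k = kk A g` (centred, `cen_kk`), `F f = ∑_{v∈U} k v (f v)`.
`nrm = ∑_v Cov(g, k_v(f v)) = E[g F]` (`ev_mul_single` with `h = k v`, and `∑_c p k = 0`). For each
`v`: `k_v(f v) = (k_v(f v) - hbh_v) + hbh_v` and `∑_v hbh_v = RR - ∑_v ∑_{u∈nb v} p_v(f u) k_v(f u)`.
(1) `E[g (k_v(f v) - hbh_v)] = E[(g - P_v g)(k_v(f v) - hbh_v)]` (`hbh_v = P_v(k_v(f v))`, `hb_single`,
`E[(P_v g)(k_v - P_v k_v)] = 0` by `ev_ind_mul`) `≤ √(E(g-P_v g)^2) √(hn v)` (`E(k_v - P_v k_v)^2 ≤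
E k_v^2 = hn`, `ev_hb_sq_le`, `ev_single`); sum over `v`: `≤ √dir √nrm`.
(2) `E[g RR] - E g E RR ≤ √(Var g) √(Var RR) ≤ η √(Var g) √nrm`.
(3) `E[g p_v(f u) k_v(f u)] - E g E[p_v(f u) k_v(f u)] = ∑_c p_u(c) k_u(c) p_v(c) k_v(c)`
(`ev_mul_single`), and `E RR = ∑_v ∑_{u} E[p_v(f u) k_v(f u)]` because `E hbh_v = E k_v(f v) = 0`.
So `nrm = (1) + (2) - TT ≤ √dir √nrm + η √Var √nrm + θ nrm`. Hence `(1-θ) √nrm ≤ √dir + η √Var`,
`(1-θ)^2 nrm ≤ 2 dir + 2 η^2 Var` and `1 - θ ≥ s/(2q)`. (`dir`, `nrm ≥ 0`; if `nrm = 0` trivial.) -/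
def Star (V C : Type) [Fintype V] [Fintype C] : Prop :=
  ∀ (G : SimpleGraph V) (U : Finset V) (L : V → Finset C) (p : V → C) (s : ℕ) (η θ : ℝ)
    (g : (V → C) → ℝ), Good G U L s → 0 < Fintype.card C → 0 ≤ η →
    θ ≤ 1 - (s : ℝ) / (2 * (Fintype.card C : ℝ)) →
    |TT G U (Col G U L p) (kk (Col G U L p) g)| ≤
      θ * nrm (Col G U L p) U (kk (Col G U L p) g) →
    vr (Col G U L p) (RR G U L p (kk (Col G U L p) g)) ≤
      η ^ 2 * nrm (Col G U L p) U (kk (Col G U L p) g) →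
    nrm (Col G U L p) U (kk (Col G U L p) g) ≤
      8 * ((Fintype.card C : ℝ) / s) ^ 2 * η ^ 2 * vr (Col G U L p) g +
        8 * ((Fintype.card C : ℝ) / s) ^ 2 * dir G U L p g

/-- **Rec** (sets only). Proof: induction on `|T|`, claim `a T ≤ K ∑_{v∈T} b v`,
`K = K2/(1-K1)`. Summing the hypothesis: `|T| a(T) ≤ ∑_v a(T.erase v) + K1 a(T) + K2 b(T) ≤
K (|T|-1) b(T) + K1 a(T) + K2 b(T)`, i.e. `(|T| - K1) a(T) ≤ K (|T| - K1) b(T)` as `K2 = K (1-K1)`.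
-/
def Rec (V : Type) [Fintype V] : Prop :=
  ∀ (U : Finset V) (a : Finset V → ℝ) (b : V → ℝ) (K1 K2 : ℝ), 0 ≤ K1 → K1 < 1 → 0 ≤ K2 →
    (∀ v, 0 ≤ b v) → a ∅ ≤ 0 →
    (∀ T, T ⊆ U → ∑ v ∈ T, (a T - a (T.erase v)) ≤ K1 * a T + K2 * ∑ v ∈ T, b v) →
    a U ≤ K2 / (1 - K1) * ∑ v ∈ U, b v

/-- **Bridge** The law conditioned on the colours outside `T ⊆ U` is again of the same type, with
lists `avX G U L T f` (colours of `L v` not used by the neighbours of `v` in `U \ T`). Parts: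
(1) the class of `f`; (2) the slack is preserved (`card_avX_ge`, `nb G T v = nb G U v ∩ T`);
(3) `w4` decreases; (4) heat baths agree on the class (`av G T (avX ...) f' v = av G U L f' v` for
`f' ∈ cls`, `v ∈ T`, because `f' = f` outside `T`). -/
def Bridge (V C : Type) [Fintype V] [Fintype C] : Prop :=
  ∀ (G : SimpleGraph V) (U : Finset V) (L : V → Finset C) (p : V → C) (s : ℕ) (T : Finset V)
    (f : V → C), Good G U L s → T ⊆ U → f ∈ Col G U L p →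
    cls (Col G U L p) (Tᶜ) f = Col G T (fun v => avX G U L T f v) f ∧
    Good G T (fun v => avX G U L T f v) s ∧
    (∀ v ∈ T, w4 G T v ≤ w4 G U v) ∧
    ∀ (g : (V → C) → ℝ), ∀ v ∈ T, ∀ f' ∈ cls (Col G U L p) (Tᶜ) f,
      hb G T (fun v => avX G U L T f v) v g f' = hb G U L v g f'

/-- **NrmVr** `nrm` of the family `kk A g` in terms of variances of `E[g | f v]`. Proof: the mean of
`f ↦ H (f v)`, `H c = ev (A.filter (f v = c)) g`, is `∑_c mg v c H c = ev A g` (`ev_single`,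
`mg_mul_ev`, `∑_c 1(f v = c) = 1`), so `vr = ∑_c mg v c (H c - ev A g)^2` by `ev_single`. -/
def NrmVr (V C : Type) [Fintype V] [Fintype C] : Prop :=
  ∀ (A : Finset (V → C)) (U : Finset V) (g : (V → C) → ℝ), A.Nonempty →
    nrm A U (kk A g) =
      ∑ v ∈ U, vr A (fun f => ev (A.filter (fun f' => f' v = f v)) g)

/-- **RecP** From the smoothing inequality for all pinned instances to Poincaré.
Proof: `Om = Col G U L p`, `a T = aa Om g (Tᶜ)`, `b v = ∑_{f∈Om} (g f - P_v g f)^2`. Let `T ⊆ U`,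
`S = Tᶜ`. For `v ∈ T`, `(T.erase v)ᶜ = insert v S`, and by `aa_insert`, `cE_insert_sq` (`MTower`):
`a T - a (T.erase v) = ∑_{f∈Om} vr (cls Om S f) (f' ↦ ev ((cls Om S f).filter (· v = f' v)) g)`.
Sum over `v ∈ T`: `= ∑_{f∈Om} nrm (cls Om S f) T (kk (cls Om S f) g)` (`NrmVr`; `cls` nonempty:
`cls_mem_self`). The hypothesis for the instance `(G, T, avX G U L T f, f)` (`Bridge`) bounds this by
`∑_f (K1 vr (cls) g + K2 dir ...)`; `∑_f vr (cls Om S f) g = a T` (`aa_eq`), and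
`∑_f dir = ∑_f ∑_{v∈T} ev (cls Om S f) (g - P_v g)^2 = ∑_{v∈T} b v` (`Bridge` (4), `tower`).
`a ∅ = 0` (`∅ᶜ = univ`, the class of `f` is `{f}`), `a U = |Om| vr Om g` (the class of `f` is `Om`
because all elements of `Om` equal `p` outside `U`). Apply `Rec` and divide by `|Om|`. -/
def RecP (V C : Type) [Fintype V] [Fintype C] : Prop :=
  Rec V → Bridge V C → NrmVr V C →
  ∀ (G : SimpleGraph V) (U : Finset V) (L : V → Finset C) (p : V → C) (s : ℕ) (K1 K2 : ℝ),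
    Good G U L s → 0 ≤ K1 → K1 < 1 → 0 ≤ K2 →
    (∀ T, T ⊆ U → ∀ f ∈ Col G U L p, ∀ g : (V → C) → ℝ,
      nrm (Col G T (fun v => avX G U L T f v) f) T
          (kk (Col G T (fun v => avX G U L T f v) f) g) ≤
        K1 * vr (Col G T (fun v => avX G U L T f v) f) g +
          K2 * dir G T (fun v => avX G U L T f v) f g) →
    Poin G U L p (K2 / (1 - K1))

/-! ## Part 5: numbers, induction, final form -/

/-- **Num1** Pure real inequality. Main condition: `4·10^7 (Q0 + q^2) q^14 ≤ s^17`, `2 s ≤ q`.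
`P' = 112 (q/s)^5`, `e1 = √(8 P' Q0/s^3) + q/s^2`, `V1 = √(P' q)`.
Proof: `x := s/q ∈ (0, 1/2]`, so `Q0 q^14/s^17 ≤ 1/(4·10^7)` and `q^16/s^17 ≤ 1/(4·10^7)`.
`e1 + (q/s)(e1 + V1/s) ≤ (2q/s) e1 + (q/s^2) V1 = (2q/s) √(896 q^5 Q0/s^8) + 2 q^2/s^3 +
(q/s^2) √(112 q^6/s^5)`. Multiply by `q/s`, we need `≤ 1/6`: first term `2 √(896 q^9 Q0/s^12)` and
`q^9 Q0/s^12 = (Q0 q^14/s^17) x^5 ≤ 1/(4·10^7·32)`, so `≤ 2 √(896/1.28·10^9) ≤ 0.002`; second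
`2 q^3/s^4 = 2 (q^16/s^17) x^13`, tiny; third `√(112 q^10/s^11)`, `q^10/s^11 = (q^16/s^17) x^6`. -/
def Num1 : Prop :=
  ∀ (q s Q0 : ℝ), 2 ≤ s → 2 * s ≤ q → 0 ≤ Q0 → 40000000 * (Q0 + q ^ 2) * q ^ 14 ≤ s ^ 17 →
    (√(8 * (112 * (q / s) ^ 5) * Q0 / s ^ 3) + q / s ^ 2) +
      q / s * ((√(8 * (112 * (q / s) ^ 5) * Q0 / s ^ 3) + q / s ^ 2) +
        √(112 * (q / s) ^ 5 * q) / s) ≤ s / (6 * q)

/-- **Num2** `8 (q/s)^2 η^2 ≤ 1/2` for `η^2 = P'^2 (24 q Q0/s^4 + 80 q^4/s^5)`, `P' = 112 (q/s)^5`.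
Proof: the left side is `8·112^2 (24 q^13 Q0/s^16 + 80 q^16/s^17)`, and `q^13 Q0/s^16 =
(Q0 q^14/s^17)(s/q) ≤ (1/2)/(4·10^7)·...`; `8·12544·(12 + 80)/(4·10^7) < 1/2` (in fact the sum
`Q0 q^14/s^17 + q^16/s^17 ≤ 1/(4·10^7)`, so `8·12544·80/(4·10^7) ≤ 0.21`). -/
def Num2 : Prop :=
  ∀ (q s Q0 : ℝ), 2 ≤ s → 2 * s ≤ q → 0 ≤ Q0 → 40000000 * (Q0 + q ^ 2) * q ^ 14 ≤ s ^ 17 →
    8 * (q / s) ^ 2 * ((112 * (q / s) ^ 5) ^ 2 * (24 * q * Q0 / s ^ 4 + 80 * q ^ 4 / s ^ 5)) ≤ 1 / 2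

/-- The smoothing inequality with `K1 ≤ 1/2`, from the Poincaré inequality with `P' = 112 (q/s)^5`.
(Assembly of parts 2, 3 and `Star`.) -/
def StarAll (V C : Type) [Fintype V] [Fintype C] : Prop :=
  ∀ (G : SimpleGraph V) (U : Finset V) (L : V → Finset C) (p : V → C) (s : ℕ) (Q0 : ℝ),
    Good G U L s → 2 * s ≤ Fintype.card C → (∀ v ∈ U, (w4 G U v : ℝ) ≤ Q0) → 0 ≤ Q0 →
    40000000 * (Q0 + (Fintype.card C : ℝ) ^ 2) * (Fintype.card C : ℝ) ^ 14 ≤ (s : ℝ) ^ 17 →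
    Poin G U L p (112 * ((Fintype.card C : ℝ) / s) ^ 5) →
    ∀ g : (V → C) → ℝ,
      nrm (Col G U L p) U (kk (Col G U L p) g) ≤
        1 / 2 * vr (Col G U L p) g + 8 * ((Fintype.card C : ℝ) / s) ^ 2 * dir G U L p g

/-- **Main** Poincaré inequality with the constant `16 (q/s)^2` for the whole class.
(Assembly: induction on `|U|`.) -/
def Main (V C : Type) [Fintype V] [Fintype C] : Prop :=
  ∀ (G : SimpleGraph V) (U : Finset V) (L : V → Finset C) (p : V → C) (s : ℕ) (Q0 : ℝ),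
    Good G U L s → 2 * s ≤ Fintype.card C → (∀ v ∈ U, (w4 G U v : ℝ) ≤ Q0) → 0 ≤ Q0 →
    40000000 * (Q0 + (Fintype.card C : ℝ) ^ 2) * (Fintype.card C : ℝ) ^ 14 ≤ (s : ℝ) ^ 17 →
    Poin G U L p (16 * ((Fintype.card C : ℝ) / s) ^ 2)

end Pool.Agent.Eps26
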