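import Pool.Agent.Lib.MP_26a019_lc.Eps.Spec

set_option autoImplicit false
set_option linter.unusedSectionVars false
set_option linter.unusedVariables false

/-!
# The variance of `Φ_{x,a}`
-/

open Finset Classical

namespace Pool.Agent.Eps26

open Pool.Agent.Kempe Pool.Agent.KempeMix

namespace XiVAux

variable {V C : Type} [Fintype V] [Fintype C]

theorem avX_erase {G : SimpleGraph V} {U : Finset V} {L : V → Finset C} {f : V → C} {v x y : V}
    (hy : y ∈ nb G U v) (hxy : y ≠ x) :
    avX G U L {x} f v = (avX G U L {x, y} f v).erase (f y) := by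
  ext c
  rw [Finset.mem_erase, mem_avX, mem_avX]
  constructor
  · rintro ⟨h1, h2⟩
    refine ⟨fun h => h2 y hy ?_ h.symm, h1, fun u hu hX => h2 u hu fun h => hX ?_⟩
    · rw [Finset.mem_singleton]; exact hxy
    · rw [Finset.mem_insert]; exact Or.inl (Finset.mem_singleton.1 h)
  · rintro ⟨h1, h2, h3⟩
    refine ⟨h2, fun u hu hX => ?_⟩
    by_cases huy : u = y
    · subst huy; exact fun h => h1 h.symm
    · refine h3 u hu fun h => ?_
      rw [Finset.mem_insert, Finset.mem_singleton] at h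
      rcases h with h | h
      · exact hX (Finset.mem_singleton.2 h)
      · exact huy h

theorem card_avX_pair {G : SimpleGraph V} {U : Finset V} {L : V → Finset C} {s : ℕ}
    (hG : Good G U L s) {v x y : V} (hv : v ∈ U) (hx : x ∈ nb G U v) (hy : y ∈ nb G U v)
    (hxy : y ≠ x) (f : V → C) : s + 2 ≤ (avX G U L {x, y} f v).card := by
  have h := card_avX_ge hG hv {x, y} f
  have h2 : (nb G U v) ∩ {x, y} = {x, y} := by
    apply Finset.inter_eq_right.2
    intro u hu
    rw [Finset.mem_insert, Finset.mem_singleton] at hu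
    rcases hu with rfl | rfl
    · exact hx
    · exact hy
  rw [h2, Finset.card_pair hxy.symm] at h
  exact h

/-- the replacement of `Y_a / (|W| - 1)` -/
noncomputable def bb (G : SimpleGraph V) (U : Finset V) (L : V → Finset C) (x y v : V) (a : C)
    (f : V → C) : ℝ :=
  yX G U L {x, y} v a f / (((avX G U L {x, y} f v).card : ℝ) - 2)

/-- the difference -/
noncomputable def DD (G : SimpleGraph V) (U : Finset V) (L : V → Finset C) (x y v : V) (a : C)
    (f : V → C) : ℝ :=
  bb G U L x y v a f - yX G U L {x} v a f / (((avX G U L {x} f v).card : ℝ) - 1)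

theorem DD_sq_le {G : SimpleGraph V} {U : Finset V} {L : V → Finset C} {s : ℕ}
    (hG : Good G U L s) {v x y : V} (hv : v ∈ U) (hx : x ∈ nb G U v) (hy : y ∈ nb G U v)
    (hxy : y ≠ x) (a : C) (f : V → C) :
    (DD G U L x y v a f) ^ 2 ≤
      2 / (s : ℝ) ^ 2 * ((if f y = a then (1 : ℝ) else 0) * yX G U L {x, y} v a f) +
        2 / (s : ℝ) ^ 4 * yX G U L {x, y} v a f := by
  have hs : (0 : ℝ) < s := by have := hG.1; exact_mod_cast (by omega : 0 < s)
  have hw := card_avX_pair hG hv hx hy hxy f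
  have hwR : (s : ℝ) + 2 ≤ ((avX G U L {x, y} f v).card : ℝ) := by exact_mod_cast hw
  have he := avX_erase (L := L) (f := f) hy hxy
  unfold DD bb
  by_cases ha : a ∈ avX G U L {x, y} f v
  · have hy1 : yX G U L {x, y} v a f = 1 := by unfold yX; rw [if_pos ha]
    rw [hy1]
    by_cases hfa : f y = a
    · have h0 : yX G U L {x} v a f = 0 := by
        unfold yX
        rw [if_neg]
        rw [he, Finset.mem_erase]
        exact fun h => h.1 hfa.symm
      rw [h0, if_pos hfa, zero_div, sub_zero, div_pow, one_pow, mul_one, mul_one]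
      have h1 : (s : ℝ) ^ 2 ≤ (((avX G U L {x, y} f v).card : ℝ) - 2) ^ 2 :=
        pow_le_pow_left₀ hs.le (by linarith) 2
      have h2 : 1 / (((avX G U L {x, y} f v).card : ℝ) - 2) ^ 2 ≤ 1 / (s : ℝ) ^ 2 :=
        one_div_le_one_div_of_le (by positivity) h1
      have h3 : (0 : ℝ) ≤ 1 / (s : ℝ) ^ 2 := by positivity
      have h4 : (0 : ℝ) ≤ 2 / (s : ℝ) ^ 4 := by positivity
      have h5 : 2 / (s : ℝ) ^ 2 = 2 * (1 / (s : ℝ) ^ 2) := by ring
      rw [h5]
      linarith
    · have ha' : a ∈ avX G U L {x} f v := by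
        rw [he, Finset.mem_erase]
        exact ⟨fun h => hfa h.symm, ha⟩
      have h0 : yX G U L {x} v a f = 1 := by unfold yX; rw [if_pos ha']
      rw [h0, if_neg hfa, zero_mul, mul_zero, zero_add, mul_one]
      by_cases hfm : f y ∈ avX G U L {x, y} f v
      · have hc : ((avX G U L {x} f v).card : ℝ) = ((avX G U L {x, y} f v).card : ℝ) - 1 := by
          rw [he, Finset.card_erase_of_mem hfm]
          rw [Nat.cast_sub (by omega)]
          norm_num
        rw [hc]
        have h1 : ((avX G U L {x, y} f v).card : ℝ) - 1 - 1 =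
            ((avX G U L {x, y} f v).card : ℝ) - 2 := by ring
        rw [h1, sub_self]
        have h4 : (0 : ℝ) ≤ 2 / (s : ℝ) ^ 4 := by positivity
        nlinarith
      · have hc : avX G U L {x} f v = avX G U L {x, y} f v := by
          rw [he, Finset.erase_eq_of_notMem hfm]
        rw [hc]
        set w : ℝ := ((avX G U L {x, y} f v).card : ℝ) with hwdef
        have hw2 : 0 < w - 2 := by linarith
        have hw1 : 0 < w - 1 := by linarith
        have h1 : 1 / (w - 2) - 1 / (w - 1) = 1 / ((w - 2) * (w - 1)) := by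
          field_simp
          ring
        rw [h1]
        have h2 : (s : ℝ) ^ 2 ≤ (w - 2) * (w - 1) := by nlinarith
        have h3 : 1 / ((w - 2) * (w - 1)) ≤ 1 / (s : ℝ) ^ 2 :=
          one_div_le_one_div_of_le (by positivity) h2
        have h5 : (0 : ℝ) ≤ 1 / ((w - 2) * (w - 1)) := by positivity
        have h6 : (1 / ((w - 2) * (w - 1))) ^ 2 ≤ (1 / (s : ℝ) ^ 2) ^ 2 :=
          pow_le_pow_left₀ h5 h3 2
        have h7 : (1 / (s : ℝ) ^ 2) ^ 2 = 1 / (s : ℝ) ^ 4 := by
          rw [div_pow, one_pow, ← pow_mul]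
        have h8 : (0 : ℝ) ≤ 1 / (s : ℝ) ^ 4 := by positivity
        have h9 : 2 / (s : ℝ) ^ 4 = 2 * (1 / (s : ℝ) ^ 4) := by ring
        rw [h7] at h6
        rw [h9]
        linarith
  · have hy1 : yX G U L {x, y} v a f = 0 := by unfold yX; rw [if_neg ha]
    have h0 : yX G U L {x} v a f = 0 := by
      unfold yX
      rw [if_neg]
      rw [he, Finset.mem_erase]
      exact fun h => ha h.2
    rw [hy1, h0]
    simp

theorem ev_DD_sq_le (hYB : YB V C) {G : SimpleGraph V} {U : Finset V} {L : V → Finset C}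
    (p : V → C) {s : ℕ} (hG : Good G U L s) {v x y : V} (hxU : x ∈ U) (hyU : y ∈ U) (hv : v ∈ U)
    (hx : x ∈ nb G U v) (hy : y ∈ nb G U v) (hxy : y ≠ x) (a : C) :
    ev (Col G U L p) (fun f => (DD G U L x y v a f) ^ 2) ≤
      12 * (Fintype.card C : ℝ) / (s : ℝ) ^ 3 * mg (Col G U L p) v a := by
  have hs2 : (2 : ℝ) ≤ s := by have := hG.1; exact_mod_cast this
  have hs : (0 : ℝ) < s := by linarith
  have h1 := ev_mono (Col G U L p) fun f _ => DD_sq_le hG hv hx hy hxy a f
  rw [ev_add, ev_mul_left, ev_mul_left] at h1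
  have hInd : Ind y (yX G U L {x, y} v a) := ind_yX G U L {x, y} v a (by simp)
  rw [ev_color_mul hG p hyU a hInd] at h1
  have h2 : ev (Col G U L p) (fun f => pr G U L y a f * yX G U L {x, y} v a f) ≤
      1 / (s : ℝ) * ev (Col G U L p) (yX G U L {x, y} v a) := by
    have h3 : ev (Col G U L p) (fun f => pr G U L y a f * yX G U L {x, y} v a f) ≤
        ev (Col G U L p) (fun f => 1 / (s : ℝ) * yX G U L {x, y} v a f) :=
      ev_mono _ fun f _ => mul_le_mul_of_nonneg_right (pr_le hG hyU a f) (yX_nonneg _ _ _ _ _ _ _)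
    rw [ev_mul_left] at h3
    exact h3
  have h4 := (hYB G U L p s v a hG hv).2 x hxU y hyU
  have h5 : 0 ≤ ev (Col G U L p) (yX G U L {x, y} v a) :=
    ev_nonneg _ fun f _ => yX_nonneg _ _ _ _ _ _ _
  set EY := ev (Col G U L p) (yX G U L {x, y} v a) with hEY
  have h7 : 2 / (s : ℝ) ^ 2 * ev (Col G U L p) (fun f => pr G U L y a f * yX G U L {x, y} v a f) ≤
      2 / (s : ℝ) ^ 2 * (1 / (s : ℝ) * EY) := mul_le_mul_of_nonneg_left h2 (by positivity)
  have h8 : 2 / (s : ℝ) ^ 4 ≤ 1 / (s : ℝ) ^ 3 := by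
    rw [div_le_div_iff₀ (by positivity) (by positivity)]
    nlinarith [pow_pos hs 3]
  have h9 : 2 / (s : ℝ) ^ 2 * (1 / (s : ℝ) * EY) + 2 / (s : ℝ) ^ 4 * EY ≤
      3 / (s : ℝ) ^ 3 * EY := by
    have e1 : 2 / (s : ℝ) ^ 2 * (1 / (s : ℝ) * EY) = 2 * (1 / (s : ℝ) ^ 3) * EY := by
      field_simp
    have e2 : 3 / (s : ℝ) ^ 3 = 3 * (1 / (s : ℝ) ^ 3) := by ring
    rw [e1, e2]
    have e3 := mul_le_mul_of_nonneg_right h8 h5
    linarith
  have h10 : 3 / (s : ℝ) ^ 3 * EY ≤
      3 / (s : ℝ) ^ 3 * (4 * (Fintype.card C : ℝ) * mg (Col G U L p) v a) :=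
    mul_le_mul_of_nonneg_left h4 (by positivity)
  have h11 : 3 / (s : ℝ) ^ 3 * (4 * (Fintype.card C : ℝ) * mg (Col G U L p) v a) =
      12 * (Fintype.card C : ℝ) / (s : ℝ) ^ 3 * mg (Col G U L p) v a := by ring
  linarith

theorem ind_Ph_self (G : SimpleGraph V) (U : Finset V) (L : V → Finset C) (p : V → C)
    (h : V → C → ℝ) (x : V) (a : C) : Ind x (Ph G U L p h x a) := by
  intro f c
  unfold Ph xi
  refine Finset.sum_congr rfl fun v _ => ?_
  rw [ind_yX G U L {x} v a (Finset.mem_singleton_self x) f c,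
    avX_update_of_mem G U L f v (Finset.mem_singleton_self x) c]

/-- comparison function which does not depend on `f y` -/
noncomputable def ph (G : SimpleGraph V) (U : Finset V) (L : V → Finset C) (p : V → C)
    (h : V → C → ℝ) (x y : V) (a : C) (f : V → C) : ℝ :=
  ∑ v ∈ nb G U x, h v a *
    (if v ∈ nb G U y then mg (Col G U L p) v a - bb G U L x y v a f else xi G U L p x v a f)

theorem ind_ph (G : SimpleGraph V) (U : Finset V) (L : V → Finset C) (p : V → C)
    (h : V → C → ℝ) (x y : V) (a : C) : Ind y (ph G U L p h x y a) := by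
  intro f c
  unfold ph
  refine Finset.sum_congr rfl fun v hv => ?_
  have hvU : v ∈ U := (mem_nb.1 hv).1
  by_cases hvy : v ∈ nb G U y
  · rw [if_pos hvy, if_pos hvy]
    have hy : y ∈ ({x, y} : Finset V) := by simp
    unfold bb
    rw [ind_yX G U L {x, y} v a hy f c, avX_update_of_mem G U L f v hy c]
  · rw [if_neg hvy, if_neg hvy]
    have hy : y ∉ nb G U v := fun h' => hvy (mem_nb_comm hvU h')
    unfold xi yX
    rw [avX_update_of_notMem G U L {x} f v hy c]

theorem Ph_sub_ph (G : SimpleGraph V) (U : Finset V) (L : V → Finset C) (p : V → C)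
    (h : V → C → ℝ) (x y : V) (a : C) (f : V → C) :
    Ph G U L p h x a f - ph G U L p h x y a f =
      ∑ v ∈ (nb G U x) ∩ (nb G U y), h v a * DD G U L x y v a f := by
  unfold Ph ph
  rw [← Finset.sum_sub_distrib]
  rw [← Finset.filter_mem_eq_inter, Finset.sum_filter]
  refine Finset.sum_congr rfl fun v _ => ?_
  by_cases hvy : v ∈ nb G U y
  · rw [if_pos hvy, if_pos hvy]
    unfold xi DD
    ring
  · rw [if_neg hvy, if_neg hvy, sub_self]

theorem term_le (hYB : YB V C) {G : SimpleGraph V} {U : Finset V} {L : V → Finset C}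
    (p : V → C) {s : ℕ} (hG : Good G U L s) {x y : V} (hxU : x ∈ U) (hyU : y ∈ U)
    (a : C) (h : V → C → ℝ) :
    ev (Col G U L p) (fun f => (Ph G U L p h x a f - hb G U L y (Ph G U L p h x a) f) ^ 2) ≤
      12 * (Fintype.card C : ℝ) / (s : ℝ) ^ 3 * ((kn G U x y : ℝ) *
          ∑ v ∈ (nb G U x) ∩ (nb G U y), mg (Col G U L p) v a * (h v a) ^ 2) := by
  have hR : 0 ≤ 12 * (Fintype.card C : ℝ) / (s : ℝ) ^ 3 * ((kn G U x y : ℝ) *
      ∑ v ∈ (nb G U x) ∩ (nb G U y), mg (Col G U L p) v a * (h v a) ^ 2) := by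
    refine mul_nonneg (by positivity) (mul_nonneg (Nat.cast_nonneg _)
      (Finset.sum_nonneg fun v _ => mul_nonneg (mg_nonneg _ _ _) (sq_nonneg _)))
  by_cases hxy : y = x
  · subst hxy
    refine le_trans (le_of_eq ?_) hR
    have h0 : ∀ f ∈ Col G U L p,
        (Ph G U L p h y a f - hb G U L y (Ph G U L p h y a) f) ^ 2 = (fun _ => (0 : ℝ)) f := by
      intro f _
      rw [hb_ind hG hxU (ind_Ph_self G U L p h y a) f, sub_self]
      norm_num
    rw [ev_congr _ h0, ev_const (Col_nonempty hG p)]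
  · have h1 := ev_sub_hb_sq_le hG p hyU (ind_ph G U L p h x y a) (Ph G U L p h x a)
    refine h1.trans ?_
    have h2 : ∀ f ∈ Col G U L p, (Ph G U L p h x a f - ph G U L p h x y a f) ^ 2 ≤
        (kn G U x y : ℝ) * ∑ v ∈ (nb G U x) ∩ (nb G U y),
          (h v a) ^ 2 * (DD G U L x y v a f) ^ 2 := by
      intro f _
      rw [Ph_sub_ph]
      have h3 := sq_sum_le_card_mul_sum_sq (s := (nb G U x) ∩ (nb G U y))
        (f := fun v => h v a * DD G U L x y v a f)
      refine h3.trans (le_of_eq ?_)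
      unfold kn
      congr 1
      exact Finset.sum_congr rfl fun v _ => by ring
    refine (ev_mono _ h2).trans ?_
    rw [ev_mul_left, ev_sum]
    have h4 : ∑ v ∈ (nb G U x) ∩ (nb G U y),
        ev (Col G U L p) (fun f => (h v a) ^ 2 * (DD G U L x y v a f) ^ 2) ≤
        12 * (Fintype.card C : ℝ) / (s : ℝ) ^ 3 *
          ∑ v ∈ (nb G U x) ∩ (nb G U y), mg (Col G U L p) v a * (h v a) ^ 2 := by
      rw [Finset.mul_sum]
      refine Finset.sum_le_sum fun v hv => ?_
      rw [Finset.mem_inter] at hv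
      have hvU : v ∈ U := (mem_nb.1 hv.1).1
      have h5 := ev_DD_sq_le hYB p hG hxU hyU hvU (mem_nb_comm hxU hv.1) (mem_nb_comm hyU hv.2)
        hxy a
      rw [ev_mul_left]
      have h6 := mul_le_mul_of_nonneg_left h5 (sq_nonneg (h v a))
      linarith
    have h7 := mul_le_mul_of_nonneg_left h4 (Nat.cast_nonneg (α := ℝ) (kn G U x y))
    linarith

end XiVAux

open XiVAux in
theorem xiV_proof (V C : Type) [Fintype V] [Fintype C] : XiV V C := by
  intro hYB G U L p s P x a h hG hx hP hPo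
  have h1 := hPo (Ph G U L p h x a)
  refine h1.trans ?_
  unfold dir
  have h2 : ∑ y ∈ U, ev (Col G U L p)
      (fun f => (Ph G U L p h x a f - hb G U L y (Ph G U L p h x a) f) ^ 2) ≤
      ∑ y ∈ U, 12 * (Fintype.card C : ℝ) / (s : ℝ) ^ 3 * ((kn G U x y : ℝ) *
          ∑ v ∈ (nb G U x) ∩ (nb G U y), mg (Col G U L p) v a * (h v a) ^ 2) :=
    Finset.sum_le_sum fun y hy => term_le hYB p hG hx hy a h
  rw [← Finset.mul_sum] at h2
  have h3 := mul_le_mul_of_nonneg_left h2 hP
  refine h3.trans (le_of_eq ?_)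
  ring

end Pool.Agent.Eps26
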